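import Pool.Agent.Lib.MP_7fdaab_ag.KP.Defs

/-!
hop_mod row Alg1 (80-120 lines): pure algebra of the definitions.
PROOFS.  `lphi_eq`: linearity of `mulVec` and of the dot product.  `lphi_im`: `Complex.im` of a sum
with real coefficients.  `lphi_ne`: its imaginary part is positive.  `P_lin`: the determinant is
linear in column 0 (`det_updateCol_..` or Laplace expansion `det_succ_column_zero`: the minors do
not involve `a`).  `P_phi`: column 0 equals `sum_k z_k rho_k`, so the determinant is zero (e.g.
`(A M z (phi M z)).mulVec (1, -z_1, .., -z_m) = 0` with a nonzero vector, `exists_mulVec_eq_zero_iff`).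
`wt_eq`: `conj phi_j = phi_j - 2 i q_j`, so `conj (wt) = sum_j conj(phi_j) P(e_j) = P(conj phi) =
P(phi) - 2 i P(q) = - 2 i P(q)`.  `cramer_id`: `(A M z a).mulVec ((A M z a).cramer b) = det • b`
(`mulVec_cramer`), row `j`, `Fin.sum_univ_succ`; the component 0 of the Cramer vector is
`det (updateCol (A M z a) 0 b) = P M z b`.  `P_smul`: columns `1..m` are multiplied by `c`
(`det_mul_row`/`det_mul_column` with the vector `(1, c, .., c)`, or Laplace + homogeneity).
`wt_I_smul`: `phi (I z) = - phi z`, `P (I z) = I^m P z`, `conj (I^m) = (-I)^m = (-1)^k`.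
-/

namespace Pool.Agent.Lib.MP_7fdaab_ag.KP

open Matrix MeasureTheory

variable {m : ℕ}

theorem phi_smul (M : Sys m) (c : ℂ) (z : E m) (j : Fin (m + 1)) :
    phi M (c • z) j = c ^ 2 * phi M z j := by
  unfold phi
  rw [mulVec_smul, smul_dotProduct, dotProduct_smul, smul_eq_mul, smul_eq_mul]
  ring

theorem q_real_smul (M : Sys m) (t : ℝ) (z : E m) :
    q M (((t : ℝ) : ℂ) • z) = (t ^ 2) • q M z := by
  funext j
  rw [Pi.smul_apply, smul_eq_mul]
  unfold q
  rw [phi_smul, ← Complex.ofReal_pow, Complex.im_ofReal_mul]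

theorem q_I_smul (M : Sys m) (z : E m) : q M (Complex.I • z) = - q M z := by
  funext j
  rw [Pi.neg_apply]
  unfold q
  rw [phi_smul, Complex.I_sq, neg_one_mul, Complex.neg_im]

theorem lphi_eq (M : Sys m) (l : V m) (z : E m) :
    lphi M l z = z ⬝ᵥ (SL M l).mulVec z := by
  unfold lphi SL phi
  rw [sum_mulVec, dotProduct_sum]
  refine Finset.sum_congr rfl fun j _ => ?_
  rw [smul_mulVec, dotProduct_smul, smul_eq_mul]

theorem lphi_im (M : Sys m) (l : V m) (z : E m) :
    (lphi M l z).im = ∑ j, l j * q M z j := by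
  unfold lphi q
  rw [Complex.im_sum]
  exact Finset.sum_congr rfl fun j _ => Complex.im_ofReal_mul _ _

theorem lphi_ne (M : Sys m) (l : V m) (z : E m) (hz : z ∈ U M l) : lphi M l z ≠ 0 := by
  intro h
  have h1 : 0 < ∑ j, l j * q M z j := hz
  rw [← lphi_im, h, Complex.zero_im] at h1
  exact lt_irrefl _ h1

theorem lphi_single (M : Sys m) (j : Fin (m + 1)) (z : E m) :
    lphi M (Pi.single j 1) z = phi M z j := by
  unfold lphi
  rw [Finset.sum_eq_single j]
  · rw [Pi.single_eq_same, Complex.ofReal_one, one_mul]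
  · intro i _ hi
    rw [Pi.single_eq_of_ne hi, Complex.ofReal_zero, zero_mul]
  · intro h
    exact absurd (Finset.mem_univ j) h

theorem SL_single (M : Sys m) (j : Fin (m + 1)) : SL M (Pi.single j 1) = M j := by
  unfold SL
  rw [Finset.sum_eq_single j]
  · rw [Pi.single_eq_same, Complex.ofReal_one, one_smul]
  · intro i _ hi
    rw [Pi.single_eq_of_ne hi, Complex.ofReal_zero, zero_smul]
  · intro h
    exact absurd (Finset.mem_univ j) h

theorem SL_isSymm (M : Sys m) (hM : ∀ j, (M j).IsSymm) (l : V m) : (SL M l).IsSymm := by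
  unfold SL Matrix.IsSymm
  rw [transpose_sum]
  refine Finset.sum_congr rfl fun j _ => ?_
  rw [transpose_smul, (hM j).eq]

theorem mem_U_single (M : Sys m) (j : Fin (m + 1)) (z : E m) :
    z ∈ U M (Pi.single j 1) ↔ 0 < q M z j := by
  have h1 : ∑ i, (Pi.single j 1 : V m) i * q M z i = q M z j := by
    rw [← lphi_im, lphi_single]
    rfl
  change 0 < ∑ i, (Pi.single j 1 : V m) i * q M z i ↔ 0 < q M z j
  rw [h1]

private theorem alg1_exp (M : Sys m) (z : E m) (a : Fin (m + 1) → ℂ) :
    P M z a = ∑ i : Fin (m + 1), (-1) ^ (i : ℕ) * a i *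
      (Matrix.of fun (r c : Fin m) => (M (i.succAbove r)).mulVec z c).det := by
  unfold P
  rw [det_succ_column_zero]
  refine Finset.sum_congr rfl fun i _ => ?_
  have h1 : A M z a i 0 = a i := by
    unfold A
    rw [of_apply, Fin.cons_zero]
  have h2 : (A M z a).submatrix i.succAbove Fin.succ =
      Matrix.of fun (r c : Fin m) => (M (i.succAbove r)).mulVec z c := by
    ext r c
    unfold A
    rw [submatrix_apply, of_apply, of_apply, Fin.cons_succ]
  rw [h1, h2]

theorem P_lin (M : Sys m) (z : E m) (a : Fin (m + 1) → ℂ) :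
    P M z a = ∑ j, a j * P M z (ej j) := by
  rw [alg1_exp]
  refine Finset.sum_congr rfl fun j _ => ?_
  rw [alg1_exp, Finset.sum_eq_single j]
  · unfold ej
    rw [Pi.single_eq_same]
    ring
  · intro i _ hi
    unfold ej
    rw [Pi.single_eq_of_ne hi, mul_zero, zero_mul]
  · intro h
    exact absurd (Finset.mem_univ j) h

theorem P_phi (M : Sys m) (z : E m) : P M z (phi M z) = 0 := by
  unfold P
  rw [← exists_mulVec_eq_zero_iff]
  refine ⟨(Fin.cons 1 (fun k => - z k) : Fin (m + 1) → ℂ), ?_, ?_⟩
  · intro h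
    have h1 := congrFun h 0
    rw [Fin.cons_zero, Pi.zero_apply] at h1
    exact one_ne_zero h1
  · funext j
    rw [Pi.zero_apply, mulVec, dotProduct, Fin.sum_univ_succ]
    unfold A
    simp only [of_apply, Fin.cons_zero, Fin.cons_succ, mul_one, mul_neg, Finset.sum_neg_distrib]
    have h2 : phi M z j = ∑ k, (M j).mulVec z k * z k := by
      unfold phi
      rw [dotProduct_comm]
      rfl
    rw [h2]
    ring

theorem wt_eq (M : Sys m) (z : E m) :
    wt M z = 2 * Complex.I * (starRingEnd ℂ) (P M z (toC (q M z))) := by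
  have h1 : ∑ j, (starRingEnd ℂ) (phi M z j) * (starRingEnd ℂ) (P M z (ej j)) = 0 := by
    have h2 := congrArg (starRingEnd ℂ) (P_phi M z)
    rw [P_lin, map_sum, map_zero] at h2
    rw [← h2]
    exact Finset.sum_congr rfl fun j _ => (map_mul _ _ _).symm
  have h3 : ∀ j, phi M z j = (starRingEnd ℂ) (phi M z j) + 2 * Complex.I * toC (q M z) j := by
    intro j
    unfold toC q
    apply Complex.ext
    · simp
    · simp
      ring
  rw [P_lin, map_sum, Finset.mul_sum]
  unfold wt
  calc ∑ j, phi M z j * (starRingEnd ℂ) (P M z (ej j))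
      = ∑ j, ((starRingEnd ℂ) (phi M z j) * (starRingEnd ℂ) (P M z (ej j)) +
          2 * Complex.I * (toC (q M z) j * (starRingEnd ℂ) (P M z (ej j)))) := by
        refine Finset.sum_congr rfl fun j _ => ?_
        linear_combination ((starRingEnd ℂ) (P M z (ej j))) * h3 j
    _ = _ := by
        rw [Finset.sum_add_distrib, h1, zero_add]
        refine Finset.sum_congr rfl fun j _ => ?_
        rw [map_mul]
        have h4 : (starRingEnd ℂ) (toC (q M z) j) = toC (q M z) j := by
          unfold toC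
          exact Complex.conj_ofReal _
        rw [h4]

theorem cramer_id (M : Sys m) (a b : Fin (m + 1) → ℂ) (z : E m) (j : Fin (m + 1)) :
    (M j).mulVec z ⬝ᵥ X M a b z = P M z a * b j - P M z b * a j := by
  have h1 := congrFun (mulVec_cramer (A M z a) b) j
  rw [Pi.smul_apply, smul_eq_mul, mulVec, dotProduct, Fin.sum_univ_succ] at h1
  have h2 : A M z a j 0 = a j := by
    unfold A
    rw [of_apply, Fin.cons_zero]
  have h3 : (A M z a).cramer b 0 = P M z b := by
    rw [cramer_apply]
    unfold P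
    congr 1
    ext r c
    rw [updateCol_apply]
    unfold A
    refine Fin.cases ?_ (fun k => ?_) c
    · rw [if_pos rfl, of_apply, Fin.cons_zero]
    · rw [if_neg (Fin.succ_ne_zero k), of_apply, of_apply, Fin.cons_succ, Fin.cons_succ]
  have h4 : ∀ k : Fin m, A M z a j k.succ = (M j).mulVec z k := by
    intro k
    unfold A
    rw [of_apply, Fin.cons_succ]
  rw [h2, h3] at h1
  have h5 : (M j).mulVec z ⬝ᵥ X M a b z = ∑ k : Fin m, A M z a j k.succ * (A M z a).cramer b k.succ :=
    Finset.sum_congr rfl fun k _ => by rw [h4]; rfl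
  rw [h5]
  unfold P at h1 ⊢
  linear_combination h1

theorem P_smul (M : Sys m) (c : ℂ) (z : E m) (a : Fin (m + 1) → ℂ) :
    P M (c • z) a = c ^ m * P M z a := by
  have h1 : A M (c • z) a = Matrix.of fun i j => (Fin.cons 1 (fun _ => c) : Fin (m + 1) → ℂ) j * A M z a i j := by
    ext i j
    unfold A
    refine Fin.cases ?_ (fun k => ?_) j
    · simp only [of_apply, Fin.cons_zero, one_mul]
    · simp only [of_apply, Fin.cons_succ, mulVec_smul, Pi.smul_apply, smul_eq_mul]
  unfold P
  rw [h1, det_mul_row, Fin.prod_univ_succ]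
  simp only [Fin.cons_zero, Fin.cons_succ, Finset.prod_const, Finset.card_univ, Fintype.card_fin, one_mul]

theorem wt_I_smul (M : Sys m) (k : ℕ) (hk : m = 2 * k) (z : E m) :
    wt M (Complex.I • z) = (-1) ^ (k + 1) * wt M z := by
  have h1 : (starRingEnd ℂ) (Complex.I ^ m) = (-1) ^ k := by
    rw [map_pow, Complex.conj_I, hk, pow_mul, neg_sq, Complex.I_sq]
  unfold wt
  rw [Finset.mul_sum]
  refine Finset.sum_congr rfl fun j _ => ?_
  rw [phi_smul, P_smul, map_mul, h1, Complex.I_sq, pow_succ]
  ring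

end Pool.Agent.Lib.MP_7fdaab_ag.KP
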