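import Pool.Agent.Lib.MP_7fdaab_ag.KP.Defs

/-!
hop_mod row Alg2 (80-120 lines): derivatives of `phi`, smoothness of `P`, `X`; class `HP`.
PROOFS.  `phi`, `P`, `X` are polynomial in the coordinates of `z`: expand the dot products and
determinants (`det_apply`, `cramer_apply`), `ContDiff.sum`, `contDiff_prod`, `contDiff_apply`.
`fderiv_phi`: product rule for `z ⬝ᵥ M z` and symmetry.  `HP_phi`: double sum of `z_i * (c * z_k)`.
`HP.*` by induction on `HP`; `HP.deriv`: `HP (d+1) h -> HP d (h' w)`: by induction on `HP`, the case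
`coord i hg` (`hg : HP d g`): derivative `w_i g + z_i (g' w)`; if `d = 0` then `g` has derivative 0
(lemma `HP.fderiv_zero`), else `g' w` is in `HP (d-1)` and `coord` applies.  `HP_P`: `det_apply`,
`Fin.prod_univ_succ`: factor `a (s 0)` times a product of `m` linear forms (`HP.prod`).
`HP.euler`: Euler identity, by induction.
-/

namespace Pool.Agent.Lib.MP_7fdaab_ag.KP

open Matrix MeasureTheory

variable {m : ℕ}

theorem HP.contDiff {d : ℕ} {h : E m → ℂ} (hh : HP d h) (n : WithTop ℕ∞) :
    ContDiff ℂ n h := by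
  induction hh with
  | zero d => exact contDiff_const
  | const c => exact contDiff_const
  | coord i hg ih => exact (contDiff_apply ℂ ℂ i).mul ih
  | add hg hh ihg ihh => exact ihg.add ihh

theorem HP.smul {d : ℕ} {h : E m → ℂ} (c : ℂ) (hh : HP d h) : HP d (fun z => c * h z) := by
  induction hh with
  | zero d =>
    simp only [mul_zero]
    exact HP.zero d
  | const c' => exact HP.const (c * c')
  | @coord d g i hg ih =>
    have h1 : (fun z : E m => c * (z i * g z)) = fun z => z i * (c * g z) := by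
      funext z
      ring
    rw [h1]
    exact HP.coord i ih
  | @add d g h hg hh ihg ihh =>
    have h1 : (fun z : E m => c * (g z + h z)) = fun z => c * g z + c * h z := by
      funext z
      ring
    rw [h1]
    exact HP.add ihg ihh

theorem HP.mul {d e : ℕ} {g h : E m → ℂ} (hg : HP d g) (hh : HP e h) :
    HP (d + e) (fun z => g z * h z) := by
  induction hg with
  | zero d =>
    simp only [zero_mul]
    exact HP.zero _
  | const c =>
    rw [zero_add]
    exact HP.smul c hh
  | @coord d g i hg ih =>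
    have h1 : (fun z : E m => z i * g z * h z) = fun z => z i * (g z * h z) := by
      funext z
      ring
    rw [h1, show d + 1 + e = d + e + 1 by omega]
    exact HP.coord i ih
  | @add d g g' hg hg' ihg ihg' =>
    have h1 : (fun z : E m => (g z + g' z) * h z) = fun z => g z * h z + g' z * h z := by
      funext z
      ring
    rw [h1]
    exact HP.add ihg ihg'

theorem HP.sum {d : ℕ} {ι : Type} (s : Finset ι) {g : ι → E m → ℂ}
    (hg : ∀ i ∈ s, HP d (g i)) : HP d (fun z => ∑ i ∈ s, g i z) := by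
  classical
  induction s using Finset.induction_on with
  | empty =>
    simp only [Finset.sum_empty]
    exact HP.zero d
  | insert a s ha ih =>
    simp only [Finset.sum_insert ha]
    exact HP.add (hg a (Finset.mem_insert_self _ _)) (ih fun i hi => hg i (Finset.mem_insert_of_mem hi))

private theorem alg2_cast {d e : ℕ} {f : E m → ℂ} (h : d = e) (hf : HP d f) : HP e f := h ▸ hf

theorem HP.prod {n : ℕ} {g : Fin n → E m → ℂ}
    (hg : ∀ i, HP 1 (g i)) : HP n (fun z => ∏ i, g i z) := by
  induction n with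
  | zero =>
    simp only [Finset.univ_eq_empty, Finset.prod_empty]
    exact HP.const 1
  | succ n ih =>
    simp only [Fin.prod_univ_succ]
    exact alg2_cast (add_comm 1 n) (HP.mul (hg 0) (ih fun i => hg i.succ))

theorem HP.linear (c : Fin m → ℂ) : HP 1 (fun z : E m => ∑ i, c i * z i) := by
  refine HP.sum _ fun i _ => HP.smul (c i) ?_
  have h1 : (fun z : E m => z i) = fun z => z i * (1 : ℂ) := by
    funext z
    rw [mul_one]
  rw [h1]
  exact HP.coord i (HP.const 1)

private theorem alg2_diff {d : ℕ} {h : E m → ℂ} (hh : HP d h) (z : E m) : DifferentiableAt ℂ h z :=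
  (hh.contDiff 1).differentiable (by norm_num) z

private theorem alg2_coord (i : Fin m) (z w : E m) : fderiv ℂ (fun z : E m => z i) z w = w i := by
  have h1 := (ContinuousLinearMap.proj (R := ℂ) (φ := fun _ : Fin m => ℂ) i).hasFDerivAt (x := z)
  have h2 : fderiv ℂ (fun z : E m => z i) z = ContinuousLinearMap.proj (R := ℂ) (φ := fun _ : Fin m => ℂ) i := h1.fderiv
  rw [h2]
  rfl

private theorem alg2_coord_diff (i : Fin m) (z : E m) : DifferentiableAt ℂ (fun z : E m => z i) z :=
  differentiableAt_apply i z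

private theorem alg2_mul {f g : E m → ℂ} {z : E m} (hf : DifferentiableAt ℂ f z) (hg : DifferentiableAt ℂ g z) (w : E m) :
    fderiv ℂ (fun z => f z * g z) z w = f z * fderiv ℂ g z w + g z * fderiv ℂ f z w := by
  rw [fderiv_fun_mul hf hg]
  rfl

private theorem alg2_add {f g : E m → ℂ} {z : E m} (hf : DifferentiableAt ℂ f z) (hg : DifferentiableAt ℂ g z) (w : E m) :
    fderiv ℂ (fun z => f z + g z) z w = fderiv ℂ f z w + fderiv ℂ g z w := by
  rw [fderiv_fun_add hf hg]
  rfl

theorem HP.euler {d : ℕ} {h : E m → ℂ} (hh : HP d h) (z : E m) :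
    fderiv ℂ h z z = (d : ℂ) * h z := by
  induction hh with
  | zero d => simp
  | const c => simp
  | @coord d g i hg ih =>
    rw [alg2_mul (alg2_coord_diff i z) (alg2_diff hg z), ih, alg2_coord]
    push_cast
    ring
  | @add d g h hg hh ihg ihh =>
    rw [alg2_add (alg2_diff hg z) (alg2_diff hh z), ihg, ihh]
    ring

private theorem alg2_zero_const {d : ℕ} {h : E m → ℂ} (hh : HP d h) : d = 0 → ∃ c : ℂ, ∀ z, h z = c := by
  induction hh with
  | zero d => exact fun _ => ⟨0, fun _ => rfl⟩
  | const c => exact fun _ => ⟨c, fun _ => rfl⟩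
  | coord i hg ih =>
    intro h
    exact absurd h (Nat.succ_ne_zero _)
  | add hg hh ihg ihh =>
    intro h
    obtain ⟨c, hc⟩ := ihg h
    obtain ⟨c', hc'⟩ := ihh h
    exact ⟨c + c', fun z => by simp only [hc, hc']⟩

theorem HP.fderiv_zero {h : E m → ℂ} (hh : HP 0 h) (z w : E m) : fderiv ℂ h z w = 0 := by
  obtain ⟨c, hc⟩ := alg2_zero_const hh rfl
  have h1 : h = fun _ => c := funext hc
  rw [h1]
  simp

private theorem alg2_deriv {e : ℕ} {h : E m → ℂ} (hh : HP e h) (w : E m) :
    ∀ d, e = d + 1 → HP d (fun z => fderiv ℂ h z w) := by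
  induction hh with
  | zero e =>
    intro d _
    have h1 : (fun z : E m => fderiv ℂ (fun _ : E m => (0 : ℂ)) z w) = fun _ => 0 := by
      funext z
      simp
    rw [h1]
    exact HP.zero d
  | const c =>
    intro d h
    omega
  | @coord e g i hg ih =>
    intro d h
    have hd : e = d := by omega
    subst hd
    have h1 : (fun z : E m => fderiv ℂ (fun z : E m => z i * g z) z w) = fun z => z i * fderiv ℂ g z w + w i * g z := by
      funext z
      rw [alg2_mul (alg2_coord_diff i z) (alg2_diff hg z), alg2_coord]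
      ring
    rw [h1]
    refine HP.add ?_ (HP.smul (w i) hg)
    rcases Nat.eq_zero_or_pos e with he | he
    · subst he
      have h2 : (fun z : E m => z i * fderiv ℂ g z w) = fun _ => 0 := by
        funext z
        rw [HP.fderiv_zero hg, mul_zero]
      rw [h2]
      exact HP.zero 0
    · obtain ⟨k, rfl⟩ : ∃ k, e = k + 1 := ⟨e - 1, by omega⟩
      exact HP.coord i (ih k rfl)
  | @add e g h hg hh ihg ihh =>
    intro d hd
    have h1 : (fun z : E m => fderiv ℂ (fun z : E m => g z + h z) z w) = fun z => fderiv ℂ g z w + fderiv ℂ h z w := by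
      funext z
      rw [alg2_add (alg2_diff hg z) (alg2_diff hh z)]
    rw [h1]
    exact HP.add (ihg d hd) (ihh d hd)

theorem HP.deriv {d : ℕ} {h : E m → ℂ} (hh : HP (d + 1) h) (w : E m) :
    HP d (fun z => fderiv ℂ h z w) := alg2_deriv hh w d rfl

theorem HP_phi (M : Sys m) (j : Fin (m + 1)) : HP 2 (fun z => phi M z j) := by
  have h1 : (fun z : E m => phi M z j) = fun z => ∑ i, z i * ∑ k, M j i k * z k := rfl
  rw [h1]
  exact HP.sum _ fun i _ => HP.coord i (HP.linear (M j i))

theorem HP_P (M : Sys m) (a : Fin (m + 1) → ℂ) : HP m (fun z => P M z a) := by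
  have h1 : (fun z : E m => P M z a) = fun z => ∑ s : Equiv.Perm (Fin (m + 1)),
      (((Equiv.Perm.sign s : ℤ) : ℂ) * a (s 0)) * ∏ k : Fin m, ∑ i, M (s k.succ) k i * z i := by
    funext z
    unfold P
    rw [Matrix.det_apply']
    refine Finset.sum_congr rfl fun s _ => ?_
    rw [Fin.prod_univ_succ, mul_assoc]
    rfl
  rw [h1]
  exact HP.sum _ fun s _ => HP.smul _ (HP.prod fun k => HP.linear _)

theorem phi_contDiff (M : Sys m) (j : Fin (m + 1)) (n : WithTop ℕ∞) :
    ContDiff ℂ n (fun z => phi M z j) := (HP_phi M j).contDiff n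

theorem lphi_contDiff (M : Sys m) (l : V m) (n : WithTop ℕ∞) :
    ContDiff ℂ n (fun z => lphi M l z) :=
  ContDiff.sum fun j _ => contDiff_const.mul (phi_contDiff M j n)

theorem P_contDiff (M : Sys m) (a : Fin (m + 1) → ℂ) (n : WithTop ℕ∞) :
    ContDiff ℂ n (fun z => P M z a) := (HP_P M a).contDiff n

private theorem alg2_det {k : ℕ} {n : WithTop ℕ∞} {B : E m → Matrix (Fin k) (Fin k) ℂ}
    (hB : ∀ i j, ContDiff ℂ n fun z => B z i j) : ContDiff ℂ n fun z => (B z).det := by
  have h1 : (fun z => (B z).det) = fun z => ∑ s : Equiv.Perm (Fin k), ((Equiv.Perm.sign s : ℤ) : ℂ) * ∏ i, B z (s i) i := by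
    funext z
    rw [Matrix.det_apply']
  rw [h1]
  exact ContDiff.sum fun s _ => contDiff_const.mul (contDiff_prod fun i _ => hB _ _)

private theorem alg2_A (M : Sys m) (a : Fin (m + 1) → ℂ) (n : WithTop ℕ∞) (i j : Fin (m + 1)) :
    ContDiff ℂ n fun z => A M z a i j := by
  unfold A
  refine Fin.cases ?_ (fun k => ?_) j
  · simp only [Matrix.of_apply, Fin.cons_zero]
    exact contDiff_const
  · simp only [Matrix.of_apply, Fin.cons_succ]
    exact (HP.linear (M i k)).contDiff n

theorem X_contDiff (M : Sys m) (a b : Fin (m + 1) → ℂ) (n : WithTop ℕ∞) :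
    ContDiff ℂ n (X M a b) := by
  rw [contDiff_pi]
  intro k
  unfold X
  simp only [Matrix.cramer_apply]
  refine alg2_det fun i j => ?_
  by_cases hj : j = k.succ
  · subst hj
    simp only [Matrix.updateCol_self]
    exact contDiff_const
  · simp only [Matrix.updateCol_ne hj]
    exact alg2_A M a n i j

theorem fderiv_phi (M : Sys m) (j : Fin (m + 1)) (hM : (M j).IsSymm) (z v : E m) :
    fderiv ℂ (fun z => phi M z j) z v = 2 * ((M j).mulVec z ⬝ᵥ v) := by
  have h0 : ∀ i, DifferentiableAt ℂ (fun z : E m => (M j).mulVec z i) z := fun i =>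
    alg2_diff (HP.linear (M j i)) z
  have h1 : ∀ i, fderiv ℂ (fun z : E m => (M j).mulVec z i) z v = (M j).mulVec v i := by
    intro i
    have h2 : (fun z : E m => (M j).mulVec z i) = fun z => ∑ k, M j i k * z k := rfl
    rw [h2, fderiv_fun_sum fun k _ => (alg2_coord_diff k z).const_mul _, _root_.sum_apply]
    refine Finset.sum_congr rfl fun k _ => ?_
    rw [fderiv_const_mul (alg2_coord_diff k z), _root_.smul_apply, alg2_coord]
    rfl
  have h3 : (fun z : E m => phi M z j) = fun z => ∑ i, z i * (M j).mulVec z i := rfl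
  have h8 : ∀ i ∈ Finset.univ, DifferentiableAt ℂ (fun z : E m => z i * (M j).mulVec z i) z := fun i _ =>
    (alg2_coord_diff i z).mul (h0 i)
  rw [h3, fderiv_fun_sum h8, _root_.sum_apply]
  have h4 : ∀ i, fderiv ℂ (fun z : E m => z i * (M j).mulVec z i) z v = z i * (M j).mulVec v i + (M j).mulVec z i * v i := by
    intro i
    rw [alg2_mul (alg2_coord_diff i z) (h0 i), h1, alg2_coord]
  rw [Finset.sum_congr rfl fun i _ => h4 i, Finset.sum_add_distrib]
  have h5 : ∑ i, z i * (M j).mulVec v i = (M j).mulVec z ⬝ᵥ v := by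
    have h6 : ∑ i, z i * (M j).mulVec v i = z ⬝ᵥ (M j).mulVec v := rfl
    rw [h6, Matrix.dotProduct_mulVec, ← Matrix.mulVec_transpose, hM.eq]
  rw [h5]
  have h7 : ∑ i, (M j).mulVec z i * v i = (M j).mulVec z ⬝ᵥ v := rfl
  rw [h7]
  ring

theorem fderiv_lphi (M : Sys m) (l : V m) (hM : ∀ j, (M j).IsSymm) (z v : E m) :
    fderiv ℂ (fun z => lphi M l z) z v = 2 * ((SL M l).mulVec z ⬝ᵥ v) := by
  have h0 : ∀ j, DifferentiableAt ℂ (fun z : E m => phi M z j) z := fun j => alg2_diff (HP_phi M j) z
  have h3 : (fun z : E m => lphi M l z) = fun z => ∑ j, ((l j : ℝ) : ℂ) * phi M z j := rfl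
  rw [h3, fderiv_fun_sum fun j _ => (h0 j).const_mul _, _root_.sum_apply]
  have h4 : ∀ j, fderiv ℂ (fun z : E m => ((l j : ℝ) : ℂ) * phi M z j) z v =
      2 * ((((l j : ℝ) : ℂ) • M j).mulVec z ⬝ᵥ v) := by
    intro j
    rw [fderiv_const_mul (h0 j), _root_.smul_apply, fderiv_phi M j (hM j), Matrix.smul_mulVec, smul_dotProduct,
      smul_eq_mul, smul_eq_mul]
    ring
  rw [Finset.sum_congr rfl fun j _ => h4 j, ← Finset.mul_sum]
  congr 1
  unfold SL
  rw [Matrix.sum_mulVec, sum_dotProduct]

theorem wt_continuous (M : Sys m) : Continuous (wt M) := by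
  unfold wt
  refine continuous_finsetSum _ fun j _ => ?_
  exact (phi_contDiff M j 0).continuous.mul (Complex.continuous_conj.comp (P_contDiff M (ej j) 0).continuous)

end Pool.Agent.Lib.MP_7fdaab_ag.KP
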