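import Mathlib

/-!
hop_mod row Param: continuity and derivative of integrals depending on a parameter.
-/

namespace Pool.Agent.Lib.MP_7fdaab_ag.KP

open MeasureTheory Topology

private theorem param_meas {m : ℕ} {Y : Type} [TopologicalSpace Y] {N : Set Y} {K : Set (Fin m → ℂ)}
    (hK : IsCompact K) {G : Y → (Fin m → ℂ) → ℂ} (hG : ContinuousOn (Function.uncurry G) (N ×ˢ K))
    (h0 : ∀ x ∈ N, ∀ z ∉ K, G x z = 0) {x : Y} (hx : x ∈ N) : AEStronglyMeasurable (G x) volume := by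
  have hKm : MeasurableSet K := hK.measurableSet
  have h1 : G x = K.indicator (G x) := by
    funext z
    by_cases hz : z ∈ K
    · rw [Set.indicator_of_mem hz]
    · rw [Set.indicator_of_notMem hz, h0 x hx z hz]
  rw [h1, aestronglyMeasurable_indicator_iff hKm]
  refine ContinuousOn.aestronglyMeasurable ?_ hKm
  have h2 : ContinuousOn (fun z : Fin m → ℂ => (x, z)) K := by fun_prop
  exact hG.comp h2 fun z hz => ⟨hx, hz⟩

private theorem param_bound {m : ℕ} {Y : Type} [TopologicalSpace Y] {B : Set Y} (hB : IsCompact B)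
    {K : Set (Fin m → ℂ)} (hK : IsCompact K) {G : Y → (Fin m → ℂ) → ℂ}
    (hG : ContinuousOn (Function.uncurry G) (B ×ˢ K))
    (h0 : ∀ x ∈ B, ∀ z ∉ K, G x z = 0) :
    ∃ bd : (Fin m → ℂ) → ℝ, Integrable bd volume ∧ ∀ x ∈ B, ∀ z, ‖G x z‖ ≤ bd z := by
  obtain ⟨b, hb⟩ := (hB.prod hK).exists_bound_of_continuousOn hG
  refine ⟨K.indicator fun _ => |b|, ?_, ?_⟩
  · rw [integrable_indicator_iff hK.measurableSet]
    exact integrableOn_const hK.measure_lt_top.ne
  · intro x hx z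
    by_cases hz : z ∈ K
    · rw [Set.indicator_of_mem hz]
      exact (hb (x, z) ⟨hx, hz⟩).trans (le_abs_self b)
    · rw [Set.indicator_of_notMem hz, h0 x hx z hz, norm_zero]

theorem param_cont {m : ℕ} {Y : Type} [PseudoMetricSpace Y] [ProperSpace Y] {x₀ : Y}
    {N : Set Y} (hN : N ∈ 𝓝 x₀) {K : Set (Fin m → ℂ)} (hK : IsCompact K)
    {G : Y → (Fin m → ℂ) → ℂ} (hG : ContinuousOn (Function.uncurry G) (N ×ˢ K))
    (h0 : ∀ x ∈ N, ∀ z ∉ K, G x z = 0) : ContinuousAt (fun x => ∫ z, G x z) x₀ := by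
  obtain ⟨r, hr, hrN⟩ := Metric.nhds_basis_closedBall.mem_iff.1 hN
  obtain ⟨bd, hbd, hle⟩ := param_bound (isCompact_closedBall x₀ r) hK
    (hG.mono (Set.prod_mono hrN le_rfl)) fun x hx => h0 x (hrN hx)
  have hev : ∀ᶠ x in 𝓝 x₀, x ∈ Metric.closedBall x₀ r := Metric.closedBall_mem_nhds x₀ hr
  refine continuousAt_of_dominated (bound := bd) ?_ ?_ hbd ?_
  · filter_upwards [hev] with x hx
    exact param_meas hK hG h0 (hrN hx)
  · filter_upwards [hev] with x hx
    exact Filter.Eventually.of_forall fun z => hle x hx z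
  · refine Filter.Eventually.of_forall fun z => ?_
    by_cases hz : z ∈ K
    · have h1 : ContinuousOn (fun x : Y => (x, z)) N := by fun_prop
      have h2 : ContinuousOn (fun x : Y => G x z) N := hG.comp h1 fun x hx => ⟨hx, hz⟩
      exact h2.continuousAt hN
    · have h1 : (fun x : Y => G x z) =ᶠ[𝓝 x₀] fun _ => 0 := by
        filter_upwards [hN] with x hx
        exact h0 x hx z hz
      exact (continuousAt_const (y := (0 : ℂ))).congr h1.symm

theorem param_deriv {m : ℕ} {t₀ : ℝ} {N : Set ℝ} (hN : N ∈ 𝓝 t₀)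
    {K : Set (Fin m → ℂ)} (hK : IsCompact K) {G G' : ℝ → (Fin m → ℂ) → ℂ}
    (hG : ContinuousOn (Function.uncurry G) (N ×ˢ K))
    (hG' : ContinuousOn (Function.uncurry G') (N ×ˢ K))
    (h0 : ∀ t ∈ N, ∀ z ∉ K, G t z = 0) (h0' : ∀ t ∈ N, ∀ z ∉ K, G' t z = 0)
    (hd : ∀ t ∈ N, ∀ z ∈ K, HasDerivAt (fun s => G s z) (G' t z) t) :
    HasDerivAt (fun t => ∫ z, G t z) (∫ z, G' t₀ z) t₀ := by
  obtain ⟨r, hr, hrN⟩ := Metric.nhds_basis_closedBall.mem_iff.1 hN
  have htN : t₀ ∈ N := mem_of_mem_nhds hN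
  obtain ⟨bd, hbd, hle⟩ := param_bound (isCompact_closedBall t₀ r) hK
    (hG.mono (Set.prod_mono hrN le_rfl)) fun x hx => h0 x (hrN hx)
  obtain ⟨bd', hbd', hle'⟩ := param_bound (isCompact_closedBall t₀ r) hK
    (hG'.mono (Set.prod_mono hrN le_rfl)) fun x hx => h0' x (hrN hx)
  have hball : Metric.ball t₀ r ∈ 𝓝 t₀ := Metric.ball_mem_nhds t₀ hr
  refine (hasDerivAt_integral_of_dominated_loc_of_deriv_le (bound := bd') (F := G) (F' := G') hball
    ?_ ?_ ?_ ?_ hbd' ?_).2
  · filter_upwards [hN] with x hx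
    exact param_meas hK hG h0 hx
  · exact hbd.mono' (param_meas hK hG h0 htN)
      (Filter.Eventually.of_forall fun z => hle t₀ (Metric.mem_closedBall_self hr.le) z)
  · exact param_meas hK hG' h0' htN
  · exact Filter.Eventually.of_forall fun z t ht => hle' t (Metric.ball_subset_closedBall ht) z
  · refine Filter.Eventually.of_forall fun z t ht => ?_
    have htN' : t ∈ N := hrN (Metric.ball_subset_closedBall ht)
    by_cases hz : z ∈ K
    · exact hd t htN' z hz
    · rw [h0' t htN' z hz]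
      refine (hasDerivAt_const t (0 : ℂ)).congr_of_eventuallyEq ?_
      filter_upwards [Metric.isOpen_ball.mem_nhds ht] with s hs
      exact h0 s (hrN (Metric.ball_subset_closedBall hs)) z hz

end Pool.Agent.Lib.MP_7fdaab_ag.KP
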