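import Pool.Agent.Lib.MP_7fdaab_ag.KP.Rel
import Pool.Agent.Lib.MP_7fdaab_ag.KP.Param

/-!
hop_mod row Seg (120-160 lines): `D(u_l; f)^2 det S_l` is constant along segments.
PROOF.  `l_t = l₁ + t (l₂ - l₁)`, `l' = l₂ - l₁`.  The set of real `t` with `Test l_t f` (that is
`tsupport f ⊆ H l_t`) is open (compactness) and contains `[0,1]` (convexity: `l_t . y` is a convex
combination).  `S_t = SL M l_t = S_1 + t S'`, `u_t = ul M k l_t`.
(1) `t ↦ D(u_t; f)` has derivative `D(w_t; f)`, `w_t = -k (l'.phi) (l_t.phi)^(-k-1)` (`param_deriv`,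
`K = q⁻¹ (tsupport f)`; on `K`, `l_t . phi != 0` as its imaginary part is positive).
(2) `t ↦ det S_t` has derivative `tr (adj S_t * S')` (`hasDerivAt_det_line`).
(3) `v(z) = u_t(z) • (adj(S_t) S' z)` is holomorphic on `U M l_t`, Euler degree `1 - 2k = 1 - m`, and
`dv v = tr (adj S_t * S') u_t - k (l_t.phi)^(-k-1) * 2 (S_t z) . (adj(S_t) S' z)`, where
`(S_t z) . (adj(S_t) S' z) = z . (S_t adj(S_t) S' z) = det S_t (z . S' z) = det S_t (l'.phi)`
(symmetry, `mul_adjugate`).  So `dv v = tr(adj S_t S') u_t + 2 det S_t w_t`, and `lemma2`: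
`tr(adj S_t S') D(u_t;f) + 2 det S_t D(w_t;f) = 0`.
(4) `g(t) = D(u_t;f)^2 det S_t` has derivative `D(u_t;f) (2 det S_t D(w_t;f) + tr(adj S_t S') D(u_t;f))
= 0` on a neighbourhood of `[0,1]`: `g 0 = g 1` (`constant_of_has_deriv_right_zero` or
`is_const_of_deriv_eq_zero` style, convex set).
-/

namespace Pool.Agent.Lib.MP_7fdaab_ag.KP

open Matrix MeasureTheory

variable {m : ℕ}

/-- the point of the segment -/
private def seg_l (l₁ l₂ : V m) (t : ℝ) : V m := l₁ + t • (l₂ - l₁)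

private theorem seg_lphi (M : Sys m) (l₁ l₂ : V m) (t : ℝ) (z : E m) :
    lphi M (seg_l l₁ l₂ t) z = lphi M l₁ z + (t : ℂ) * lphi M (l₂ - l₁) z := by
  unfold lphi seg_l
  rw [Finset.mul_sum, ← Finset.sum_add_distrib]
  refine Finset.sum_congr rfl fun j _ => ?_
  simp only [Pi.add_apply, Pi.smul_apply, smul_eq_mul, Complex.ofReal_add, Complex.ofReal_mul]
  ring

private theorem seg_SL (M : Sys m) (l₁ l₂ : V m) (t : ℝ) :
    SL M (seg_l l₁ l₂ t) = SL M l₁ + (t : ℂ) • SL M (l₂ - l₁) := by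
  unfold SL seg_l
  rw [Finset.smul_sum, ← Finset.sum_add_distrib]
  refine Finset.sum_congr rfl fun j _ => ?_
  simp only [Pi.add_apply, Pi.smul_apply, smul_eq_mul, Complex.ofReal_add, Complex.ofReal_mul,
    add_smul, mul_smul]

private theorem seg_nhds {l₁ l₂ : V m} {f : V m → ℝ} {t₀ : ℝ} (h : Test (seg_l l₁ l₂ t₀) f) :
    ∀ᶠ t in nhds t₀, Test (seg_l l₁ l₂ t) f := by
  have h1 : ∀ᶠ t in nhds t₀, ∀ y ∈ tsupport f, 0 < ∑ j, seg_l l₁ l₂ t j * y j := by
    apply IsCompact.eventually_forall_of_forall_eventually (h.compact : IsCompact (tsupport f))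
    intro y hy
    have hcont : Continuous (fun x : ℝ × V m => ∑ j, seg_l l₁ l₂ x.1 j * x.2 j) := by
      unfold seg_l
      fun_prop
    have h2 : 0 < ∑ j, seg_l l₁ l₂ t₀ j * y j := h.supp hy
    exact hcont.continuousAt.eventually (lt_mem_nhds h2)
  filter_upwards [h1] with t ht
  exact ⟨h.smooth, h.compact, ht⟩

private theorem seg_conv {l₁ l₂ : V m} {f : V m → ℝ} (h1 : Test l₁ f) (h2 : Test l₂ f) {t : ℝ}
    (ht : t ∈ Set.Icc (0 : ℝ) 1) : Test (seg_l l₁ l₂ t) f := by
  refine ⟨h1.smooth, h1.compact, fun y hy => ?_⟩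
  have h3 : 0 < ∑ j, l₁ j * y j := h1.supp hy
  have h4 : 0 < ∑ j, l₂ j * y j := h2.supp hy
  have h5 : ∑ j, seg_l l₁ l₂ t j * y j = (1 - t) * ∑ j, l₁ j * y j + t * ∑ j, l₂ j * y j := by
    unfold seg_l
    rw [Finset.mul_sum, Finset.mul_sum, ← Finset.sum_add_distrib]
    refine Finset.sum_congr rfl fun j _ => ?_
    simp only [Pi.add_apply, Pi.smul_apply, Pi.sub_apply, smul_eq_mul]
    ring
  show 0 < ∑ j, seg_l l₁ l₂ t j * y j
  rw [h5]
  rcases eq_or_lt_of_le ht.1 with h | h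
  · rw [← h]
    simpa using h3
  · have h6 := mul_pos h h4
    have h7 := mul_nonneg (sub_nonneg.mpr ht.2) h3.le
    linarith

/-- the derivative of `ul` along the segment -/
private noncomputable def seg_w (M : Sys m) (k : ℕ) (l l' : V m) (z : E m) : ℂ :=
  -((k : ℂ) * lphi M l' z) * ((lphi M l z) ^ (k + 1))⁻¹

private theorem seg_pow (k : ℕ) {c : ℂ} (h : c ≠ 0) :
    HasDerivAt (fun s : ℂ => (s ^ k)⁻¹) (-(k : ℂ) * (c ^ (k + 1))⁻¹) c := by
  have h2 := (hasDerivAt_pow k c).inv (pow_ne_zero k h)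
  refine h2.congr_deriv ?_
  rcases k with _ | n
  · simp
  · simp only [Nat.add_sub_cancel]
    field_simp
    ring

private theorem seg_line {a b : ℂ} (k : ℕ) {t : ℝ} (h : a + (t : ℂ) * b ≠ 0) :
    HasDerivAt (fun s : ℝ => ((a + (s : ℂ) * b) ^ k)⁻¹)
      (-((k : ℂ) * b) * ((a + (t : ℂ) * b) ^ (k + 1))⁻¹) t := by
  have h1 : HasDerivAt (fun s : ℝ => a + (s : ℂ) * b) b t := by
    have h3 := (((hasDerivAt_id t).ofReal_comp).mul_const b).const_add a
    simpa using h3
  have h2 := (seg_pow k h).comp t h1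
  refine h2.congr_deriv ?_
  ring

private theorem seg_D (M : Sys m) (hM : Good M) (k : ℕ) {l₁ l₂ : V m} {f : V m → ℝ} {t₀ : ℝ}
    (h : Test (seg_l l₁ l₂ t₀) f) :
    HasDerivAt (fun t => D M (ul M k (seg_l l₁ l₂ t)) f)
      (D M (seg_w M k (seg_l l₁ l₂ t₀) (l₂ - l₁)) f) t₀ := by
  have hN := seg_nhds h
  have hK : IsCompact (q M ⁻¹' tsupport f) := isCompact_preimage M hM h.compact
  have hne : ∀ t, Test (seg_l l₁ l₂ t) f → ∀ z ∈ q M ⁻¹' tsupport f,
      lphi M (seg_l l₁ l₂ t) z ≠ 0 := fun t ht z hz => lphi_ne M _ z (ht.supp hz)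
  have hqc : Continuous (fun x : ℝ × E m => ((f (q M x.2) : ℝ) : ℂ) * wt M x.2) := by
    have h1 : Continuous (fun z : E m => ((f (q M z) : ℝ) : ℂ)) :=
      Complex.continuous_ofReal.comp (h.smooth.continuous.comp (q_contDiff M 0).continuous)
    exact (h1.mul (wt_continuous M)).comp continuous_snd
  have hlc : ∀ l : V m, Continuous (fun x : ℝ × E m => lphi M l x.2) := fun l =>
    (lphi_contDiff M l 0).continuous.comp continuous_snd
  have hsc : Continuous (fun x : ℝ × E m => lphi M (seg_l l₁ l₂ x.1) x.2) := by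
    simp only [seg_lphi]
    exact (hlc l₁).add ((Complex.continuous_ofReal.comp continuous_fst).mul (hlc _))
  have hz0 : ∀ z ∉ q M ⁻¹' tsupport f, f (q M z) = 0 := fun z hz =>
    image_eq_zero_of_notMem_tsupport hz
  refine param_deriv (N := {t | Test (seg_l l₁ l₂ t) f}) hN hK
    (G := fun t z => ((f (q M z) : ℝ) : ℂ) * wt M z * ul M k (seg_l l₁ l₂ t) z)
    (G' := fun t z => ((f (q M z) : ℝ) : ℂ) * wt M z * seg_w M k (seg_l l₁ l₂ t) (l₂ - l₁) z)
    ?_ ?_ ?_ ?_ ?_
  · refine ContinuousOn.mul hqc.continuousOn (ContinuousOn.inv₀ (hsc.pow k).continuousOn ?_)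
    rintro ⟨t, z⟩ ⟨ht, hz⟩
    exact pow_ne_zero _ (hne t ht z hz)
  · refine ContinuousOn.mul hqc.continuousOn (ContinuousOn.mul ?_
      (ContinuousOn.inv₀ (hsc.pow (k + 1)).continuousOn ?_))
    · exact (continuous_const.mul (hlc _)).neg.continuousOn
    · rintro ⟨t, z⟩ ⟨ht, hz⟩
      exact pow_ne_zero _ (hne t ht z hz)
  · intro t _ z hz
    simp only [hz0 z hz, Complex.ofReal_zero, zero_mul]
  · intro t _ z hz
    simp only [hz0 z hz, Complex.ofReal_zero, zero_mul]
  · intro t ht z hz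
    refine HasDerivAt.const_mul _ ?_
    have h1 := hne t ht z hz
    rw [seg_lphi] at h1
    have h2 := seg_line k h1
    unfold ul seg_w
    simp only [seg_lphi]
    exact h2

private theorem seg_ul (M : Sys m) (k : ℕ) (l : V m) {z : E m} (hz : z ∈ U M l) :
    HasFDerivAt (ul M k l)
      ((-(k : ℂ) * ((lphi M l z) ^ (k + 1))⁻¹) • fderiv ℂ (fun z => lphi M l z) z) z := by
  have h1 : HasFDerivAt (fun z => lphi M l z) (fderiv ℂ (fun z => lphi M l z) z) z :=
    ((lphi_contDiff M l 1).differentiable one_ne_zero z).hasFDerivAt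
  exact (seg_pow k (lphi_ne M l z hz)).comp_hasFDerivAt z h1

private theorem seg_v (M : Sys m) (hM : ∀ j, (M j).IsSymm) (k : ℕ) (l : V m)
    (B : Matrix (Fin m) (Fin m) ℂ) {z : E m} (hz : z ∈ U M l) (w : E m) :
    fderiv ℂ (fun z => ul M k l z • B.mulVec z) z w = ul M k l z • B.mulVec w +
      ((-(k : ℂ) * ((lphi M l z) ^ (k + 1))⁻¹) * (2 * ((SL M l).mulVec z ⬝ᵥ w))) •
        B.mulVec z := by
  have h1 : HasFDerivAt (fun z : E m => B.mulVec z)
      (LinearMap.toContinuousLinearMap (Matrix.mulVecLin B)) z :=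
    (LinearMap.toContinuousLinearMap (Matrix.mulVecLin B)).hasFDerivAt
  have h2 := (seg_ul M k l hz).fun_smul h1
  rw [h2.fderiv]
  simp only [_root_.add_apply, ContinuousLinearMap.smulRight_apply, _root_.smul_apply,
    LinearMap.coe_toContinuousLinearMap', Matrix.mulVecLin_apply, smul_eq_mul,
    fderiv_lphi M l hM]

private theorem seg_hol (M : Sys m) (k : ℕ) (l : V m) : Hol M l (ul M k l) := by
  intro z hz
  exact (((lphi_contDiff M l 1).contDiffAt).pow k).inv (pow_ne_zero _ (lphi_ne M l z hz))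

private theorem seg_hol' (M : Sys m) (k : ℕ) (l l' : V m) : Hol M l (seg_w M k l l') := by
  intro z hz
  refine ContDiffAt.mul (contDiffAt_const.mul (lphi_contDiff M l' 1).contDiffAt).neg ?_
  exact (((lphi_contDiff M l 1).contDiffAt).pow (k + 1)).inv (pow_ne_zero _ (lphi_ne M l z hz))

/-- the identity of step (3) -/
private theorem seg_key (M : Sys m) (hM : Good M) (k : ℕ) (hk : m = 2 * k) {l : V m} (l' : V m)
    {f : V m → ℝ} (h : Test l f) :
    ((SL M l).adjugate * SL M l').trace * D M (ul M k l) f +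
      2 * (SL M l).det * D M (seg_w M k l l') f = 0 := by
  set B : Matrix (Fin m) (Fin m) ℂ := (SL M l).adjugate * SL M l' with hB
  have hv : Hol M l (fun z => ul M k l z • B.mulVec z) := by
    intro z hz
    refine ContDiffAt.smul (seg_hol M k l z hz) ?_
    exact (LinearMap.toContinuousLinearMap (Matrix.mulVecLin B)).contDiff.contDiffAt
  have hne : ∀ z ∈ U M l, lphi M l z ≠ 0 := fun z hz => lphi_ne M l z hz
  have hd : Hom M l (1 - (m : ℤ)) (fun z => ul M k l z • B.mulVec z) := by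
    intro z hz
    rw [seg_v M hM.1 k l B hz z, dotProduct_comm, ← lphi_eq, smul_smul, ← add_smul]
    congr 1
    have h1 := hne z hz
    have h2 : (m : ℂ) = 2 * (k : ℂ) := by exact_mod_cast congrArg (Nat.cast : ℕ → ℂ) hk
    unfold ul
    push_cast
    rw [h2]
    field_simp
    ring
  have h3 := lemma2 M hM h hv hd
  have h4 : ∀ z ∈ U M l, dv (fun z => ul M k l z • B.mulVec z) z =
      B.trace * ul M k l z + 2 * (SL M l).det * seg_w M k l l' z := by
    intro z hz
    have h5 : (SL M l).mulVec z ⬝ᵥ B.mulVec z = (SL M l).det * lphi M l' z := by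
      have h6 : (SL M l).mulVec z = z ᵥ* SL M l := by
        rw [← Matrix.mulVec_transpose, (SL_isSymm M hM.1 l).eq]
      rw [h6, ← Matrix.dotProduct_mulVec, Matrix.mulVec_mulVec, hB, ← Matrix.mul_assoc,
        Matrix.mul_adjugate, Matrix.smul_mul, Matrix.one_mul, Matrix.smul_mulVec,
        dotProduct_smul, smul_eq_mul, lphi_eq]
    have h7 : ∑ i, (SL M l).mulVec z ⬝ᵥ (Pi.single i 1 : E m) * (B.mulVec z) i =
        (SL M l).mulVec z ⬝ᵥ B.mulVec z := by
      simp only [dotProduct_single, mul_one]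
      rfl
    have h8 : ∑ i, (B.mulVec (Pi.single i 1 : E m)) i = B.trace := by
      refine Finset.sum_congr rfl fun i _ => ?_
      rw [Matrix.mulVec_single_one]
      rfl
    unfold dv
    simp only [seg_v M hM.1 k l B hz, Pi.add_apply, Pi.smul_apply, smul_eq_mul]
    rw [Finset.sum_add_distrib, ← Finset.mul_sum, h8]
    have h9 : ∑ i, (-(k : ℂ) * ((lphi M l z) ^ (k + 1))⁻¹) *
        (2 * ((SL M l).mulVec z ⬝ᵥ (Pi.single i 1 : E m))) * (B.mulVec z) i =
        (-(k : ℂ) * ((lphi M l z) ^ (k + 1))⁻¹) * 2 * ((SL M l).mulVec z ⬝ᵥ B.mulVec z) := by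
      rw [← h7, Finset.mul_sum]
      refine Finset.sum_congr rfl fun i _ => ?_
      ring
    rw [h9, h5]
    unfold seg_w
    ring
  have i1 := integrable_nice M hM h.ctest (w := fun z => wt M z * ul M k l z)
    ((wt_continuous M).continuousOn.mul (seg_hol M k l).continuousOn)
  have i2 := integrable_nice M hM h.ctest (w := fun z => wt M z * seg_w M k l l' z)
    ((wt_continuous M).continuousOn.mul (seg_hol' M k l l').continuousOn)
  rw [← h3]
  unfold D
  rw [← integral_const_mul, ← integral_const_mul, ← integral_add]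
  · refine integral_congr_ae (Filter.Eventually.of_forall fun z => ?_)
    by_cases hz : z ∈ U M l
    · simp only [h4 z hz]
      ring
    · have h0 : f (q M z) = 0 := image_eq_zero_of_notMem_tsupport fun hq => hz (h.supp hq)
      simp only [h0, Complex.ofReal_zero, zero_mul, mul_zero, add_zero]
  · simpa only [mul_assoc] using i1.const_mul (B.trace)
  · simpa only [mul_assoc] using i2.const_mul (2 * (SL M l).det)

private theorem seg_deriv (M : Sys m) (hM : Good M) (k : ℕ) (hk : m = 2 * k) {l₁ l₂ : V m}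
    {f : V m → ℝ} {t₀ : ℝ} (h : Test (seg_l l₁ l₂ t₀) f) :
    HasDerivAt (fun t => (D M (ul M k (seg_l l₁ l₂ t)) f) ^ 2 * (SL M (seg_l l₁ l₂ t)).det)
      0 t₀ := by
  have h1 := seg_D M hM k h
  have h2 : HasDerivAt (fun t : ℝ => (SL M (seg_l l₁ l₂ t)).det)
      (((SL M (seg_l l₁ l₂ t₀)).adjugate * SL M (l₂ - l₁)).trace) t₀ := by
    have h3 := hasDerivAt_det_line (SL M l₁) (SL M (l₂ - l₁)) t₀
    simp only [seg_SL]
    exact h3
  have h4 := (h1.fun_pow 2).fun_mul h2
  refine h4.congr_deriv ?_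
  have h5 := seg_key M hM k hk (l₂ - l₁) h
  push_cast
  linear_combination (D M (ul M k (seg_l l₁ l₂ t₀)) f) * h5

theorem seg (M : Sys m) (hM : Good M) (k : ℕ) (hk : m = 2 * k) {l₁ l₂ : V m} {f : V m → ℝ}
    (h1 : Test l₁ f) (h2 : Test l₂ f) :
    (D M (ul M k l₁) f) ^ 2 * (SL M l₁).det = (D M (ul M k l₂) f) ^ 2 * (SL M l₂).det := by
  have h3 := constant_of_has_deriv_right_zero (a := (0 : ℝ)) (b := 1)
    (f := fun t => (D M (ul M k (seg_l l₁ l₂ t)) f) ^ 2 * (SL M (seg_l l₁ l₂ t)).det)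
    (fun t ht => (seg_deriv M hM k hk (seg_conv h1 h2 ht)).continuousAt.continuousWithinAt)
    (fun t ht => (seg_deriv M hM k hk
      (seg_conv h1 h2 (Set.Ico_subset_Icc_self ht))).hasDerivWithinAt)
    1 (Set.right_mem_Icc.mpr zero_le_one)
  have e0 : seg_l l₁ l₂ 0 = l₁ := by
    unfold seg_l
    rw [zero_smul, add_zero]
  have e1 : seg_l l₁ l₂ 1 = l₂ := by
    unfold seg_l
    rw [one_smul, add_sub_cancel]
  simp only [e0, e1] at h3
  exact h3.symm

end Pool.Agent.Lib.MP_7fdaab_ag.KP
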