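import Pool.Agent.Lib.MP_7fdaab_ag.KP.Trans
import Pool.Agent.Lib.MP_7fdaab_ag.KP.Seg

/-!
hop_mod row Cfun: the function `C(l)`.
PROOF.  For every `l`, `ul M k l` is holomorphic on `U M l` (`ul_hol`, as `lphi` does not vanish
there) and has Euler degree `-2k = -m` (`ul_hom`: `(l.phi)'(z) z = 2 l.phi`), so by `lemma1` and
`exists_const` there is `C l` with `D(ul; f) = C l * int f` for all `Test l f`.
Continuity at `l₁ != 0` (`D_cont`): take `y = l₁` in `H l₁`, `f` = `exists_test` at `y`; `tsupport f`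
is compact in `H l₁`, so for `l` near `l₁` also `Test l f` (`near_H`: the set of `l` with
`tsupport f ⊆ H l` is a neighbourhood), and `C l = D(ul M k l; f) / int f`; `param_cont` with
`K = q⁻¹ (tsupport f)` (`l.phi != 0` on `K`).
`C (-l) = (-1)^(k+1) C l` (`D_neg`): substitute `z ↦ I z`, which preserves the measure (`int_I`: a
rotation on each coordinate): for `Test l f` put `f'(y) = f(-y)`, `Test (-l) f'`, `int f' = int f`;
`D(ul (-l); f') = int f(-q z) wt(z) ((-l).phi z)^(-k)`; with `z = I w`: `q z = - q w`,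
`wt z = (-1)^(k+1) wt w` (`wt_I_smul`), `(-l).phi (I w) = l.phi w`.
`C l^2 det S_l = kappa`, the value at `l0`: if `l 0 >= 0`, the point `y = l0 + l` is in both half
spaces, `exists_test` gives `f` with support in a small ball inside both, and `seg` applies.  If
`l 0 < 0`, use `-l`: `C(-l)^2 = C(l)^2` and `det S_(-l) = det (- S_l) = det S_l` as `m = 2 k`.
-/

namespace Pool.Agent.Lib.MP_7fdaab_ag.KP

open Matrix MeasureTheory Topology

variable {m : ℕ}

/-- `ul M k l` is holomorphic on `U M l` -/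
private theorem ul_hol (M : Sys m) (k : ℕ) (l : V m) : Hol M l (ul M k l) := by
  intro z hz
  have h1 : ContDiffAt ℂ 1 (fun z => lphi M l z) z := (lphi_contDiff M l 1).contDiffAt
  have h2 : (lphi M l z) ^ k ≠ 0 := pow_ne_zero _ (lphi_ne M l z hz)
  exact (h1.pow k).inv h2

/-- `ul M k l` has Euler degree `-m` when `m = 2 k` -/
private theorem ul_hom (M : Sys m) (hM : ∀ j, (M j).IsSymm) (k : ℕ) (hk : m = 2 * k) (l : V m) :
    Hom M l (-(m : ℤ)) (ul M k l) := by
  intro z hz
  have hne := lphi_ne M l z hz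
  have hd : DifferentiableAt ℂ (fun z => lphi M l z) z :=
    ((lphi_contDiff M l 1).contDiffAt).differentiableAt (by norm_num)
  have h1 : HasFDerivAt (fun z => lphi M l z) (fderiv ℂ (fun z => lphi M l z) z) z :=
    hd.hasFDerivAt
  have h2 : HasDerivAt (fun w : ℂ => (w ^ k)⁻¹)
      (-((k : ℂ) * (lphi M l z) ^ (k - 1)) / ((lphi M l z) ^ k) ^ 2) (lphi M l z) :=
    (hasDerivAt_pow k (lphi M l z)).fun_inv (pow_ne_zero _ hne)
  have h3 : HasFDerivAt (ul M k l)
      ((-((k : ℂ) * (lphi M l z) ^ (k - 1)) / ((lphi M l z) ^ k) ^ 2) •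
        fderiv ℂ (fun z => lphi M l z) z) z := h2.comp_hasFDerivAt z h1
  rw [h3.fderiv]
  simp only [_root_.smul_apply, smul_eq_mul]
  rw [fderiv_lphi M l hM z z, dotProduct_comm, ← lphi_eq]
  unfold ul
  subst hk
  cases k with
  | zero => simp
  | succ n =>
    simp only [Nat.add_sub_cancel]
    push_cast
    field_simp
    ring

/-- a compact set inside `H l₁` is inside `H l` for `l` near `l₁` -/
private theorem near_H {l₁ : V m} {K : Set (V m)} (hK : IsCompact K) (hs : K ⊆ H l₁) :
    {l : V m | K ⊆ H l} ∈ 𝓝 l₁ := by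
  have h : ∀ᶠ l in 𝓝 l₁, ∀ y ∈ K, 0 < ∑ j, l j * y j := by
    refine hK.eventually_forall_of_forall_eventually ?_
    intro y hy
    have hc : Continuous (fun p : V m × V m => ∑ j, p.1 j * p.2 j) := by fun_prop
    exact hc.continuousAt.eventually (lt_mem_nhds (hs hy))
  exact h

/-- continuity in `l` of the pairing with a fixed test function -/
private theorem D_cont (M : Sys m) (hM : Good M) (k : ℕ) {l₁ : V m} {f : V m → ℝ}
    (hf : Test l₁ f) : ContinuousAt (fun l => D M (ul M k l) f) l₁ := by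
  have hN := near_H hf.compact hf.supp
  refine param_cont (K := q M ⁻¹' tsupport f) hN (isCompact_preimage M hM hf.compact) ?_ ?_
  · have hl : Continuous (fun p : V m × E m => lphi M p.1 p.2) := by
      have : ∀ j, Continuous (fun z : E m => phi M z j) := fun j =>
        (phi_contDiff M j 0).continuous
      unfold lphi
      fun_prop
    have hw : Continuous (fun p : V m × E m => wt M p.2) := (wt_continuous M).comp continuous_snd
    have hq : Continuous (fun p : V m × E m => ((f (q M p.2) : ℝ) : ℂ)) :=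
      Complex.continuous_ofReal.comp (hf.smooth.continuous.comp
        ((q_contDiff M 0).continuous.comp continuous_snd))
    refine ContinuousOn.mul (hq.mul hw).continuousOn ?_
    refine ContinuousOn.inv₀ (hl.pow k).continuousOn ?_
    rintro ⟨l, z⟩ ⟨h1, h2⟩
    exact pow_ne_zero _ (lphi_ne M l z (h1 h2))
  · intro l _ z hz
    have : f (q M z) = 0 := image_eq_zero_of_notMem_tsupport hz
    simp [this]

/-- the substitution `z ↦ I z` -/
private theorem int_I (g : E m → ℂ) : ∫ z : E m, g (Complex.I • z) = ∫ z : E m, g z := by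
  have h1 : MeasurePreserving (fun w : ℂ => Complex.I * w) := by
    have h := (rotation (⟨Complex.I, by simp [Submonoid.unitSphere]⟩ : Circle)).measurePreserving
    have e : (fun w : ℂ => Complex.I * w) =
        (rotation (⟨Complex.I, by simp [Submonoid.unitSphere]⟩ : Circle)) := by
      funext w
      rfl
    rw [e]
    exact h
  have h2 : MeasurePreserving (fun z : E m => Complex.I • z) :=
    volume_preserving_pi (fun _ : Fin m => h1)
  exact h2.integral_comp
    (Homeomorph.smulOfNeZero (α := E m) Complex.I Complex.I_ne_zero).measurableEmbedding g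

/-- the reflected test function -/
private theorem test_neg {l : V m} {f : V m → ℝ} (hf : Test l f) :
    Test (-l) (fun y => f (-y)) := by
  have hs : tsupport (fun y => f (-y)) = (fun y : V m => -y) ⁻¹' tsupport f :=
    (tsupport_comp_eq_preimage f (Homeomorph.neg (V m)))
  refine ⟨hf.smooth.comp contDiff_neg, ?_, ?_⟩
  · exact hf.compact.comp_homeomorph (Homeomorph.neg (V m))
  · rw [hs]
    intro y hy
    have := hf.supp hy
    simpa [H] using this

/-- the pairing for `-l` -/
private theorem D_neg (M : Sys m) (k : ℕ) (hk : m = 2 * k) (l : V m) (f : V m → ℝ) :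
    D M (ul M k (-l)) (fun y => f (-y)) = (-1) ^ (k + 1) * D M (ul M k l) f := by
  unfold D
  rw [← int_I, ← integral_const_mul]
  congr 1
  funext z
  have h1 : lphi M (-l) (Complex.I • z) = lphi M l z := by
    unfold lphi
    refine Finset.sum_congr rfl fun j _ => ?_
    rw [phi_smul]
    simp
  rw [q_I_smul, wt_I_smul M k hk]
  simp only [neg_neg]
  unfold ul
  rw [h1]
  ring

/-- two half spaces with a common point -/
private theorem C_eq (M : Sys m) (hM : Good M) (k : ℕ) (hk : m = 2 * k) {C : V m → ℂ}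
    (hC : ∀ (l : V m) (f : V m → ℝ), Test l f →
      D M (ul M k l) f = C l * ((∫ y, f y : ℝ) : ℂ)) {l₁ l₂ y : V m}
    (h1 : y ∈ H l₁) (h2 : y ∈ H l₂) :
    (C l₁) ^ 2 * (SL M l₁).det = (C l₂) ^ 2 * (SL M l₂).det := by
  obtain ⟨r, hr, hsub⟩ := Metric.nhds_basis_closedBall.mem_iff.1 ((isOpen_H l₂).mem_nhds h2)
  obtain ⟨f, hf, _, _, hs, hpos⟩ := exists_test h1 hr
  have hf2 : Test l₂ f := ⟨hf.smooth, hf.compact, hs.trans hsub⟩
  have h := seg M hM k hk hf hf2
  rw [hC l₁ f hf, hC l₂ f hf2] at h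
  have hne : ((∫ y, f y : ℝ) : ℂ) ^ 2 ≠ 0 := pow_ne_zero _ (by exact_mod_cast hpos.ne')
  apply mul_left_cancel₀ hne
  linear_combination h

private theorem pos_self {l : V m} (hl : l ≠ 0) : 0 < ∑ j, l j * l j := by
  obtain ⟨j, hj⟩ := Function.ne_iff.1 hl
  exact Finset.sum_pos' (fun i _ => mul_self_nonneg _) ⟨j, Finset.mem_univ _, mul_self_pos.2 hj⟩

theorem exists_C (M : Sys m) (hM : Good M) (k : ℕ) (hk : m = 2 * k) (hm : 1 ≤ m) :
    ∃ (C : V m → ℂ) (κ : ℂ), ContinuousOn C {0}ᶜ ∧
      (∀ l : V m, l ≠ 0 → C (-l) = (-1) ^ (k + 1) * C l) ∧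
      (∀ l : V m, l ≠ 0 → (C l) ^ 2 * (SL M l).det = κ) ∧
      (∀ (l : V m) (f : V m → ℝ), l ≠ 0 → Test l f →
        D M (ul M k l) f = C l * ((∫ y, f y : ℝ) : ℂ)) := by
  have hex : ∀ l : V m, ∃ c : ℂ, ∀ f : V m → ℝ, Test l f →
      D M (ul M k l) f = c * ((∫ y, f y : ℝ) : ℂ) := fun l =>
    exists_const M hM (ul_hol M k l).continuousOn fun f hf i =>
      lemma1 M hM hf (ul_hol M k l) (ul_hom M hM.1 k hk l) i
  choose C hC using hex
  have hneg : ∀ l : V m, l ≠ 0 → C (-l) = (-1) ^ (k + 1) * C l := by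
    intro l hl
    obtain ⟨f, hf, _, _, _, hpos⟩ := exists_test (l := l) (y := l) (pos_self hl) one_pos
    have h1 := hC (-l) _ (test_neg hf)
    rw [D_neg M k hk, hC l f hf, integral_neg_eq_self (fun y : V m => f y)] at h1
    have hne : ((∫ y, f y : ℝ) : ℂ) ≠ 0 := by exact_mod_cast hpos.ne'
    apply mul_right_cancel₀ hne
    linear_combination -h1
  refine ⟨C, (C l0) ^ 2 * (SL M l0).det, ?_, hneg, ?_, fun l f _ hf => hC l f hf⟩
  · intro l₁ hl₁
    have hl : l₁ ≠ 0 := by simpa using hl₁
    obtain ⟨f, hf, _, _, _, hpos⟩ := exists_test (l := l₁) (y := l₁) (pos_self hl) one_pos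
    have hne : ((∫ y, f y : ℝ) : ℂ) ≠ 0 := by exact_mod_cast hpos.ne'
    have hc : ContinuousAt (fun l => D M (ul M k l) f / ((∫ y, f y : ℝ) : ℂ)) l₁ :=
      (D_cont M hM k hf).div_const _
    refine (hc.congr ?_).continuousWithinAt
    filter_upwards [near_H hf.compact hf.supp] with l hl
    rw [hC l f ⟨hf.smooth, hf.compact, hl⟩]
    field_simp
  · have key : ∀ l : V m, l ≠ 0 → 0 ≤ l 0 →
        (C l) ^ 2 * (SL M l).det = (C l0) ^ 2 * (SL M l0).det := by
      intro l hl h0
      refine C_eq M hM k hk hC (y := (l0 + l : V m)) ?_ ?_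
      · have e : ∑ j, l j * (l0 + l : V m) j = l 0 + ∑ j, l j * l j := by
          simp [l0, mul_add, Finset.sum_add_distrib, Pi.single_apply]
        have := pos_self hl
        simp only [H, Set.mem_ofPred_eq]
        rw [e]
        linarith
      · have e : ∑ j, (l0 : V m) j * (l0 + l : V m) j = 1 + l 0 := by
          simp [l0, mul_add, Finset.sum_add_distrib, Pi.single_apply]
        simp only [H, Set.mem_ofPred_eq]
        rw [e]
        linarith
    intro l hl
    rcases le_or_gt 0 (l 0) with h0 | h0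
    · exact key l hl h0
    · have h1 := key (-l) (neg_ne_zero.2 hl) (by simp only [Pi.neg_apply]; linarith)
      have e : SL M (-l) = - SL M l := by
        simp [SL, Finset.sum_neg_distrib]
      have hp : ((-1 : ℂ) ^ (k + 1)) ^ 2 = 1 := by
        rw [← pow_mul, mul_comm, pow_mul]; norm_num
      have hp2 : (-1 : ℂ) ^ m = 1 := by
        rw [hk, pow_mul]; norm_num
      rw [hneg l hl, e, det_neg, Fintype.card_fin, hp2, mul_pow, hp] at h1
      linear_combination h1

end Pool.Agent.Lib.MP_7fdaab_ag.KP
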