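import Mathlib

/-!
MP_7fdaab_ag, campaign hop: definitions shared by all rows.

A system is `M : Sys m`, i.e. `m + 1` complex `m x m` matrices; `phi M z j = z^T M_j z`,
`q M z j = Im (phi M z j)`.  `Good M`: all `M_j` symmetric and `q M z = 0` only for `z = 0`.
`SL M l = sum_j l_j M_j`, `lphi M l z = sum_j l_j phi_j(z) = z^T (SL M l) z`.
`A M z a` is the `(m+1) x (m+1)` matrix with columns `a, rho_1, .., rho_m` where
`rho_k (j) = (M_j z)_k`; `P M z a = det (A M z a)`; `X M a b z k` is the Cramer field.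
`wt M z = sum_j phi_j conj (P M z e_j)`; `D M u f = int f(q z) wt(z) u(z) dz`.
-/

namespace Pool.Agent.Lib.MP_7fdaab_ag.KP

open Matrix MeasureTheory

/-- the complex space `C^m` -/
abbrev E (m : ℕ) : Type := Fin m → ℂ

/-- the real space `R^(m+1)` of values -/
abbrev V (m : ℕ) : Type := Fin (m + 1) → ℝ

/-- a system of `m + 1` square matrices of size `m` -/
abbrev Sys (m : ℕ) : Type := Fin (m + 1) → Matrix (Fin m) (Fin m) ℂ

variable {m : ℕ}

/-- the values of the `m + 1` quadratic forms -/
def phi (M : Sys m) (z : E m) (j : Fin (m + 1)) : ℂ := z ⬝ᵥ (M j).mulVec z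

/-- the imaginary parts of the values -/
def q (M : Sys m) (z : E m) : V m := fun j => (phi M z j).im

/-- symmetric matrices and no nonzero real value -/
def Good (M : Sys m) : Prop := (∀ j, (M j).IsSymm) ∧ ∀ z : E m, q M z = 0 → z = 0

/-- the real combination of the matrices -/
def SL (M : Sys m) (l : V m) : Matrix (Fin m) (Fin m) ℂ := ∑ j, ((l j : ℝ) : ℂ) • M j

/-- the real combination of the forms -/
def lphi (M : Sys m) (l : V m) (z : E m) : ℂ := ∑ j, ((l j : ℝ) : ℂ) * phi M z j

/-- open half space of the space of values -/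
def H (l : V m) : Set (V m) := {y | 0 < ∑ j, l j * y j}

/-- its preimage under `q` -/
def U (M : Sys m) (l : V m) : Set (E m) := {z | q M z ∈ H l}

/-- a real vector seen as a complex one -/
def toC (y : V m) : Fin (m + 1) → ℂ := fun j => ((y j : ℝ) : ℂ)

/-- the matrix with columns `a, rho_1, .., rho_m` -/
def A (M : Sys m) (z : E m) (a : Fin (m + 1) → ℂ) :
    Matrix (Fin (m + 1)) (Fin (m + 1)) ℂ :=
  Matrix.of fun j c => (Fin.cons (a j) ((M j).mulVec z) : Fin (m + 1) → ℂ) c

/-- the determinant of `A` -/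
def P (M : Sys m) (z : E m) (a : Fin (m + 1) → ℂ) : ℂ := (A M z a).det

/-- the unit vector `e_j` of `C^(m+1)` -/
def ej (j : Fin (m + 1)) : Fin (m + 1) → ℂ := Pi.single j 1

/-- the Cramer vector field -/
def X (M : Sys m) (a b : Fin (m + 1) → ℂ) (z : E m) : E m :=
  fun k => (A M z a).cramer b k.succ

/-- the weight `sum_j phi_j conj (P e_j)` -/
noncomputable def wt (M : Sys m) (z : E m) : ℂ :=
  ∑ j, phi M z j * (starRingEnd ℂ) (P M z (ej j))

/-- complex divergence of a vector field -/
noncomputable def dv (v : E m → E m) (z : E m) : ℂ :=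
  ∑ k, (fderiv ℂ v z (Pi.single k 1)) k

/-- partial derivative of a real function of the values -/
noncomputable def pd (i : Fin (m + 1)) (f : V m → ℝ) : V m → ℝ :=
  fun y => fderiv ℝ f y (Pi.single i 1)

/-- continuous functions with compact support inside `H l` -/
structure CTest (l : V m) (f : V m → ℝ) : Prop where
  cont : Continuous f
  compact : HasCompactSupport f
  supp : tsupport f ⊆ H l

/-- smooth functions with compact support inside `H l` -/
structure Test (l : V m) (f : V m → ℝ) : Prop where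
  smooth : ContDiff ℝ (⊤ : ℕ∞) f
  compact : HasCompactSupport f
  supp : tsupport f ⊆ H l

/-- holomorphic (`C^1`) functions on `U M l` -/
def Hol {F : Type} [NormedAddCommGroup F] [NormedSpace ℂ F] (M : Sys m) (l : V m)
    (u : E m → F) : Prop := ∀ z ∈ U M l, ContDiffAt ℂ 1 u z

/-- Euler identity of degree `d` on `U M l` (scalar or vector valued) -/
def Hom {F : Type} [NormedAddCommGroup F] [NormedSpace ℂ F] (M : Sys m) (l : V m) (d : ℤ)
    (u : E m → F) : Prop := ∀ z ∈ U M l, fderiv ℂ u z z = (d : ℂ) • u z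

/-- the pairing `D(u; f)` -/
noncomputable def D (M : Sys m) (u : E m → ℂ) (f : V m → ℝ) : ℂ :=
  ∫ z : E m, ((f (q M z) : ℝ) : ℂ) * wt M z * u z

/-- the covector `e_0` -/
def l0 : V m := Pi.single 0 1

/-- the function `sum_{j >= 1} (phi_j / phi_0 - q_j / q_0)^2` -/
noncomputable def s0 (M : Sys m) (z : E m) : ℂ :=
  ∑ j : Fin m, (phi M z j.succ / phi M z 0 - ((q M z j.succ / q M z 0 : ℝ) : ℂ)) ^ 2

/-- the power `(l . phi)^(-k)` -/
noncomputable def ul (M : Sys m) (k : ℕ) (l : V m) (z : E m) : ℂ := ((lphi M l z) ^ k)⁻¹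

/-- homogeneous polynomials of degree `d` -/
inductive HP {m : ℕ} : ℕ → (E m → ℂ) → Prop
  | zero (d : ℕ) : HP d (fun _ => 0)
  | const (c : ℂ) : HP 0 (fun _ => c)
  | coord {d : ℕ} {g : E m → ℂ} (i : Fin m) (hg : HP d g) : HP (d + 1) (fun z => z i * g z)
  | add {d : ℕ} {g h : E m → ℂ} (hg : HP d g) (hh : HP d h) : HP d (fun z => g z + h z)

end Pool.Agent.Lib.MP_7fdaab_ag.KP
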