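import Mathlib

/-!
hop_mod row DetD (40-80 lines).  Derivative of a determinant, and Jacobi's formula.
PROOF.  `det_apply`: `det B = sum_s sign s prod_k B (s k) k`; product rule
(`HasDerivAt.finset_prod` / `HasFDerivAt.finset_prod`); the `k`-th term of the derivative is the
determinant of `B` with its column `k` replaced by the derivative column (again `det_apply`,
`Finset.prod_update..` / split off the factor `k`).  The `HasFDerivAt` version is the same.
Jacobi: `det (updateCol B k c) = cramer B c k = (adjugate B).mulVec c k` (`cramer_apply`,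
`cramer_eq_adjugate_mulVec`), then sum over `k` = trace of `adjugate B * B'`.
-/

namespace Pool.Agent.Lib.MP_7fdaab_ag.KP

open Matrix

private theorem detD_updateCol {n : ℕ} (B : Matrix (Fin n) (Fin n) ℂ) (k : Fin n) (c : Fin n → ℂ) :
    (B.updateCol k c).det = ∑ s : Equiv.Perm (Fin n), ((Equiv.Perm.sign s : ℤ) : ℂ) *
      ((∏ j ∈ Finset.univ.erase k, B (s j) j) * c (s k)) := by
  rw [Matrix.det_apply']
  refine Finset.sum_congr rfl (fun s _ => ?_)
  congr 1
  rw [← Finset.prod_erase_mul (Finset.univ) _ (Finset.mem_univ k)]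
  congr 1
  · refine Finset.prod_congr rfl (fun j hj => ?_)
    rw [Matrix.updateCol_apply, if_neg (Finset.ne_of_mem_erase hj)]
  · rw [Matrix.updateCol_apply, if_pos rfl]

theorem hasFDerivAt_det {𝕜 : Type} [NontriviallyNormedField 𝕜] [NormedAlgebra 𝕜 ℂ]
    {F : Type} [NormedAddCommGroup F] [NormedSpace 𝕜 F] {n : ℕ}
    {B : F → Matrix (Fin n) (Fin n) ℂ} {B' : F → Matrix (Fin n) (Fin n) ℂ} {z : F}
    (hd : ∀ i j, DifferentiableAt 𝕜 (fun s => B s i j) z)
    (h : ∀ i j v, fderiv 𝕜 (fun s => B s i j) z v = B' v i j) :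
    DifferentiableAt 𝕜 (fun s => (B s).det) z ∧ ∀ v : F,
      fderiv 𝕜 (fun s => (B s).det) z v =
        ∑ k, ((B z).updateCol k (fun i => B' v i k)).det := by
  have h1 : HasFDerivAt (fun s => (B s).det) (∑ σ : Equiv.Perm (Fin n), ((Equiv.Perm.sign σ : ℤ) : ℂ) •
      ∑ k, (∏ j ∈ Finset.univ.erase k, B z (σ j) j) • fderiv 𝕜 (fun s => B s (σ k) k) z) z := by
    have h2 : (fun s => (B s).det) = fun s => ∑ σ : Equiv.Perm (Fin n), ((Equiv.Perm.sign σ : ℤ) : ℂ) *
        ∏ k, B s (σ k) k := by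
      funext s
      rw [Matrix.det_apply']
    rw [h2]
    refine HasFDerivAt.fun_sum (fun σ _ => ?_)
    refine HasFDerivAt.const_mul ?_ _
    exact HasFDerivAt.finset_prod (fun k _ => (hd (σ k) k).hasFDerivAt)
  refine ⟨h1.differentiableAt, fun v => ?_⟩
  rw [h1.fderiv]
  simp only [detD_updateCol]
  rw [Finset.sum_comm]
  simp only [ContinuousLinearMap.sum_apply, ContinuousLinearMap.smul_apply, smul_eq_mul, h, Finset.mul_sum]

theorem sum_det_updateCol {n : ℕ} (B B' : Matrix (Fin n) (Fin n) ℂ) :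
    ∑ k, (B.updateCol k (fun i => B' i k)).det = (B.adjugate * B').trace := by
  rw [Matrix.trace]
  refine Finset.sum_congr rfl (fun k _ => ?_)
  rw [← Matrix.cramer_apply, Matrix.cramer_eq_adjugate_mulVec, Matrix.diag_apply, Matrix.mul_apply]
  rfl

/-- derivative of `det (S + t T)` in the real variable `t` -/
theorem hasDerivAt_det_line {n : ℕ} (S T : Matrix (Fin n) (Fin n) ℂ) (t : ℝ) :
    HasDerivAt (fun s : ℝ => (S + ((s : ℝ) : ℂ) • T).det)
      (((S + ((t : ℝ) : ℂ) • T).adjugate * T).trace) t := by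
  have h0 : ∀ i j, HasFDerivAt (fun s : ℝ => (S + ((s : ℝ) : ℂ) • T) i j)
      (Complex.ofRealCLM.smulRight (T i j)) t := by
    intro i j
    have h1 : HasFDerivAt (fun s : ℝ => ((s : ℝ) : ℂ) • T i j) (Complex.ofRealCLM.smulRight (T i j)) t :=
      (Complex.ofRealCLM.smulRight (T i j)).hasFDerivAt
    exact h1.const_add (S i j)
  obtain ⟨h2, h3⟩ := hasFDerivAt_det (𝕜 := ℝ) (B := fun s : ℝ => S + ((s : ℝ) : ℂ) • T)
    (B' := fun v : ℝ => ((v : ℝ) : ℂ) • T) (z := t) (fun i j => (h0 i j).differentiableAt)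
    (fun i j v => by
      rw [(h0 i j).fderiv]
      simp)
  have h4 := h3 1
  have h5 := h2.hasDerivAt
  rw [← fderiv_apply_one_eq_deriv, h4] at h5
  simp only [Complex.ofReal_one, one_smul] at h5
  rwa [sum_det_updateCol] at h5

end Pool.Agent.Lib.MP_7fdaab_ag.KP
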