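import Mathlib

/-!
# MP_7fdaab / KP / Disc: no odd continuous family of symmetric matrices of rank one on a disc

PROOF. On the closed unit disc `D` let `T x = w wᵗ`, `w ≠ 0`, depend continuously on `x`. `μ = min |T| > 0`. The maps `x ↦ T (s x)`, `0 ≤ s ≤ 1`, are
uniformly continuous in `s`: choose `n` such that `|T (s x) - T (t x)| < μ / 2` for `|s - t| ≤ 1/n`. By induction on `j ≤ n` there is a continuous
`w_j : D → ℂ^ι` with `T ((j/n) x) = w_j w_jᵗ`: `w_0` is constant; `w_(j+1) = T' w̄_j / √g`, `T' = T (((j+1)/n) x) = w' w'ᵗ`,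
`g = ∑ w̄_j a w̄_j b T'_ab = (w' · w̄_j)²`, `|g - |w_j|⁴| ≤ |w_j|² |T' - T_j| < |w_j|⁴`, so `Re g > 0`, the principal root is continuous, and
`T' w̄_j = ± √g w'`. For `j = n` on the circle `w(-x) w(-x)ᵗ = T(-x) = - w wᵗ`, so `w(-x) = ε(x) i w(x)`, `ε(x) = ±1` is continuous, so constant;
`w(x) = w(-(-x)) = (ε i)² w(x) = - w(x)`: contradiction.
-/

set_option autoImplicit false

open Metric Finset Complex

namespace Pool.Agent.Lib.MP_7fdaab_ag.KP

variable {ι : Type} [Fintype ι]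

/-- squared length -/
private noncomputable def nn (w : ι → ℂ) : ℝ := ∑ a, ‖w a‖ ^ 2

private theorem nn_pos {w : ι → ℂ} (hw : w ≠ 0) : 0 < nn w := by
  obtain ⟨a, ha⟩ := Function.ne_iff.1 hw
  refine lt_of_lt_of_le (pow_pos (norm_pos_iff.2 ha) 2)
    (single_le_sum (f := fun a => ‖w a‖ ^ 2) (fun _ _ => sq_nonneg _) (mem_univ a))

private theorem nn_eq (w : ι → ℂ) : ((nn w : ℝ) : ℂ) = ∑ a, w a * (starRingEnd ℂ) (w a) := by
  unfold nn
  push_cast
  refine sum_congr rfl fun a _ => ?_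
  rw [mul_conj, normSq_eq_norm_sq]
  push_cast
  rfl

/-- one step of the lifting: `v` is a root of `T0`, `T1` is close to `T0` and has a root; then the formula gives a root of `T1` -/
private theorem step_root {T0 T1 : ι → ι → ℂ} {v w : ι → ℂ} (hv : v ≠ 0) (h0 : ∀ a b, T0 a b = v a * v b)
    (h1 : ∀ a b, T1 a b = w a * w b) (hclose : ∑ a, ∑ b, ‖T1 a b - T0 a b‖ ^ 2 < (nn v) ^ 2) :
    0 < (∑ a, ∑ b, (starRingEnd ℂ) (v a) * (starRingEnd ℂ) (v b) * T1 a b).re ∧
    ∀ s : ℂ, s ^ 2 = ∑ a, ∑ b, (starRingEnd ℂ) (v a) * (starRingEnd ℂ) (v b) * T1 a b →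
      (fun a => (∑ b, T1 a b * (starRingEnd ℂ) (v b)) / s) ≠ 0 ∧
      ∀ a b, T1 a b = ((∑ c, T1 a c * (starRingEnd ℂ) (v c)) / s) * ((∑ c, T1 b c * (starRingEnd ℂ) (v c)) / s) := by
  set g := ∑ a, ∑ b, (starRingEnd ℂ) (v a) * (starRingEnd ℂ) (v b) * T1 a b with hg
  set d : ℂ := ∑ b, w b * (starRingEnd ℂ) (v b) with hd
  have hgd : g = d ^ 2 := by
    rw [hg, hd, sq, sum_mul_sum]
    refine sum_congr rfl fun a _ => sum_congr rfl fun b _ => ?_
    rw [h1]
    ring
  have hn := nn_pos hv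
  have hg0 : ∑ a, ∑ b, (starRingEnd ℂ) (v a) * (starRingEnd ℂ) (v b) * T0 a b = (((nn v) ^ 2 : ℝ) : ℂ) := by
    have : (((nn v) ^ 2 : ℝ) : ℂ) = (∑ a, v a * (starRingEnd ℂ) (v a)) * ∑ b, v b * (starRingEnd ℂ) (v b) := by
      rw [← nn_eq]
      push_cast
      ring
    rw [this, sum_mul_sum]
    refine sum_congr rfl fun a _ => sum_congr rfl fun b _ => ?_
    rw [h0]
    ring
  have hdiff : ‖g - (((nn v) ^ 2 : ℝ) : ℂ)‖ < (nn v) ^ 2 := by
    have e1 : g - (((nn v) ^ 2 : ℝ) : ℂ) =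
        ∑ a, ∑ b, (starRingEnd ℂ) (v a) * (starRingEnd ℂ) (v b) * (T1 a b - T0 a b) := by
      rw [← hg0, hg, ← sum_sub_distrib]
      refine sum_congr rfl fun a _ => ?_
      rw [← sum_sub_distrib]
      exact sum_congr rfl fun b _ => by ring
    have e2 : ‖g - (((nn v) ^ 2 : ℝ) : ℂ)‖ ≤ ∑ a, ∑ b, (‖v a‖ * ‖v b‖) * ‖T1 a b - T0 a b‖ := by
      rw [e1]
      refine (norm_sum_le _ _).trans (sum_le_sum fun a _ => (norm_sum_le _ _).trans (sum_le_sum fun b _ => ?_))
      rw [norm_mul, norm_mul, RCLike.norm_conj, RCLike.norm_conj]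
    have e3 : (∑ a, ∑ b, (‖v a‖ * ‖v b‖) * ‖T1 a b - T0 a b‖) ^ 2 ≤
        (∑ a, ∑ b, (‖v a‖ * ‖v b‖) ^ 2) * ∑ a, ∑ b, ‖T1 a b - T0 a b‖ ^ 2 := by
      rw [← sum_product', ← sum_product', ← sum_product']
      exact sum_mul_sq_le_sq_mul_sq _ _ _
    have e4 : (∑ a, ∑ b, (‖v a‖ * ‖v b‖) ^ 2) = (nn v) ^ 2 := by
      unfold nn
      rw [sq, sum_mul_sum]
      exact sum_congr rfl fun a _ => sum_congr rfl fun b _ => by ring
    rw [e4] at e3
    have e5 : (nn v) ^ 2 * ∑ a, ∑ b, ‖T1 a b - T0 a b‖ ^ 2 < ((nn v) ^ 2) ^ 2 := by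
      rw [sq ((nn v) ^ 2)]
      exact mul_lt_mul_of_pos_left hclose (by positivity)
    refine lt_of_le_of_lt e2 (lt_of_pow_lt_pow_left₀ 2 (by positivity) (lt_of_le_of_lt e3 e5))
  have hre : 0 < g.re := by
    have h2 := (abs_lt.1 (lt_of_le_of_lt (abs_re_le_norm _) hdiff)).1
    rw [sub_re, ofReal_re] at h2
    linarith
  refine ⟨hre, fun s hs => ?_⟩
  have hg1 : g ≠ 0 := fun h => by
    rw [h, zero_re] at hre
    exact lt_irrefl _ hre
  have hs0 : s ≠ 0 := fun h => by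
    rw [h] at hs
    exact hg1 (by rw [← hs]; ring)
  have hd0 : d ≠ 0 := fun h => by
    rw [h] at hgd
    exact hg1 (by rw [hgd]; ring)
  have hsum : ∀ a, ∑ b, T1 a b * (starRingEnd ℂ) (v b) = w a * d := by
    intro a
    rw [hd, mul_sum]
    exact sum_congr rfl fun b _ => by rw [h1]; ring
  have hroot : ∀ a b, T1 a b = ((∑ c, T1 a c * (starRingEnd ℂ) (v c)) / s) * ((∑ c, T1 b c * (starRingEnd ℂ) (v c)) / s) := by
    intro a b
    rw [hsum, hsum, h1]
    have h3 : w a * d / s * (w b * d / s) = w a * w b * (d ^ 2 / s ^ 2) := by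
      field_simp
    rw [h3, hs, ← hgd, div_self hg1, mul_one]
  refine ⟨fun h => ?_, hroot⟩
  refine hg1 ?_
  rw [hg]
  refine sum_eq_zero fun a _ => sum_eq_zero fun b _ => ?_
  rw [hroot a b, show (∑ c, T1 a c * (starRingEnd ℂ) (v c)) / s = 0 from congrFun h a, zero_mul, mul_zero]

/-- the norm of `w wᵗ` -/
private theorem frob {T0 : ι → ι → ℂ} {w : ι → ℂ} (h : ∀ a b, T0 a b = w a * w b) :
    ∑ a, ∑ b, ‖T0 a b‖ ^ 2 = (nn w) ^ 2 := by
  unfold nn
  rw [sq, sum_mul_sum]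
  refine sum_congr rfl fun a _ => sum_congr rfl fun b _ => ?_
  rw [h, norm_mul]
  ring

/-- a continuous root on the disc -/
private theorem lift_disc (T : ℂ → ι → ι → ℂ) (hc : ContinuousOn T (closedBall 0 1))
    (hw : ∀ x ∈ closedBall (0 : ℂ) 1, ∃ w : ι → ℂ, w ≠ 0 ∧ ∀ a b, T x a b = w a * w b) :
    ∃ w : ℂ → ι → ℂ, ContinuousOn w (closedBall 0 1) ∧ ∀ x ∈ closedBall (0 : ℂ) 1, w x ≠ 0 ∧ ∀ a b, T x a b = w x a * w x b := by
  classical
  set N : ℂ → ℝ := fun x => ∑ a, ∑ b, ‖T x a b‖ ^ 2 with hN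
  have hcab : ∀ a b, ContinuousOn (fun x => T x a b) (closedBall 0 1) := fun a b =>
    (continuous_apply_apply a b).comp_continuousOn hc
  have hNc : ContinuousOn N (closedBall 0 1) :=
    continuousOn_finsetSum _ fun a _ => continuousOn_finsetSum _ fun b _ => ((hcab a b).norm).pow 2
  obtain ⟨x0, hx0, hmin⟩ := (isCompact_closedBall (0 : ℂ) 1).exists_isMinOn ⟨0, by simp⟩ hNc
  have hμ : 0 < N x0 := by
    obtain ⟨w, hw0, hw1⟩ := hw x0 hx0
    rw [hN]
    simp only
    rw [frob hw1]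
    exact pow_pos (nn_pos hw0) 2
  -- uniform continuity
  have huc := (isCompact_closedBall (0 : ℂ) 1).uniformContinuousOn_of_continuous hc
  set K : ℝ := (Fintype.card ι : ℝ) ^ 2 + 1 with hK
  have hK0 : 0 < K := by positivity
  obtain ⟨δ, hδ, hδ2⟩ := Metric.uniformContinuousOn_iff.1 huc (Real.sqrt (N x0 / K)) (Real.sqrt_pos.2 (by positivity))
  have hclose : ∀ x ∈ closedBall (0 : ℂ) 1, ∀ y ∈ closedBall (0 : ℂ) 1, dist x y < δ → ∑ a, ∑ b, ‖T y a b - T x a b‖ ^ 2 < N x0 := by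
    intro x hx y hy hxy
    have h1 := hδ2 x hx y hy hxy
    have h2 : ∀ a b, ‖T y a b - T x a b‖ ^ 2 ≤ N x0 / K := by
      intro a b
      have h3 : ‖T y a b - T x a b‖ ≤ Real.sqrt (N x0 / K) := by
        rw [← dist_eq_norm, dist_comm]
        exact ((dist_le_pi_dist (T x a) (T y a) b).trans (dist_le_pi_dist (T x) (T y) a)).trans h1.le
      calc ‖T y a b - T x a b‖ ^ 2 ≤ (Real.sqrt (N x0 / K)) ^ 2 := pow_le_pow_left₀ (norm_nonneg _) h3 2
        _ = N x0 / K := Real.sq_sqrt (by positivity)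
    calc ∑ a, ∑ b, ‖T y a b - T x a b‖ ^ 2 ≤ ∑ _a : ι, ∑ _b : ι, N x0 / K :=
          sum_le_sum fun a _ => sum_le_sum fun b _ => h2 a b
      _ = (Fintype.card ι : ℝ) ^ 2 * (N x0 / K) := by
          simp only [sum_const, card_univ, nsmul_eq_mul]
          ring
      _ < N x0 := by
          rw [mul_div_assoc', div_lt_iff₀ hK0, hK]
          nlinarith
  obtain ⟨n, hn⟩ := exists_nat_gt (1 / δ)
  have hn0 : 0 < (n : ℝ) := lt_trans (by positivity) hn
  have hind : ∀ j : ℕ, j ≤ n → ∃ w : ℂ → ι → ℂ, ContinuousOn w (closedBall 0 1) ∧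
      ∀ x ∈ closedBall (0 : ℂ) 1, w x ≠ 0 ∧ ∀ a b, T (((j : ℝ) / n : ℝ) * x) a b = w x a * w x b := by
    intro j
    induction j with
    | zero =>
      intro _
      obtain ⟨w, hw0, hw1⟩ := hw 0 (by simp)
      refine ⟨fun _ => w, continuousOn_const, fun x _ => ⟨hw0, fun a b => ?_⟩⟩
      simpa using hw1 a b
    | succ j ih =>
      intro hj
      obtain ⟨v, hvc, hv⟩ := ih (by omega)
      have hmem : ∀ i : ℕ, i ≤ n → ∀ x ∈ closedBall (0 : ℂ) 1, (((i : ℝ) / n : ℝ) : ℂ) * x ∈ closedBall (0 : ℂ) 1 := by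
        intro i hi x hx
        rw [mem_closedBall, dist_zero_right] at hx ⊢
        rw [norm_mul, norm_real, Real.norm_of_nonneg (by positivity)]
        have h1 : (i : ℝ) / n ≤ 1 := by
          rw [div_le_one hn0]
          exact_mod_cast hi
        exact mul_le_one₀ h1 (norm_nonneg _) hx
      have hT1 : ContinuousOn (fun x : ℂ => T ((((j + 1 : ℕ) : ℝ) / n : ℝ) * x)) (closedBall 0 1) :=
        hc.comp (continuousOn_const.mul continuousOn_id) fun x hx => hmem (j + 1) hj x hx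
      have hT1ab : ∀ a b, ContinuousOn (fun x : ℂ => T ((((j + 1 : ℕ) : ℝ) / n : ℝ) * x) a b) (closedBall 0 1) := fun a b =>
        (continuous_apply_apply a b).comp_continuousOn hT1
      have hva : ∀ a, ContinuousOn (fun x => v x a) (closedBall 0 1) := fun a =>
        (continuous_apply a).comp_continuousOn hvc
      have hvs : ∀ a, ContinuousOn (fun x => (starRingEnd ℂ) (v x a)) (closedBall 0 1) := fun a =>
        continuous_conj.comp_continuousOn (hva a)
      set g : ℂ → ℂ := fun x => ∑ a, ∑ b, (starRingEnd ℂ) (v x a) * (starRingEnd ℂ) (v x b) *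
        T ((((j + 1 : ℕ) : ℝ) / n : ℝ) * x) a b with hg
      have hgc : ContinuousOn g (closedBall 0 1) :=
        continuousOn_finsetSum _ fun a _ => continuousOn_finsetSum _ fun b _ => ((hvs a).mul (hvs b)).mul (hT1ab a b)
      have hkey : ∀ x ∈ closedBall (0 : ℂ) 1, 0 < (g x).re ∧ ∀ s : ℂ, s ^ 2 = g x →
          (fun a => (∑ b, T ((((j + 1 : ℕ) : ℝ) / n : ℝ) * x) a b * (starRingEnd ℂ) (v x b)) / s) ≠ 0 ∧
          ∀ a b, T ((((j + 1 : ℕ) : ℝ) / n : ℝ) * x) a b =
            ((∑ c, T ((((j + 1 : ℕ) : ℝ) / n : ℝ) * x) a c * (starRingEnd ℂ) (v x c)) / s) *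
              ((∑ c, T ((((j + 1 : ℕ) : ℝ) / n : ℝ) * x) b c * (starRingEnd ℂ) (v x c)) / s) := by
        intro x hx
        obtain ⟨hv0, hv1⟩ := hv x hx
        obtain ⟨w, hw0, hw1⟩ := hw _ (hmem (j + 1) hj x hx)
        refine step_root hv0 hv1 hw1 ?_
        refine lt_of_lt_of_le (hclose _ (hmem j (by omega) x hx) _ (hmem (j + 1) hj x hx) ?_) ?_
        · rw [dist_eq_norm, ← sub_mul, norm_mul, ← ofReal_sub, norm_real]
          rw [mem_closedBall, dist_zero_right] at hx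
          have h1 : (j : ℝ) / n - ((j + 1 : ℕ) : ℝ) / n = -(1 / n) := by
            push_cast
            field_simp
            ring
          rw [h1, norm_neg, Real.norm_of_nonneg (by positivity)]
          have h2 : 1 / (n : ℝ) < δ := by
            rw [div_lt_iff₀ hn0]
            rw [div_lt_iff₀ hδ] at hn
            linarith
          calc 1 / (n : ℝ) * ‖x‖ ≤ 1 / (n : ℝ) * 1 := mul_le_mul_of_nonneg_left hx (by positivity)
            _ < δ := by rw [mul_one]; exact h2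
        · have h1 : N x0 ≤ N (((j : ℝ) / n : ℝ) * x) := hmin (hmem j (by omega) x hx)
          have h2 : N (((j : ℝ) / n : ℝ) * x) = (nn (v x)) ^ 2 := frob hv1
          rw [← h2]
          exact h1
      have hsq : ∀ x : ℂ, (g x ^ (1 / 2 : ℂ)) ^ 2 = g x := by
        intro x
        rw [← cpow_nat_mul]
        norm_num
      have hsc : ContinuousOn (fun x => g x ^ (1 / 2 : ℂ)) (closedBall 0 1) := by
        intro x hx
        refine ContinuousWithinAt.cpow (hgc x hx) continuousWithinAt_const ?_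
        left
        exact (hkey x hx).1
      have hs0 : ∀ x ∈ closedBall (0 : ℂ) 1, g x ^ (1 / 2 : ℂ) ≠ 0 := by
        intro x hx h
        have h1 := hsq x
        rw [h] at h1
        have h2 := (hkey x hx).1
        rw [← h1] at h2
        norm_num at h2
      refine ⟨fun x a => (∑ b, T ((((j + 1 : ℕ) : ℝ) / n : ℝ) * x) a b * (starRingEnd ℂ) (v x b)) / g x ^ (1 / 2 : ℂ), ?_, ?_⟩
      · refine continuousOn_pi.2 fun a => ?_
        exact (continuousOn_finsetSum _ fun b _ => (hT1ab a b).mul (hvs b)).div hsc hs0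
      · intro x hx
        exact (hkey x hx).2 _ (hsq x)
  obtain ⟨w, hwc, hw1⟩ := hind n le_rfl
  refine ⟨w, hwc, fun x hx => ?_⟩
  have h1 := hw1 x hx
  rw [div_self hn0.ne', ofReal_one, one_mul] at h1
  exact h1

/-- **Disc lemma.** -/
theorem disc (T : ℂ → ι → ι → ℂ) (hc : ContinuousOn T (closedBall 0 1))
    (hw : ∀ x ∈ closedBall (0 : ℂ) 1, ∃ w : ι → ℂ, w ≠ 0 ∧ ∀ a b, T x a b = w a * w b)
    (hodd : ∀ x : ℂ, ‖x‖ = 1 → ∀ a b, T (-x) a b = - T x a b) : False := by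
  obtain ⟨w, hwc, hw1⟩ := lift_disc T hc hw
  have hmem : ∀ θ : ℝ, exp (θ * I) ∈ closedBall (0 : ℂ) 1 := by
    intro θ
    rw [mem_closedBall, dist_zero_right, norm_exp_ofReal_mul_I]
  have hmem' : ∀ θ : ℝ, -exp (θ * I) ∈ closedBall (0 : ℂ) 1 := by
    intro θ
    rw [mem_closedBall, dist_zero_right, norm_neg, norm_exp_ofReal_mul_I]
  have hexp : Continuous fun θ : ℝ => exp (θ * I) := by fun_prop
  have hc1 : ∀ a, Continuous fun θ : ℝ => w (exp (θ * I)) a := by
    intro a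
    have := (continuous_apply a).comp_continuousOn hwc
    exact this.comp_continuous hexp hmem
  have hc2 : ∀ a, Continuous fun θ : ℝ => w (-exp (θ * I)) a := by
    intro a
    have := (continuous_apply a).comp_continuousOn hwc
    exact this.comp_continuous hexp.neg hmem'
  -- the sign
  set ε : ℝ → ℂ := fun θ => -I * (∑ a, w (-exp (θ * I)) a * (starRingEnd ℂ) (w (exp (θ * I)) a)) / ((nn (w (exp (θ * I))) : ℝ) : ℂ) with hε
  have hnc : Continuous fun θ : ℝ => ((nn (w (exp (θ * I))) : ℝ) : ℂ) := by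
    refine continuous_ofReal.comp ?_
    unfold nn
    exact continuous_finsetSum _ fun a _ => ((hc1 a).norm).pow 2
  have hn0 : ∀ θ : ℝ, ((nn (w (exp (θ * I))) : ℝ) : ℂ) ≠ 0 := fun θ =>
    ofReal_ne_zero.2 (nn_pos (hw1 _ (hmem θ)).1).ne'
  have hεc : Continuous ε := by
    refine Continuous.div ?_ hnc hn0
    refine continuous_const.mul (continuous_finsetSum _ fun a _ => (hc2 a).mul ?_)
    exact continuous_conj.comp (hc1 a)
  have hcase : ∀ θ : ℝ, ∃ s : ℂ, (s = 1 ∨ s = -1) ∧ ∀ a, w (-exp (θ * I)) a = s * I * w (exp (θ * I)) a := by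
    intro θ
    obtain ⟨h1, h2⟩ := hw1 _ (hmem θ)
    obtain ⟨h3, h4⟩ := hw1 _ (hmem' θ)
    have hprod : ∀ a b, w (-exp (θ * I)) a * w (-exp (θ * I)) b = -(w (exp (θ * I)) a * w (exp (θ * I)) b) := by
      intro a b
      rw [← h4, ← h2, hodd _ (norm_exp_ofReal_mul_I θ)]
    obtain ⟨a0, ha0⟩ := Function.ne_iff.1 h1
    simp only [Pi.zero_apply] at ha0
    set u := w (-exp (θ * I)) with hu
    set v := w (exp (θ * I)) with hv
    have h5 : (u a0 - I * v a0) * (u a0 + I * v a0) = 0 := by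
      have := hprod a0 a0
      have hI : I * I = -1 := I_mul_I
      linear_combination this - hI * (v a0 * v a0)
    have h6 : u a0 ≠ 0 := by
      intro h
      have := hprod a0 a0
      rw [h] at this
      have h7 : v a0 * v a0 = 0 := by linear_combination this
      exact ha0 (mul_self_eq_zero.1 h7)
    rcases mul_eq_zero.1 h5 with h7 | h7
    · refine ⟨1, Or.inl rfl, fun b => ?_⟩
      have h8 : u a0 = I * v a0 := by linear_combination h7
      have h9 := hprod a0 b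
      have hI : I * I = -1 := I_mul_I
      refine mul_left_cancel₀ h6 ?_
      rw [h9, h8]
      linear_combination (- v a0 * v b) * hI
    · refine ⟨-1, Or.inr rfl, fun b => ?_⟩
      have h8 : u a0 = -(I * v a0) := by linear_combination h7
      have h9 := hprod a0 b
      have hI : I * I = -1 := I_mul_I
      refine mul_left_cancel₀ h6 ?_
      rw [h9, h8]
      linear_combination (- v a0 * v b) * hI
  have hval : ∀ θ : ℝ, (ε θ = 1 ∨ ε θ = -1) ∧ ∀ a, w (-exp (θ * I)) a = ε θ * I * w (exp (θ * I)) a := by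
    intro θ
    obtain ⟨s, hs, hs1⟩ := hcase θ
    have h1 : ε θ = s := by
      rw [hε]
      simp only
      rw [div_eq_iff (hn0 θ), nn_eq, mul_sum, mul_sum]
      refine sum_congr rfl fun a _ => ?_
      rw [hs1 a]
      have hI : I * I = -1 := I_mul_I
      linear_combination (-(s * w (exp (θ * I)) a * (starRingEnd ℂ) (w (exp (θ * I)) a))) * hI
    rw [h1]
    exact ⟨hs, hs1⟩
  have hconst : ∀ θ : ℝ, ε θ = ε 0 := by
    intro θ
    -- the real part is continuous with values 1, -1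
    have hre : Continuous fun θ : ℝ => (ε θ).re := continuous_re.comp hεc
    by_contra hne
    have hv1 := (hval θ).1
    have hv0 := (hval 0).1
    have hzero : ∃ η : ℝ, (ε η).re = 0 := by
      have hpre : IsPreconnected (Set.univ : Set ℝ) := isPreconnected_univ
      rcases hv1 with h1 | h1 <;> rcases hv0 with h0 | h0
      · exact absurd (h1.trans h0.symm) hne
      · have := hpre.intermediate_value (Set.mem_univ (0 : ℝ)) (Set.mem_univ θ) hre.continuousOn
        obtain ⟨η, -, hη⟩ := this (show (0 : ℝ) ∈ Set.Icc (ε 0).re (ε θ).re by rw [h0, h1]; norm_num)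
        exact ⟨η, hη⟩
      · have := hpre.intermediate_value (Set.mem_univ θ) (Set.mem_univ (0 : ℝ)) hre.continuousOn
        obtain ⟨η, -, hη⟩ := this (show (0 : ℝ) ∈ Set.Icc (ε θ).re (ε 0).re by rw [h0, h1]; norm_num)
        exact ⟨η, hη⟩
      · exact absurd (h1.trans h0.symm) hne
    obtain ⟨η, hη⟩ := hzero
    rcases (hval η).1 with h | h
    · rw [h] at hη
      norm_num at hη
    · rw [h] at hη
      norm_num at hη
  -- twice
  obtain ⟨h1, h2⟩ := hw1 _ (hmem 0)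
  obtain ⟨a0, ha0⟩ := Function.ne_iff.1 h1
  simp only [Pi.zero_apply] at ha0
  have hπ : exp (((Real.pi : ℝ) : ℂ) * I) = -exp (((0 : ℝ) : ℂ) * I) := by
    rw [exp_pi_mul_I, ofReal_zero, zero_mul, exp_zero]
  have hA := (hval 0).2 a0
  have hB := (hval Real.pi).2 a0
  rw [hπ, neg_neg, hconst Real.pi, hA] at hB
  have hsq : ε 0 * ε 0 = 1 := by
    rcases (hval 0).1 with h | h
    · rw [h]; norm_num
    · rw [h]; norm_num
  have hI : I * I = -1 := I_mul_I
  have h3 : w (exp (((0 : ℝ) : ℂ) * I)) a0 = -w (exp (((0 : ℝ) : ℂ) * I)) a0 := by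
    linear_combination hB + (I * I * w (exp (((0 : ℝ) : ℂ) * I)) a0) * hsq + w (exp (((0 : ℝ) : ℂ) * I)) a0 * hI
  refine ha0 ?_
  have h4 : (2 : ℂ) * w (exp (((0 : ℝ) : ℂ) * I)) a0 = 0 := by linear_combination h3
  rcases mul_eq_zero.1 h4 with h5 | h5
  · norm_num at h5
  · exact h5

/-- the disc lemma for matrices -/
theorem disc_lemma {ι : Type} [Fintype ι] (T : ℂ → Matrix ι ι ℂ)
    (hc : ∀ i j, ContinuousOn (fun x => T x i j) (Metric.closedBall 0 1))
    (hw : ∀ x ∈ Metric.closedBall (0 : ℂ) 1, ∃ w : ι → ℂ, w ≠ 0 ∧ T x = Matrix.vecMulVec w w)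
    (hodd : ∀ x : ℂ, ‖x‖ = 1 → T (-x) = - T x) : False := by
  refine disc (fun x a b => T x a b) ?_ (fun x hx => ?_) (fun x hx a b => ?_)
  · exact continuousOn_pi.mpr (fun i => continuousOn_pi.mpr (fun j => hc i j))
  · obtain ⟨w, h0, h⟩ := hw x hx
    exact ⟨w, h0, fun a b => by rw [h]; rfl⟩
  · have := congrFun (congrFun (hodd x hx) a) b
    exact this

end Pool.Agent.Lib.MP_7fdaab_ag.KP
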