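import Pool.Agent.Lib.MP_7fdaab_ag.KP.Alg2
import Pool.Agent.Lib.MP_7fdaab_ag.KP.DetD

/-!
hop_mod row DivX (60-120 lines): the Cramer field is divergence free.
PROOF.  `X M a b z k = det (updateCol (A M z a) k.succ b)` (`cramer_apply`).  By `hasFDerivAt_det` its
derivative in the direction `e_k` is the sum over the columns `i` of the determinant of
`updateCol (A M z a) k.succ b` with column `i` replaced by the derivative of that column: for `i = 0`
and `i = k.succ` the derivative column is 0; for `i = i'.succ`, `i' != k`, it is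
`c_{i' k} (j) = (M j) i' k`.  So `div X = sum over k != i' of g k i'`,
`g k i' = det (updateCol (updateCol (A M z a) k.succ b) i'.succ (c_{i' k}))`.
`c_{i' k} = c_{k i'}` (symmetry) and exchanging the two columns `k.succ`, `i'.succ` gives
`g i' k = - g k i'`.  Hence the sum is zero (`sum = - sum` by `Finset.sum_comm`; char zero).
-/

namespace Pool.Agent.Lib.MP_7fdaab_ag.KP

open Matrix MeasureTheory

variable {m : ℕ}

/-- the derivative of the entries of `updateCol (A M s a) k.succ b` -/
private noncomputable def DivX_B' (M : Sys m) (k : Fin m) (v : E m) :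
    Matrix (Fin (m + 1)) (Fin (m + 1)) ℂ :=
  Matrix.of fun i c => if c = k.succ then 0 else
    (Fin.cons 0 ((M i).mulVec v) : Fin (m + 1) → ℂ) c

private theorem DivX_entry (M : Sys m) (a b : Fin (m + 1) → ℂ) (z : E m) (k : Fin m)
    (i j : Fin (m + 1)) :
    HasFDerivAt (fun s : E m => ((A M s a).updateCol k.succ b) i j)
      (if j = k.succ then (0 : E m →L[ℂ] ℂ) else
        (Fin.cons (0 : E m →L[ℂ] ℂ) (fun j' : Fin m =>
          ∑ l : Fin m, (M i j' l) • (ContinuousLinearMap.proj l : E m →L[ℂ] ℂ)) :
          Fin (m + 1) → (E m →L[ℂ] ℂ)) j) z := by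
  by_cases hj : j = k.succ
  · subst hj
    simp only [Matrix.updateCol_self, if_true]
    exact hasFDerivAt_const _ _
  · simp only [Matrix.updateCol_apply, hj, if_false]
    refine Fin.cases ?_ (fun j' => ?_) j
    · simp only [A, Matrix.of_apply, Fin.cons_zero]
      exact hasFDerivAt_const _ _
    · simp only [A, Matrix.of_apply, Fin.cons_succ]
      have h : ∀ s : E m, (M i).mulVec s j' =
          (∑ l : Fin m, (M i j' l) • (ContinuousLinearMap.proj l : E m →L[ℂ] ℂ)) s := by
        intro s
        simp [Matrix.mulVec, dotProduct]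
      have h2 : (fun s : E m => (M i).mulVec s j') =
          (∑ l : Fin m, (M i j' l) • (ContinuousLinearMap.proj l : E m →L[ℂ] ℂ)) := by
        funext s
        exact h s
      rw [h2]
      exact ContinuousLinearMap.hasFDerivAt _

private theorem DivX_fderiv (M : Sys m) (a b : Fin (m + 1) → ℂ) (z : E m) (k : Fin m) :
    DifferentiableAt ℂ (fun s => X M a b s k) z ∧ ∀ v : E m,
      fderiv ℂ (fun s => X M a b s k) z v =
        ∑ i, (((A M z a).updateCol k.succ b).updateCol i (fun r => DivX_B' M k v r i)).det := by
  have h := hasFDerivAt_det (𝕜 := ℂ) (F := E m) (n := m + 1)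
    (B := fun s => (A M s a).updateCol k.succ b) (B' := fun v => DivX_B' M k v) (z := z)
    (fun i j => (DivX_entry M a b z k i j).differentiableAt) (by
      intro i j v
      rw [(DivX_entry M a b z k i j).fderiv]
      by_cases hj : j = k.succ
      · simp [DivX_B', hj]
      · simp only [DivX_B', Matrix.of_apply, hj, if_false]
        refine Fin.cases ?_ (fun j' => ?_) j
        · simp
        · simp [Matrix.mulVec, dotProduct])
  have hX : (fun s => X M a b s k) = fun s => ((A M s a).updateCol k.succ b).det := by
    funext s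
    simp [X, Matrix.cramer_apply]
  rw [hX]
  exact h

/-- the summand -/
private noncomputable def DivX_g (M : Sys m) (a b : Fin (m + 1) → ℂ) (z : E m)
    (k i : Fin m) : ℂ :=
  if i = k then 0 else
    (((A M z a).updateCol k.succ b).updateCol i.succ (fun r => M r i k)).det

private theorem DivX_comp (M : Sys m) (a b : Fin (m + 1) → ℂ) (z : E m) (k : Fin m) :
    fderiv ℂ (fun s => X M a b s k) z (Pi.single k 1) = ∑ i, DivX_g M a b z k i := by
  rw [(DivX_fderiv M a b z k).2, Fin.sum_univ_succ]
  have h0 : (((A M z a).updateCol k.succ b).updateCol 0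
      (fun r => DivX_B' M k (Pi.single k 1) r 0)).det = 0 := by
    apply Matrix.det_eq_zero_of_column_eq_zero 0
    intro r
    have : (0 : Fin (m + 1)) ≠ k.succ := (Fin.succ_ne_zero k).symm
    simp [DivX_B', this]
  rw [h0, zero_add]
  refine Finset.sum_congr rfl fun i _ => ?_
  unfold DivX_g
  by_cases hi : i = k
  · rw [if_pos hi]
    apply Matrix.det_eq_zero_of_column_eq_zero i.succ
    intro r
    simp [DivX_B', hi]
  · rw [if_neg hi]
    have hs : i.succ ≠ k.succ := fun h => hi (Fin.succ_injective _ h)
    congr 2
    funext r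
    simp [DivX_B', hs]

private theorem DivX_anti (M : Sys m) (hM : ∀ j, (M j).IsSymm) (a b : Fin (m + 1) → ℂ)
    (z : E m) (k i : Fin m) : DivX_g M a b z i k = - DivX_g M a b z k i := by
  unfold DivX_g
  by_cases hi : i = k
  · simp [hi]
  · rw [if_neg hi, if_neg (fun h => hi h.symm)]
    have hs : i.succ ≠ k.succ := fun h => hi (Fin.succ_injective _ h)
    have hc : (fun r => M r i k) = fun r => M r k i := by
      funext r
      exact (hM r).apply k i
    have hperm : (((A M z a).updateCol i.succ b).updateCol k.succ (fun r => M r k i)) =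
        (((A M z a).updateCol k.succ b).updateCol i.succ (fun r => M r i k)).submatrix id
          (Equiv.swap k.succ i.succ) := by
      ext r c
      rw [hc]
      simp only [Matrix.submatrix_apply, id, Matrix.updateCol_apply]
      by_cases h1 : c = k.succ
      · subst h1
        simp
      · by_cases h2 : c = i.succ
        · subst h2
          simp [hs, hs.symm]
        · rw [Equiv.swap_apply_of_ne_of_ne h1 h2]
          simp [h1, h2]
    rw [hperm, Matrix.det_permute']
    rw [Equiv.Perm.sign_swap (fun h => hs h.symm)]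
    simp

theorem dv_X (M : Sys m) (hM : ∀ j, (M j).IsSymm) (a b : Fin (m + 1) → ℂ) (z : E m) :
    dv (X M a b) z = 0 := by
  have h1 : dv (X M a b) z = ∑ k, ∑ i, DivX_g M a b z k i := by
    unfold dv
    refine Finset.sum_congr rfl fun k _ => ?_
    rw [← DivX_comp]
    rw [fderiv_pi (fun j => (DivX_fderiv M a b z j).1)]
    rfl
  have h2 : ∑ k, ∑ i, DivX_g M a b z k i = - ∑ k, ∑ i, DivX_g M a b z k i := by
    conv_lhs => rw [Finset.sum_comm]
    rw [← Finset.sum_neg_distrib]
    refine Finset.sum_congr rfl fun k _ => ?_
    rw [← Finset.sum_neg_distrib]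
    refine Finset.sum_congr rfl fun i _ => ?_
    exact DivX_anti M hM a b z k i
  rw [h1]
  have h3 : (2 : ℂ) * ∑ k, ∑ i, DivX_g M a b z k i = 0 := by
    linear_combination h2
  simpa using h3

end Pool.Agent.Lib.MP_7fdaab_ag.KP
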