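import Pool.Agent.Lib.MP_7fdaab_ag.KP.Proper
import Pool.Agent.Lib.MP_7fdaab_ag.KP.Alg1
import Pool.Agent.Lib.MP_7fdaab_ag.KP.Alg2

/-!
hop_mod row Pos1 (80-130 lines): closure under multiplication by `s0`.
PROOF.  Inductive class `W M : (E m → ℂ) → Prop`: base `fun z => F(q z) * h z * (phi_0^(m+e))⁻¹` for
`Test l0 F`, `HP (m + 2 e) h`; add; and congruence (functions equal on `U M l0` and both zero off it, or
equal everywhere).  (a) `W G -> int G(z) conj(P(z, q z)) = 0` (base: `wt = 2 I conj P(z,q)` (`wt_eq`),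
so it is `(2I)⁻¹ D(h phi_0^(-(m+e)); F) = 0` by `hnull` with `d = m + 2e`, `N = m + e`; add: sum of
integrals, integrable by `integrable_nice`).  (b) `W G -> W (G * (phi_j / phi_0))` (base:
`h phi_j` in `HP (m + 2(e+1))`, `HP.mul`, `HP_phi`).  (c) `W G -> W (G * (q_j/q_0))` (base: replace `F` by
`F * (y_j / y_0)`, `Test.mul_smooth`, smooth on `H l0 = {y_0 > 0}`).  Hence `W G -> W (G * s0)`,
`W (G * (s0)^n)`, `W (G * p(s0))` (also `W (c G)`).  (d) start: `G_0 = f(q z) P(z, q z) phi_0^(-m) =
sum_i (f(q) q_i) P(z,e_i) phi_0^(-m)` (`P_lin`; `F = f * y_i`, `h = P(., e_i)` in `HP m`, `e = 0`).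
(e) `P(z,q) conj P(z,q) = normSq`.
-/

namespace Pool.Agent.Lib.MP_7fdaab_ag.KP

open Matrix MeasureTheory

variable {m : ℕ}

/-- the class of integrands of the proof -/
private inductive W (M : Sys m) : (E m → ℂ) → Prop
  | base {F : V m → ℝ} {h : E m → ℂ} (e : ℕ) (hF : Test l0 F) (hh : HP (m + 2 * e) h) :
      W M (fun z => ((F (q M z) : ℝ) : ℂ) * h z * ((phi M z 0) ^ (m + e))⁻¹)
  | add {G K : E m → ℂ} (hG : W M G) (hK : W M K) : W M (fun z => G z + K z)

private lemma mem_H_l0 (y : V m) : y ∈ H (l0 : V m) ↔ 0 < y 0 := by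
  simp [H, l0, Pi.single_apply]

private lemma W.congr {M : Sys m} {G K : E m → ℂ} (hG : W M G) (h : ∀ z, G z = K z) : W M K := by
  have : G = K := funext h
  rwa [← this]

private lemma W.smul {M : Sys m} {G : E m → ℂ} (hG : W M G) (c : ℂ) : W M (fun z => c * G z) := by
  induction hG with
  | base e hF hh =>
    refine (W.base e hF (hh.smul c)).congr fun z => ?_
    ring
  | add hG hK ihG ihK =>
    refine (W.add ihG ihK).congr fun z => ?_
    ring

private lemma exists_test_l0 (M : Sys m) : ∃ F : V m → ℝ, Test (l0 : V m) F := by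
  have h1 : (l0 : V m) ∈ H (l0 : V m) := by
    rw [mem_H_l0]; simp [l0]
  obtain ⟨f, hf, -⟩ := exists_test h1 one_pos
  exact ⟨f, hf⟩

private lemma W.zero (M : Sys m) : W M (fun _ => 0) := by
  obtain ⟨F, hF⟩ := exists_test_l0 M
  refine (W.base (M := M) 0 hF (HP.zero (m + 2 * 0))).congr fun z => ?_
  simp

private lemma W.sum {M : Sys m} {ι : Type} (s : Finset ι) {G : ι → E m → ℂ}
    (hG : ∀ i ∈ s, W M (G i)) : W M (fun z => ∑ i ∈ s, G i z) := by
  classical
  induction s using Finset.induction_on with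
  | empty => exact (W.zero M).congr fun z => by simp
  | insert a s ha ih =>
    refine (W.add (hG a (Finset.mem_insert_self _ _))
      (ih fun i hi => hG i (Finset.mem_insert_of_mem hi))).congr fun z => ?_
    rw [Finset.sum_insert ha]

private lemma W.mul_phi {M : Sys m} {G : E m → ℂ} (hG : W M G) (j : Fin (m + 1)) :
    W M (fun z => G z * (phi M z j / phi M z 0)) := by
  induction hG with
  | @base F h e hF hh =>
    have h1 : HP (m + 2 * (e + 1)) (fun z => h z * phi M z j) := by
      have := hh.mul (HP_phi M j)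
      rwa [show m + 2 * (e + 1) = m + 2 * e + 2 by ring]
    refine (W.base (M := M) (e + 1) hF h1).congr fun z => ?_
    rw [show m + (e + 1) = m + e + 1 by ring, pow_succ, mul_inv]
    ring
  | add hG hK ihG ihK =>
    refine (W.add ihG ihK).congr fun z => ?_
    ring

private lemma W.mul_q {M : Sys m} {G : E m → ℂ} (hG : W M G) (j : Fin (m + 1)) :
    W M (fun z => G z * ((q M z j / q M z 0 : ℝ) : ℂ)) := by
  induction hG with
  | @base F h e hF hh =>
    have h1 : Test (l0 : V m) (fun y => F y * (y j / y 0)) := by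
      refine hF.mul_smooth fun y hy => ?_
      rw [mem_H_l0] at hy
      exact (contDiff_apply ℝ ℝ j).contDiffAt.div (contDiff_apply ℝ ℝ 0).contDiffAt hy.ne'
    refine (W.base (M := M) e h1 hh).congr fun z => ?_
    push_cast
    ring
  | add hG hK ihG ihK =>
    refine (W.add ihG ihK).congr fun z => ?_
    ring

private lemma W.mul_diff {M : Sys m} {G : E m → ℂ} (hG : W M G) (j : Fin (m + 1)) :
    W M (fun z => G z * (phi M z j / phi M z 0 - ((q M z j / q M z 0 : ℝ) : ℂ))) := by
  refine (W.add (hG.mul_phi j) ((hG.mul_q j).smul (-1))).congr fun z => ?_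
  ring

private lemma W.mul_s0 {M : Sys m} {G : E m → ℂ} (hG : W M G) :
    W M (fun z => G z * s0 M z) := by
  refine (W.sum Finset.univ (G := fun (j : Fin m) z => G z *
    (phi M z j.succ / phi M z 0 - ((q M z j.succ / q M z 0 : ℝ) : ℂ)) *
    (phi M z j.succ / phi M z 0 - ((q M z j.succ / q M z 0 : ℝ) : ℂ)))
    fun j _ => (hG.mul_diff j.succ).mul_diff j.succ).congr fun z => ?_
  rw [s0, Finset.mul_sum]
  refine Finset.sum_congr rfl fun j _ => ?_
  ring

private lemma W.mul_s0_pow {M : Sys m} {G : E m → ℂ} (hG : W M G) (n : ℕ) :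
    W M (fun z => G z * s0 M z ^ n) := by
  induction n with
  | zero => exact hG.congr fun z => by simp
  | succ n ih => exact ih.mul_s0.congr fun z => by rw [pow_succ]; ring

private lemma W.mul_poly {M : Sys m} {G : E m → ℂ} (hG : W M G) (p : Polynomial ℂ) :
    W M (fun z => G z * p.eval (s0 M z)) := by
  induction p using Polynomial.induction_on' with
  | add p r hp hr =>
    refine (W.add hp hr).congr fun z => ?_
    rw [Polynomial.eval_add]; ring
  | monomial n a =>
    refine ((hG.mul_s0_pow n).smul a).congr fun z => ?_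
    rw [Polynomial.eval_monomial]; ring

private lemma conj_P (M : Sys m) (z : E m) :
    (starRingEnd ℂ) (P M z (toC (q M z))) = (2 * Complex.I)⁻¹ * wt M z := by
  rw [wt_eq, ← mul_assoc, inv_mul_cancel₀, one_mul]
  simp [Complex.I_ne_zero]

private lemma W.int {M : Sys m} (hM : Good M)
    (hnull : ∀ (d N : ℕ) (h : E m → ℂ) (f : V m → ℝ), 2 * N = m + d → HP d h → Test l0 f →
      D M (fun z => h z * ((phi M z 0) ^ N)⁻¹) f = 0) {G : E m → ℂ} (hG : W M G) :
    Integrable (fun z : E m => G z * (starRingEnd ℂ) (P M z (toC (q M z)))) ∧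
      ∫ z : E m, G z * (starRingEnd ℂ) (P M z (toC (q M z))) = 0 := by
  induction hG with
  | @base F h e hF hh =>
    have heq : (fun z : E m => ((F (q M z) : ℝ) : ℂ) * h z * ((phi M z 0) ^ (m + e))⁻¹ *
        (starRingEnd ℂ) (P M z (toC (q M z)))) =
        fun z => ((F (q M z) : ℝ) : ℂ) * ((2 * Complex.I)⁻¹ * (wt M z *
          (h z * ((phi M z 0) ^ (m + e))⁻¹))) := by
      funext z
      rw [conj_P]; ring
    have hcont : ContinuousOn (fun z : E m => (2 * Complex.I)⁻¹ * (wt M z *
          (h z * ((phi M z 0) ^ (m + e))⁻¹))) (U M l0) := by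
      refine continuousOn_const.mul ((wt_continuous M).continuousOn.mul
        ((hh.contDiff 0).continuous.continuousOn.mul
          (ContinuousOn.inv₀ ((phi_contDiff M 0 0).continuous.continuousOn.pow _) ?_)))
      intro z hz
      have := lphi_ne M l0 z hz
      rw [l0, lphi_single] at this
      exact pow_ne_zero _ this
    constructor
    · rw [heq]
      exact integrable_nice M hM hF.ctest hcont
    · rw [heq]
      have h0 := hnull (m + 2 * e) (m + e) h F (by ring) hh hF
      have h2 : ∫ z : E m, ((F (q M z) : ℝ) : ℂ) * ((2 * Complex.I)⁻¹ * (wt M z *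
          (h z * ((phi M z 0) ^ (m + e))⁻¹))) =
          (2 * Complex.I)⁻¹ * D M (fun z => h z * ((phi M z 0) ^ (m + e))⁻¹) F := by
        rw [D, ← integral_const_mul]
        refine integral_congr_ae (Filter.Eventually.of_forall fun z => ?_)
        ring
      rw [h2, h0, mul_zero]
  | @add G K hG hK ihG ihK =>
    have heq : (fun z : E m => (G z + K z) * (starRingEnd ℂ) (P M z (toC (q M z)))) =
        fun z => G z * (starRingEnd ℂ) (P M z (toC (q M z))) +
          K z * (starRingEnd ℂ) (P M z (toC (q M z))) := by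
      funext z; ring
    rw [heq]
    refine ⟨ihG.1.add ihK.1, ?_⟩
    rw [integral_add ihG.1 ihK.1, ihG.2, ihK.2, add_zero]

theorem null_poly (M : Sys m) (hM : Good M)
    (hnull : ∀ (d N : ℕ) (h : E m → ℂ) (f : V m → ℝ), 2 * N = m + d → HP d h → Test l0 f →
      D M (fun z => h z * ((phi M z 0) ^ N)⁻¹) f = 0)
    {f : V m → ℝ} (hf : Test l0 f) (p : Polynomial ℂ) :
    ∫ z : E m, ((f (q M z) : ℝ) : ℂ) *
      (((Complex.normSq (P M z (toC (q M z))) : ℝ) : ℂ) * ((phi M z 0) ^ m)⁻¹ *
        p.eval (s0 M z)) = 0 := by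
  have hstart : W M (fun z => ((f (q M z) : ℝ) : ℂ) * P M z (toC (q M z)) *
      ((phi M z 0) ^ m)⁻¹) := by
    have hb : ∀ i ∈ (Finset.univ : Finset (Fin (m + 1))),
        W M (fun z => (((fun y : V m => f y * y i) (q M z) : ℝ) : ℂ) * P M z (ej i) *
          ((phi M z 0) ^ (m + 0))⁻¹) := by
      intro i _
      refine W.base (M := M) 0 (F := fun y : V m => f y * y i) (h := fun z => P M z (ej i))
        (hf.mul_smooth fun y _ => (contDiff_apply ℝ ℝ i).contDiffAt) ?_
      simpa using HP_P M (ej i)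
    refine (W.sum _ hb).congr fun z => ?_
    rw [P_lin M z (toC (q M z)), Finset.mul_sum, Finset.sum_mul]
    refine Finset.sum_congr rfl fun i _ => ?_
    simp only [toC]
    push_cast
    ring
  have h := ((hstart.mul_poly p).int hM hnull).2
  rw [← h]
  refine integral_congr_ae (Filter.Eventually.of_forall fun z => ?_)
  simp only
  rw [← Complex.mul_conj]
  ring

end Pool.Agent.Lib.MP_7fdaab_ag.KP
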