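import Mathlib

/-!
hop_mod row Runge (60-90 lines): negative powers are uniform limits of polynomials on compact subsets
of the complement of the half line `[0, oo)`.
PROOF.  Let `S` be the closure of the polynomial functions in `C(K, ℂ)` and `x` the identity function.
The spectrum of `x` in `C(K, ℂ)` is `K`; by spectral permanence for closed subalgebras (Mathlib) a
point of the spectrum of `x` in `S` lies in a bounded component of the complement of `K`. The half line
`[0, oo)` is connected, unbounded and misses `K`, so `0` is not in the spectrum of `x` in `S`: the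
inverse of `x` and its powers belong to `S`.
-/

namespace Pool.Agent.Lib.MP_7fdaab_ag.KP

theorem runge {K : Set ℂ} (hK : IsCompact K) (h : ∀ x ∈ K, x.im ≠ 0 ∨ x.re < 0) (n : ℕ)
    {ε : ℝ} (hε : 0 < ε) : ∃ p : Polynomial ℂ, ∀ x ∈ K, ‖p.eval x - (x ^ n)⁻¹‖ < ε := by
  have : CompactSpace K := isCompact_iff_compactSpace.1 hK
  let S : Subalgebra ℂ C(K, ℂ) := (polynomialFunctions K).topologicalClosure
  have hS : IsClosed (S : Set C(K, ℂ)) := Subalgebra.isClosed_topologicalClosure _
  let X : C(K, ℂ) := Polynomial.toContinuousMapOnAlgHom K Polynomial.X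
  have hXv : ∀ k : K, X k = (k : ℂ) := fun k => by simp [X]
  have hX : X ∈ S := by
    refine Subalgebra.le_topologicalClosure _ ?_
    rw [← SetLike.mem_coe, polynomialFunctions_coe]
    exact ⟨Polynomial.X, rfl⟩
  let x : S := ⟨X, hX⟩
  have hsp : spectrum ℂ (x : C(K, ℂ)) = K := by
    rw [ContinuousMap.spectrum_eq_range]
    ext z
    constructor
    · rintro ⟨k, rfl⟩
      show X k ∈ K
      rw [hXv]
      exact k.2
    · intro hz
      exact ⟨⟨z, hz⟩, hXv _⟩
  have h0 : (0 : ℂ) ∉ spectrum ℂ x := by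
    intro hz
    have hb := Subalgebra.spectrum_isBounded_connectedComponentIn S x hz
    have hsub : (fun t : ℝ => (t : ℂ)) '' Set.Ici 0 ⊆ connectedComponentIn (spectrum ℂ (x : C(K, ℂ)))ᶜ 0 := by
      refine IsPreconnected.subset_connectedComponentIn (isPreconnected_Ici.image _ (by fun_prop)) ⟨0, by simp, by simp⟩ ?_
      rintro _ ⟨t, ht, rfl⟩
      rw [hsp]
      intro hk
      rcases h _ hk with h1 | h1
      · exact h1 (Complex.ofReal_im t)
      · rw [Complex.ofReal_re] at h1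
        exact absurd h1 (not_lt.2 ht)
    obtain ⟨C, hC⟩ := (hb.subset hsub).exists_norm_le
    have h1 := hC (((|C| + 1 : ℝ) : ℂ)) ⟨|C| + 1, by simp; positivity, rfl⟩
    rw [Complex.norm_real, Real.norm_eq_abs, abs_of_pos (by positivity)] at h1
    have := le_abs_self C
    linarith
  have hunit : IsUnit x := by
    rwa [spectrum.zero_notMem_iff] at h0
  obtain ⟨u, hu⟩ := hunit
  have hmem : ((((u⁻¹ : Sˣ) : S) ^ n : S) : C(K, ℂ)) ∈ closure ((polynomialFunctions K : Subalgebra ℂ C(K, ℂ)) : Set C(K, ℂ)) := by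
    have h1 := ((((u⁻¹ : Sˣ) : S) ^ n : S)).2
    rwa [← SetLike.mem_coe, Subalgebra.topologicalClosure_coe] at h1
  obtain ⟨f, hf, hd⟩ := Metric.mem_closure_iff.1 hmem ε hε
  rw [polynomialFunctions_coe] at hf
  obtain ⟨p, rfl⟩ := hf
  refine ⟨p, fun z hz => ?_⟩
  have hz0 : z ≠ 0 := by
    rintro rfl
    rcases h _ hz with h1 | h1
    · exact h1 rfl
    · simp at h1
  have hmul : X * (((u⁻¹ : Sˣ) : S) : C(K, ℂ)) = 1 := by
    have h1 : (u : S) * ((u⁻¹ : Sˣ) : S) = 1 := u.mul_inv
    rw [hu] at h1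
    exact congrArg (Subtype.val) h1
  have hval : (((u⁻¹ : Sˣ) : S) : C(K, ℂ)) ⟨z, hz⟩ = z⁻¹ := by
    have h1 := congrArg (fun g : C(K, ℂ) => g ⟨z, hz⟩) hmul
    simp only [ContinuousMap.mul_apply, ContinuousMap.one_apply, hXv] at h1
    exact eq_inv_of_mul_eq_one_right h1
  have h2 := (ContinuousMap.dist_apply_le_dist (f := ((((u⁻¹ : Sˣ) : S) ^ n : S) : C(K, ℂ)))
    (g := (Polynomial.toContinuousMapOnAlgHom K) p) ⟨z, hz⟩).trans_lt hd
  rw [dist_comm, dist_eq_norm] at h2
  have h3 : ((((u⁻¹ : Sˣ) : S) ^ n : S) : C(K, ℂ)) ⟨z, hz⟩ = (z ^ n)⁻¹ := by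
    rw [SubmonoidClass.coe_pow, ContinuousMap.pow_apply, hval, inv_pow]
  rw [h3] at h2
  simpa using h2

end Pool.Agent.Lib.MP_7fdaab_ag.KP
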