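import Pool.Agent.Lib.MP_7fdaab_ag.KP.Proper
import Pool.Agent.Lib.MP_7fdaab_ag.KP.Alg1
import Pool.Agent.Lib.MP_7fdaab_ag.KP.Alg2
import Pool.Agent.Lib.MP_7fdaab_ag.KP.Runge

/-!
hop_mod row Pos2 (120-160 lines): positivity.
PROOF.  On `U M l0` write `phi_j = x_j + I q_j`, `q_0 > 0`, `x'_j = x_{j+1} - (q_{j+1}/q_0) x_0` (real).
Then `phi_{j+1}/phi_0 - q_{j+1}/q_0 = x'_j / phi_0`, so `s0 = X2 / phi_0^2` with `X2 = sum x'_j^2 >= 0`.
`X2 > 0` (`z != 0` on `U`): if all `x'_j = 0` then `phi_j = c q_j` for all `j`, `c = phi_0 / q_0`; take a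
complex square root `s` of `conj c` (`c != 0`): `phi (s z) = s^2 phi = conj c * c * q` is real, so
`q (s z) = 0`, `s z = 0`, `z = 0`: contradiction with `Good`.  `phi_0^2` is not in `[0,oo)` as
`Im phi_0 > 0`: hence `s0` is in `{im != 0 or re < 0}`.
`f` := `exists_test` at `y = q z₀` in `H l0`.  `K = s0 '' (q⁻¹ (tsupport f))` is compact (`s0` continuous
on `U`).  `runge` with `n = m / 2` and `h`: the integral of
`f(q) |P(z,q)|^2 phi_0^(-m) s0^(-n)` is zero (difference at most `eps * int f |P|^2 |phi_0|^(-m)`).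
`phi_0^(-m) s0^(-n) = phi_0^(2n-m) X2^(-n)`: if `m = 2 n` it is a positive real; if `m = 2n+1` its
imaginary part is `- q_0 / |phi_0|^2 X2^(-n) < 0`.  So the real part (resp. minus the imaginary part) of
the integrand is continuous, nonnegative, positive at `z₀`: its integral is positive
(`Continuous.integral_pos_of_hasCompactSupport_nonneg_nonzero`): contradiction.
-/

namespace Pool.Agent.Lib.MP_7fdaab_ag.KP

open Matrix MeasureTheory

variable {m : ℕ}

private theorem p2_phi_cont (M : Sys m) (j : Fin (m + 1)) : Continuous fun z : E m => phi M z j :=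
  (phi_contDiff M j 0).continuous

private theorem p2_q_cont (M : Sys m) (j : Fin (m + 1)) : Continuous fun z : E m => q M z j :=
  Complex.continuous_im.comp (p2_phi_cont M j)

private theorem p2_P_cont (M : Sys m) : Continuous fun z : E m => P M z (toC (q M z)) := by
  have h : (fun z : E m => P M z (toC (q M z))) =
      fun z => ∑ j, ((q M z j : ℝ) : ℂ) * P M z (ej j) := by
    funext z
    rw [P_lin]
    rfl
  rw [h]
  exact continuous_finsetSum _ fun j _ =>
    (Complex.continuous_ofReal.comp (p2_q_cont M j)).mul (P_contDiff M (ej j) 0).continuous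

private noncomputable def p2X (M : Sys m) (z : E m) : ℝ :=
  ∑ j : Fin m, ((phi M z j.succ).re - q M z j.succ / q M z 0 * (phi M z 0).re) ^ 2

private theorem p2_ne {M : Sys m} {z : E m} (hz : 0 < q M z 0) : phi M z 0 ≠ 0 := by
  intro h
  have : q M z 0 = 0 := by
    show (phi M z 0).im = 0
    rw [h]
    rfl
  linarith

private theorem p2_quot (M : Sys m) {z : E m} (hz : 0 < q M z 0) (j : Fin m) :
    phi M z j.succ / phi M z 0 - ((q M z j.succ / q M z 0 : ℝ) : ℂ) =
      (((phi M z j.succ).re - q M z j.succ / q M z 0 * (phi M z 0).re : ℝ) : ℂ) / phi M z 0 := by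
  have h0 := p2_ne hz
  rw [eq_div_iff h0, sub_mul, div_mul_cancel₀ _ h0]
  apply Complex.ext
  · rw [Complex.sub_re, Complex.re_ofReal_mul, Complex.ofReal_re]
  · rw [Complex.sub_im, Complex.im_ofReal_mul, Complex.ofReal_im]
    show q M z j.succ - q M z j.succ / q M z 0 * q M z 0 = 0
    rw [div_mul_cancel₀ _ hz.ne', sub_self]

private theorem p2_s0 (M : Sys m) {z : E m} (hz : 0 < q M z 0) :
    s0 M z = ((p2X M z : ℝ) : ℂ) / (phi M z 0) ^ 2 := by
  unfold s0 p2X
  rw [Complex.ofReal_sum, Finset.sum_div]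
  apply Finset.sum_congr rfl
  intro j _
  rw [p2_quot M hz j, div_pow, Complex.ofReal_pow]

private theorem p2X_nonneg (M : Sys m) (z : E m) : 0 ≤ p2X M z :=
  Finset.sum_nonneg fun _ _ => sq_nonneg _

private theorem p2X_pos (M : Sys m) (hM : Good M) {z : E m} (hz : 0 < q M z 0) : 0 < p2X M z := by
  rcases (p2X_nonneg M z).lt_or_eq with h | h
  · exact h
  · exfalso
    have h1 : ∀ j : Fin m, (phi M z j.succ).re - q M z j.succ / q M z 0 * (phi M z 0).re = 0 := by
      intro j
      have h2 := (Finset.sum_eq_zero_iff_of_nonneg (fun j _ => sq_nonneg _)).1 h.symm j (Finset.mem_univ j)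
      exact pow_eq_zero_iff (two_ne_zero) |>.1 h2
    set c : ℂ := phi M z 0 / ((q M z 0 : ℝ) : ℂ) with hc
    have hq0 : ((q M z 0 : ℝ) : ℂ) ≠ 0 := by
      exact_mod_cast hz.ne'
    have hphi0 := p2_ne hz
    have hc0 : c ≠ 0 := div_ne_zero hphi0 hq0
    have h2 : ∀ j : Fin (m + 1), phi M z j = c * ((q M z j : ℝ) : ℂ) := by
      intro j
      refine Fin.cases ?_ (fun i => ?_) j
      · rw [hc, div_mul_cancel₀ _ hq0]
      · have h3 := p2_quot M hz i
        rw [h1 i, Complex.ofReal_zero, zero_div, sub_eq_zero, div_eq_iff hphi0] at h3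
        rw [h3, hc]
        push_cast
        field_simp
    obtain ⟨s, hs⟩ := IsAlgClosed.exists_pow_nat_eq ((starRingEnd ℂ) c) (n := 2) two_pos
    have hs0 : s ≠ 0 := by
      rintro rfl
      rw [zero_pow two_ne_zero] at hs
      exact hc0 ((map_eq_zero _).1 hs.symm)
    have h4 : q M (s • z) = 0 := by
      funext j
      show (phi M (s • z) j).im = 0
      rw [phi_smul, hs, h2 j, ← mul_assoc, mul_comm ((starRingEnd ℂ) c) c, Complex.mul_conj,
        ← Complex.ofReal_mul, Complex.ofReal_im]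
    have h5 := hM.2 _ h4
    have h6 : z = 0 := by
      rcases smul_eq_zero.1 h5 with h | h
      · exact absurd h hs0
      · exact h
    rw [h6] at hphi0
    apply hphi0
    unfold phi
    simp

private theorem p2_s0_region (M : Sys m) (hM : Good M) {z : E m} (hz : 0 < q M z 0) :
    (s0 M z).im ≠ 0 ∨ (s0 M z).re < 0 := by
  by_contra hcon
  push Not at hcon
  obtain ⟨h1, h2⟩ := hcon
  have h0 := p2_ne hz
  have hX := p2X_pos M hM hz
  have h3 : s0 M z * (phi M z 0) ^ 2 = ((p2X M z : ℝ) : ℂ) := by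
    rw [p2_s0 M hz, div_mul_cancel₀ _ (pow_ne_zero 2 h0)]
  have h4 : s0 M z = (((s0 M z).re : ℝ) : ℂ) := by
    apply Complex.ext
    · rw [Complex.ofReal_re]
    · rw [Complex.ofReal_im, h1]
  rw [h4] at h3
  set r := (s0 M z).re with hr
  have h5 := congrArg Complex.re h3
  have h6 := congrArg Complex.im h3
  rw [Complex.re_ofReal_mul, Complex.ofReal_re] at h5
  rw [Complex.im_ofReal_mul, Complex.ofReal_im] at h6
  have h7 : ((phi M z 0) ^ 2).re = (phi M z 0).re ^ 2 - (phi M z 0).im ^ 2 := by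
    rw [pow_two, Complex.mul_re]
    ring
  have h8 : ((phi M z 0) ^ 2).im = 2 * ((phi M z 0).re * (phi M z 0).im) := by
    rw [pow_two, Complex.mul_im]
    ring
  have h9 : 0 < (phi M z 0).im := hz
  rw [h7] at h5
  rw [h8] at h6
  have hr0 : r ≠ 0 := by
    intro h
    rw [h, zero_mul] at h5
    linarith
  have h10 : (phi M z 0).re = 0 := by
    have h11 : (phi M z 0).re * (phi M z 0).im = 0 := by
      have := (mul_eq_zero.1 h6).resolve_left hr0
      linarith
    exact (mul_eq_zero.1 h11).resolve_right h9.ne'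
  rw [h10] at h5
  nlinarith [mul_nonneg h2 (sq_nonneg (phi M z 0).im)]

private theorem p2_mem (M : Sys m) (z : E m) : z ∈ U M l0 ↔ 0 < q M z 0 := mem_U_single M 0 z

private theorem p2_s0_cont (M : Sys m) : ContinuousOn (s0 M) (U M l0) := by
  unfold s0
  apply continuousOn_finsetSum
  intro j _
  apply ContinuousOn.pow
  apply ContinuousOn.sub
  · apply ContinuousOn.div (p2_phi_cont M _).continuousOn (p2_phi_cont M _).continuousOn
    intro z hz
    exact p2_ne ((p2_mem M z).1 hz)
  · apply Complex.continuous_ofReal.comp_continuousOn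
    apply ContinuousOn.div (p2_q_cont M _).continuousOn (p2_q_cont M _).continuousOn
    intro z hz
    exact ((p2_mem M z).1 hz).ne'

/-- a function with positive values of a real functional has nonzero integral -/
private theorem p2_int_ne {G : E m → ℂ} (hG : Continuous G) (hc : HasCompactSupport G) (L : ℂ →L[ℝ] ℝ)
    (h0 : ∀ z, 0 ≤ L (G z)) {z₀ : E m} (h1 : 0 < L (G z₀)) : ∫ z, G z ≠ 0 := by
  intro h
  have h2 : 0 < ∫ z, L (G z) := by
    apply Continuous.integral_pos_of_hasCompactSupport_nonneg_nonzero (x := z₀)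
    · exact L.continuous.comp hG
    · exact hc.comp_left (map_zero L)
    · exact h0
    · exact h1.ne'
  rw [L.integral_comp_comm (hG.integrable_of_hasCompactSupport hc), h, map_zero] at h2
  exact lt_irrefl 0 h2

private theorem p2_mult (M : Sys m) (hM : Good M) (z : E m) (hz : 0 < q M z 0) (n : ℕ) (a : ℂ) :
    a * ((phi M z 0) ^ (2 * n))⁻¹ * ((s0 M z) ^ n)⁻¹ = a * (((p2X M z ^ n)⁻¹ : ℝ) : ℂ) := by
  have h0 := p2_ne hz
  have hX : ((p2X M z : ℝ) : ℂ) ≠ 0 := by exact_mod_cast (p2X_pos M hM hz).ne'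
  rw [p2_s0 M hz, div_pow, ← pow_mul]
  push_cast
  field_simp

theorem positivity_false (M : Sys m) (hM : Good M) {z₀ : E m}
    (hz : 0 < q M z₀ 0) (hP : P M z₀ (toC (q M z₀)) ≠ 0)
    (h : ∀ f : V m → ℝ, Test l0 f → ∀ p : Polynomial ℂ,
      ∫ z : E m, ((f (q M z) : ℝ) : ℂ) *
      (((Complex.normSq (P M z (toC (q M z))) : ℝ) : ℂ) * ((phi M z 0) ^ m)⁻¹ *
        p.eval (s0 M z)) = 0) : False := by
  have hy : q M z₀ ∈ H l0 := (p2_mem M z₀).2 hz
  obtain ⟨f, hf, hf0, hfz, -, -⟩ := exists_test hy one_pos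
  set K : Set ℂ := s0 M '' (q M ⁻¹' (tsupport f)) with hKdef
  have hsub : q M ⁻¹' (tsupport f) ⊆ U M l0 := fun z hz => hf.supp hz
  have hcomp : IsCompact (q M ⁻¹' (tsupport f)) := isCompact_preimage M hM hf.compact
  have hK : IsCompact K := hcomp.image_of_continuousOn ((p2_s0_cont M).mono hsub)
  have hKr : ∀ x ∈ K, x.im ≠ 0 ∨ x.re < 0 := by
    rintro x ⟨z, hz, rfl⟩
    exact p2_s0_region M hM ((p2_mem M z).1 (hsub hz))
  set n : ℕ := m / 2 with hn
  set w : E m → ℂ := fun z => ((Complex.normSq (P M z (toC (q M z))) : ℝ) : ℂ) * ((phi M z 0) ^ m)⁻¹ with hw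
  have hwc : ContinuousOn w (U M l0) := by
    apply ContinuousOn.mul
    · exact (Complex.continuous_ofReal.comp (Complex.continuous_normSq.comp (p2_P_cont M))).continuousOn
    · apply ContinuousOn.inv₀ ((p2_phi_cont M 0).pow m).continuousOn
      intro z hz
      exact pow_ne_zero _ (p2_ne ((p2_mem M z).1 hz))
  have hsc : ContinuousOn (fun z => ((s0 M z) ^ n)⁻¹) (U M l0) := by
    apply ContinuousOn.inv₀ ((p2_s0_cont M).pow n)
    intro z hz
    have hz' := (p2_mem M z).1 hz
    apply pow_ne_zero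
    rw [p2_s0 M hz']
    exact div_ne_zero (by exact_mod_cast (p2X_pos M hM hz').ne') (pow_ne_zero 2 (p2_ne hz'))
  set G : E m → ℂ := fun z => ((f (q M z) : ℝ) : ℂ) * (w z * ((s0 M z) ^ n)⁻¹) with hG
  have hGcont : Continuous G := continuous_nice M hf.ctest (hwc.mul hsc)
  have hGint : Integrable G := integrable_nice M hM hf.ctest (hwc.mul hsc)
  have hGcomp : HasCompactSupport G := by
    apply HasCompactSupport.intro hcomp
    intro z hz
    have : f (q M z) = 0 := image_eq_zero_of_notMem_tsupport hz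
    rw [hG]
    simp only
    rw [this, Complex.ofReal_zero, zero_mul]
  have hF : Integrable (fun z => ((f (q M z) : ℝ) : ℂ) * w z) := integrable_nice M hM hf.ctest hwc
  have hzero : ∫ z, G z = 0 := by
    set B : ℝ := ∫ z, ‖((f (q M z) : ℝ) : ℂ) * w z‖ with hB
    have hB0 : 0 ≤ B := integral_nonneg fun _ => norm_nonneg _
    by_contra hne
    have hpos : 0 < ‖∫ z, G z‖ := norm_pos_iff.2 hne
    obtain ⟨p, hp⟩ := runge hK hKr n (ε := ‖∫ z, G z‖ / (2 * (B + 1))) (by positivity)
    have hpc : ContinuousOn (fun z => p.eval (s0 M z)) (U M l0) :=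
      p.continuous.comp_continuousOn (p2_s0_cont M)
    have hpi : Integrable (fun z => ((f (q M z) : ℝ) : ℂ) * (w z * p.eval (s0 M z))) :=
      integrable_nice M hM hf.ctest (hwc.mul hpc)
    have h1 : ∫ z, ((f (q M z) : ℝ) : ℂ) * (w z * p.eval (s0 M z)) = 0 := h f hf p
    have h2 : ∫ z, G z = ∫ z, (G z - ((f (q M z) : ℝ) : ℂ) * (w z * p.eval (s0 M z))) := by
      rw [integral_sub hGint hpi, h1, sub_zero]
    have h3 : ‖∫ z, G z‖ ≤ ∫ z, ‖((f (q M z) : ℝ) : ℂ) * w z‖ * (‖∫ z, G z‖ / (2 * (B + 1))) := by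
      rw [h2]
      refine norm_integral_le_of_norm_le (hF.norm.mul_const _) (Filter.Eventually.of_forall fun z => ?_)
      rw [← h2]
      have h4 : G z - ((f (q M z) : ℝ) : ℂ) * (w z * p.eval (s0 M z)) =
          ((f (q M z) : ℝ) : ℂ) * w z * (((s0 M z) ^ n)⁻¹ - p.eval (s0 M z)) := by
        rw [hG]
        ring
      rw [h4, norm_mul]
      by_cases hz' : q M z ∈ tsupport f
      · apply mul_le_mul_of_nonneg_left _ (norm_nonneg _)
        rw [← norm_neg, neg_sub]
        exact (hp _ ⟨z, hz', rfl⟩).le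
      · have : f (q M z) = 0 := image_eq_zero_of_notMem_tsupport hz'
        rw [this]
        simp
    rw [integral_mul_const, ← hB] at h3
    have h5 : B * (‖∫ z, G z‖ / (2 * (B + 1))) < ‖∫ z, G z‖ := by
      rw [mul_div_assoc', div_lt_iff₀ (by positivity)]
      nlinarith
    linarith
  -- the sign
  have hval : ∀ z, 0 < q M z 0 → ((s0 M z) ^ n)⁻¹ = ((phi M z 0) ^ (2 * n)) * (((p2X M z ^ n)⁻¹ : ℝ) : ℂ) := by
    intro z hz
    have h0 := p2_ne hz
    have h1 := p2_mult M hM z hz n ((phi M z 0) ^ (2 * n))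
    rw [mul_inv_cancel₀ (pow_ne_zero _ h0), one_mul] at h1
    exact h1
  have hout : ∀ z, ¬ 0 < q M z 0 → G z = 0 := by
    intro z hz
    have h1 : q M z ∉ tsupport f := fun h => hz ((p2_mem M z).1 (hsub h))
    have : f (q M z) = 0 := image_eq_zero_of_notMem_tsupport h1
    rw [hG]
    simp only
    rw [this, Complex.ofReal_zero, zero_mul]
  rcases Nat.even_or_odd' m with ⟨k, hk | hk⟩
  · have hnk : n = k := by omega
    have hform : ∀ z, 0 < q M z 0 → G z =
        ((f (q M z) * (Complex.normSq (P M z (toC (q M z))) * (p2X M z ^ n)⁻¹) : ℝ) : ℂ) := by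
      intro z hz
      have h0 := p2_ne hz
      rw [hG]
      simp only
      rw [hval z hz, hw]
      simp only
      have h1 : (phi M z 0) ^ m = (phi M z 0) ^ (2 * n) := by rw [hnk, ← hk]
      rw [h1]
      push_cast
      have h2 : (phi M z 0) ^ (2 * n) ≠ 0 := pow_ne_zero _ h0
      field_simp
    apply p2_int_ne hGcont hGcomp Complex.reCLM (z₀ := z₀) _ _ hzero
    · intro z
      by_cases hz' : 0 < q M z 0
      · rw [hform z hz', Complex.reCLM_apply, Complex.ofReal_re]
        have := p2X_nonneg M z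
        have := hf0 (q M z)
        have := Complex.normSq_nonneg (P M z (toC (q M z)))
        positivity
      · rw [hout z hz']
        simp
    · rw [hform z₀ hz, Complex.reCLM_apply, Complex.ofReal_re]
      have h1 := p2X_pos M hM hz
      have h2 := Complex.normSq_pos.2 hP
      positivity
  · have hnk : n = k := by omega
    have hform : ∀ z, 0 < q M z 0 → G z =
        ((f (q M z) * (Complex.normSq (P M z (toC (q M z))) * (p2X M z ^ n)⁻¹) : ℝ) : ℂ) * (phi M z 0)⁻¹ := by
      intro z hz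
      have h0 := p2_ne hz
      rw [hG]
      simp only
      rw [hval z hz, hw]
      simp only
      have h1 : (phi M z 0) ^ m = (phi M z 0) ^ (2 * n) * phi M z 0 := by
        rw [← pow_succ, hnk, ← hk]
      rw [h1]
      push_cast
      have h2 : (phi M z 0) ^ (2 * n) ≠ 0 := pow_ne_zero _ h0
      field_simp
    have hLval : ∀ z, 0 < q M z 0 → (-Complex.imCLM) (G z) =
        (f (q M z) * (Complex.normSq (P M z (toC (q M z))) * (p2X M z ^ n)⁻¹)) *
          (q M z 0 / Complex.normSq (phi M z 0)) := by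
      intro z hz
      rw [hform z hz]
      show -((((f (q M z) * (Complex.normSq (P M z (toC (q M z))) * (p2X M z ^ n)⁻¹) : ℝ) : ℂ) * (phi M z 0)⁻¹).im) = _
      rw [Complex.im_ofReal_mul, Complex.inv_im]
      show -((f (q M z) * (Complex.normSq (P M z (toC (q M z))) * (p2X M z ^ n)⁻¹)) *
        (-(q M z 0) / Complex.normSq (phi M z 0))) = _
      ring
    apply p2_int_ne hGcont hGcomp (-Complex.imCLM) (z₀ := z₀) _ _ hzero
    · intro z
      by_cases hz' : 0 < q M z 0
      · rw [hLval z hz']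
        have := p2X_nonneg M z
        have := hf0 (q M z)
        have := Complex.normSq_nonneg (P M z (toC (q M z)))
        have := Complex.normSq_nonneg (phi M z 0)
        positivity
      · rw [hout z hz']
        simp
    · rw [hLval z₀ hz]
      have h1 := p2X_pos M hM hz
      have h2 := Complex.normSq_pos.2 hP
      have h3 := Complex.normSq_pos.2 (p2_ne hz)
      positivity

end Pool.Agent.Lib.MP_7fdaab_ag.KP
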