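import Pool.Agent.Lib.MP_7fdaab_ag.KP.Rec
import Pool.Agent.Lib.MP_7fdaab_ag.KP.Pos1
import Pool.Agent.Lib.MP_7fdaab_ag.KP.Pos2

/-!
hop_mod row ExNe (assembly).
-/

namespace Pool.Agent.Lib.MP_7fdaab_ag.KP

open Matrix MeasureTheory

variable {m : ℕ}

theorem exists_ne (M : Sys m) (hM : Good M) (hdet : (M 0).det ≠ 0) (hm : 2 ≤ m) {z₀ : E m}
    (hz : 0 < q M z₀ 0) (hP : P M z₀ (toC (q M z₀)) ≠ 0) :
    ∃ (N : ℕ) (f : V m → ℝ), 2 * N = m ∧ Test l0 f ∧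
      D M (fun z => ((phi M z 0) ^ N)⁻¹) f ≠ 0 := by
  by_contra hcon
  push Not at hcon
  refine positivity_false M hM hz hP (fun f hf p => null_poly M hM ?_ hf p)
  intro d N h g hN hh hg
  exact rec_zero M hM hdet hm (fun f hf N hN => hcon N f hN hf) hN hh hg

end Pool.Agent.Lib.MP_7fdaab_ag.KP
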