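import Pool.Agent.Lib.MP_7fdaab_ag.KP.NoGood
import Pool.Agent.Lib.MP_7fdaab_ag.Heis.Sharp

/-!
hop_mod row Final: translation to quadratic forms.  A system without nonzero real value of `r`
forms in `m >= r - 1` variables, restricted to the first `r - 1` variables, is a good system of
symmetric matrices; `no_good` excludes it for `r >= 4`.
-/

namespace Pool.Agent.Lib.MP_7fdaab_ag.KP

open Matrix MeasureTheory
open Pool.Agent.Lib.MP_7fdaab_ag.Heis

private theorem form_eq {n : ℕ} (Q : QuadraticForm ℂ (Fin n → ℂ)) (z : Fin n → ℂ) :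
    z ⬝ᵥ (QuadraticForm.toMatrix' Q).mulVec z = Q z := by
  rw [← QuadraticMap.associated_eq_self_apply ℂ Q z, ← Matrix.toLinearMap₂'_apply',
    QuadraticForm.toMatrix', Matrix.toLinearMap₂'_toMatrix']

/-- extension by zero -/
private def ext (n m : ℕ) : (Fin n → ℂ) →ₗ[ℂ] (Fin m → ℂ) where
  toFun z := fun i => if h : (i : ℕ) < n then z ⟨i, h⟩ else 0
  map_add' x y := by
    funext i
    by_cases h : (i : ℕ) < n <;> simp [h]
  map_smul' c x := by
    funext i
    by_cases h : (i : ℕ) < n <;> simp [h]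

private theorem ext_inj {n m : ℕ} (h : n ≤ m) (z : Fin n → ℂ) (hz : ext n m z = 0) : z = 0 := by
  funext i
  have := congrFun hz (Fin.castLE h i)
  simpa [ext] using this

theorem upper {r m : ℕ} (hr : 4 ≤ r) (φ : Fin r → QuadraticForm ℂ (Fin m → ℂ))
    (hφ : NoRealValue φ) : m + 2 ≤ r := by
  by_contra hcon
  obtain ⟨n, rfl⟩ : ∃ n, r = n + 1 := ⟨r - 1, by omega⟩
  have hnm : n ≤ m := by omega
  let M : Sys n := fun j => QuadraticForm.toMatrix' ((φ j).comp (ext n m))
  have hphi : ∀ z j, phi M z j = φ j (ext n m z) := by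
    intro z j
    unfold phi
    exact form_eq _ z
  refine no_good (m := n) (by omega) M ⟨fun j => QuadraticForm.isSymm_toMatrix' _, ?_⟩
  intro z hz
  apply ext_inj hnm
  by_contra hne
  obtain ⟨j, hj⟩ := hφ _ hne
  apply hj
  rw [← hphi]
  exact congrFun hz j

theorem final :
    (∀ r m : ℕ, 4 ≤ r → (∃ φ : Fin r → QuadraticForm ℂ (Fin m → ℂ), NoRealValue φ) →
      m + 2 ≤ r) ∧
    IsGreatest {m : ℕ | ∃ φ : Fin 5 → QuadraticForm ℂ (Fin m → ℂ), NoRealValue φ} 3 := by
  refine ⟨fun r m hr ⟨φ, hφ⟩ => upper hr φ hφ, ⟨?_, ?_⟩⟩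
  · exact ⟨pad (exSign 3) 5, pad_no _ (by norm_num) (exSign_no 3)⟩
  · rintro m ⟨φ, hφ⟩
    have := upper (by norm_num) φ hφ
    omega

end Pool.Agent.Lib.MP_7fdaab_ag.KP
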