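import Pool.Agent.Lib.MP_7fdaab_ag.KP.FourDefs

/-!
hop_mod row Four1 (100-150 lines): the Fourier relations.
PROOF.  `St S T θ = (1/2) (e^{iθ} (S - i T) + e^{-iθ} (S + i T))`.  Multiply `St * St⁻¹ = 1` and
`St⁻¹ * St = 1` by `e^{-inθ} / 2π` and integrate: `relR`, `relL` (the integral of `e^{-inθ}` over the
circle is `2π` for `n = 0` and 0 otherwise).  `Gc_tendsto`: Riemann-Lebesgue for a continuous function on
`[0, 2π]` (e.g. `tendsto_integral_exp_smul_cocompact`, or Bessel, or: shift by `π/n` and uniform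
continuity of the 2π-periodic function).  `Gc_symm`: the inverse of a symmetric matrix is symmetric.
`Gc_neg`: `St (-S) (-T) = - St S T`, so `Gc (-S) (-T) n = - Gc S T n`.
`Gc_flip`: `St S (-T) θ = St S T (-θ)`, substitute `θ ↦ -θ` (periodicity): `Gc S (-T) n = Gc S T (-n)`.
`Gc_continuous`: continuity of the entries in the pair `(S,T)` on the set `Reg` (continuous integrand on
a compact interval: `intervalIntegral.continuousAt_of_dominated_interval` or
`continuous_parametric_intervalIntegral`; the inverse is `adjugate / det`); stated for a continuous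
family over a topological space.
-/

namespace Pool.Agent.Lib.MP_7fdaab_ag.KP

open Matrix MeasureTheory

variable {m : ℕ}

private theorem f1_inv (A : Matrix (Fin m) (Fin m) ℂ) (i j : Fin m) :
    A⁻¹ i j = A.det⁻¹ * A.adjugate i j := by
  rw [Matrix.inv_def, Matrix.smul_apply, smul_eq_mul, Ring.inverse_eq_inv']

private theorem f1_cont (S T : Matrix (Fin m) (Fin m) ℂ) (h : Reg S T) (i j : Fin m) :
    Continuous fun θ : ℝ => ((St S T θ)⁻¹) i j := by
  have hSt : Continuous fun θ : ℝ => St S T θ := by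
    unfold St
    refine Continuous.add ?_ ?_
    · exact (Complex.continuous_ofReal.comp Real.continuous_cos).smul continuous_const
    · exact (Complex.continuous_ofReal.comp Real.continuous_sin).smul continuous_const
  simp_rw [f1_inv]
  exact (hSt.matrix_det.inv₀ h).mul (hSt.matrix_adjugate.matrix_elem i j)

private theorem f1_E (n : ℤ) :
    (∫ θ in (0 : ℝ)..(2 * Real.pi), Complex.exp (-(Complex.I * (n : ℂ) * ((θ : ℝ) : ℂ)))) =
      if n = 0 then (2 * Real.pi : ℂ) else 0 := by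
  split_ifs with h
  · subst h
    simp
  · have hc : (-(Complex.I * (n : ℂ))) ≠ 0 := by
      have : (n : ℂ) ≠ 0 := by exact_mod_cast h
      simp [this]
    have h1 : ∀ θ : ℝ, Complex.exp (-(Complex.I * (n : ℂ) * ((θ : ℝ) : ℂ))) =
        Complex.exp ((-(Complex.I * (n : ℂ))) * (θ : ℂ)) := by
      intro θ
      congr 1
      ring
    simp_rw [h1]
    rw [integral_exp_mul_complex hc]
    have h2 : Complex.exp (-(Complex.I * (n : ℂ)) * ((2 * Real.pi : ℝ) : ℂ)) = 1 := by
      rw [Complex.exp_eq_one_iff]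
      refine ⟨-n, ?_⟩
      push_cast
      ring
    rw [h2]
    simp

private theorem f1_Em (n : ℤ) (θ : ℝ) :
    Complex.exp (-(Complex.I * ((n - 1 : ℤ) : ℂ) * ((θ : ℝ) : ℂ))) =
      Complex.exp (-(Complex.I * (n : ℂ) * ((θ : ℝ) : ℂ))) * (Real.cos θ + Complex.I * Real.sin θ) := by
  have h1 : (((Real.cos θ : ℝ) : ℂ) + Complex.I * ((Real.sin θ : ℝ) : ℂ)) = Complex.exp (θ * Complex.I) := by
    rw [Complex.exp_mul_I]
    push_cast
    ring
  rw [h1, ← Complex.exp_add]
  congr 1
  push_cast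
  ring

private theorem f1_Ep (n : ℤ) (θ : ℝ) :
    Complex.exp (-(Complex.I * ((n + 1 : ℤ) : ℂ) * ((θ : ℝ) : ℂ))) =
      Complex.exp (-(Complex.I * (n : ℂ) * ((θ : ℝ) : ℂ))) * (Real.cos θ - Complex.I * Real.sin θ) := by
  have h1 : (((Real.cos θ : ℝ) : ℂ) - Complex.I * ((Real.sin θ : ℝ) : ℂ)) = Complex.exp (((-θ : ℝ) : ℂ) * Complex.I) := by
    rw [Complex.exp_mul_I, ← Complex.ofReal_cos, ← Complex.ofReal_sin, Real.cos_neg, Real.sin_neg]
    push_cast
    ring
  rw [h1, ← Complex.exp_add]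
  congr 1
  push_cast
  ring

private theorem f1_Ec (n : ℤ) :
    Continuous fun θ : ℝ => Complex.exp (-(Complex.I * (n : ℂ) * ((θ : ℝ) : ℂ))) := by
  refine Complex.continuous_exp.comp ?_
  exact (continuous_const.mul Complex.continuous_ofReal).neg

private theorem f1_pi : (1 / (2 * Real.pi) : ℂ) * (2 * Real.pi : ℂ) = 1 := by
  have : (Real.pi : ℂ) ≠ 0 := by exact_mod_cast Real.pi_ne_zero
  field_simp

theorem relR (S T : Matrix (Fin m) (Fin m) ℂ) (h : Reg S T) (n : ℤ) :
    (1 / 2 : ℂ) • ((S - Complex.I • T) * Gc S T (n - 1) + (S + Complex.I • T) * Gc S T (n + 1)) =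
      if n = 0 then 1 else 0 := by
  ext i j
  have hR : (if n = 0 then (1 : Matrix (Fin m) (Fin m) ℂ) else 0) i j =
      (1 / (2 * Real.pi) : ℂ) * ∫ θ in (0 : ℝ)..(2 * Real.pi),
        Complex.exp (-(Complex.I * (n : ℂ) * ((θ : ℝ) : ℂ))) * (St S T θ * (St S T θ)⁻¹) i j := by
    have h1 : ∀ θ : ℝ, St S T θ * (St S T θ)⁻¹ = 1 := fun θ =>
      Matrix.mul_nonsing_inv _ (isUnit_iff_ne_zero.2 (h θ))
    simp_rw [h1]
    rw [intervalIntegral.integral_mul_const, f1_E]
    split_ifs with h0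
    · rw [← mul_assoc, f1_pi, one_mul]
    · simp
  rw [hR]
  have hint : ∀ (l : ℤ) (k : Fin m), IntervalIntegrable (fun θ : ℝ =>
      Complex.exp (-(Complex.I * (l : ℂ) * ((θ : ℝ) : ℂ))) * ((St S T θ)⁻¹) k j) volume 0 (2 * Real.pi) :=
    fun l k => ((f1_Ec l).mul (f1_cont S T h k j)).intervalIntegrable _ _
  have hsum : ∀ θ : ℝ, Complex.exp (-(Complex.I * (n : ℂ) * ((θ : ℝ) : ℂ))) * (St S T θ * (St S T θ)⁻¹) i j =
      ∑ k, (((1 / 2 : ℂ) * (S i k - Complex.I * T i k)) *
        (Complex.exp (-(Complex.I * ((n - 1 : ℤ) : ℂ) * ((θ : ℝ) : ℂ))) * ((St S T θ)⁻¹) k j) +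
        ((1 / 2 : ℂ) * (S i k + Complex.I * T i k)) *
        (Complex.exp (-(Complex.I * ((n + 1 : ℤ) : ℂ) * ((θ : ℝ) : ℂ))) * ((St S T θ)⁻¹) k j)) := by
    intro θ
    rw [Matrix.mul_apply, Finset.mul_sum]
    refine Finset.sum_congr rfl fun k _ => ?_
    rw [f1_Em, f1_Ep]
    have h2 : St S T θ i k = ((Real.cos θ : ℝ) : ℂ) * S i k + ((Real.sin θ : ℝ) : ℂ) * T i k := by
      simp [St]
    rw [h2]
    linear_combination (Complex.exp (-(Complex.I * (n : ℂ) * ((θ : ℝ) : ℂ))) * ((St S T θ)⁻¹) k j *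
      ((Real.sin θ : ℝ) : ℂ) * T i k) * Complex.I_sq
  simp_rw [hsum]
  rw [intervalIntegral.integral_finsetSum (fun k _ => ((hint _ k).const_mul _).add ((hint _ k).const_mul _))]
  rw [Finset.mul_sum, Matrix.smul_apply, Matrix.add_apply, Matrix.mul_apply, Matrix.mul_apply,
    ← Finset.sum_add_distrib, smul_eq_mul, Finset.mul_sum]
  refine Finset.sum_congr rfl fun k _ => ?_
  rw [intervalIntegral.integral_add ((hint _ k).const_mul _) ((hint _ k).const_mul _),
    intervalIntegral.integral_const_mul, intervalIntegral.integral_const_mul]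
  simp only [Gc, Matrix.of_apply, Matrix.sub_apply, Matrix.add_apply, Matrix.smul_apply, smul_eq_mul]
  ring

theorem relL (S T : Matrix (Fin m) (Fin m) ℂ) (h : Reg S T) (n : ℤ) :
    (1 / 2 : ℂ) • (Gc S T (n - 1) * (S - Complex.I • T) + Gc S T (n + 1) * (S + Complex.I • T)) =
      if n = 0 then 1 else 0 := by
  ext i j
  have hR : (if n = 0 then (1 : Matrix (Fin m) (Fin m) ℂ) else 0) i j =
      (1 / (2 * Real.pi) : ℂ) * ∫ θ in (0 : ℝ)..(2 * Real.pi),
        Complex.exp (-(Complex.I * (n : ℂ) * ((θ : ℝ) : ℂ))) * ((St S T θ)⁻¹ * St S T θ) i j := by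
    have h1 : ∀ θ : ℝ, (St S T θ)⁻¹ * St S T θ = 1 := fun θ =>
      Matrix.nonsing_inv_mul _ (isUnit_iff_ne_zero.2 (h θ))
    simp_rw [h1]
    rw [intervalIntegral.integral_mul_const, f1_E]
    split_ifs with h0
    · rw [← mul_assoc, f1_pi, one_mul]
    · simp
  rw [hR]
  have hint : ∀ (l : ℤ) (k : Fin m), IntervalIntegrable (fun θ : ℝ =>
      Complex.exp (-(Complex.I * (l : ℂ) * ((θ : ℝ) : ℂ))) * ((St S T θ)⁻¹) i k) volume 0 (2 * Real.pi) :=
    fun l k => ((f1_Ec l).mul (f1_cont S T h i k)).intervalIntegrable _ _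
  have hsum : ∀ θ : ℝ, Complex.exp (-(Complex.I * (n : ℂ) * ((θ : ℝ) : ℂ))) * ((St S T θ)⁻¹ * St S T θ) i j =
      ∑ k, (((1 / 2 : ℂ) * (S k j - Complex.I * T k j)) *
        (Complex.exp (-(Complex.I * ((n - 1 : ℤ) : ℂ) * ((θ : ℝ) : ℂ))) * ((St S T θ)⁻¹) i k) +
        ((1 / 2 : ℂ) * (S k j + Complex.I * T k j)) *
        (Complex.exp (-(Complex.I * ((n + 1 : ℤ) : ℂ) * ((θ : ℝ) : ℂ))) * ((St S T θ)⁻¹) i k)) := by
    intro θ
    rw [Matrix.mul_apply, Finset.mul_sum]
    refine Finset.sum_congr rfl fun k _ => ?_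
    rw [f1_Em, f1_Ep]
    have h2 : St S T θ k j = ((Real.cos θ : ℝ) : ℂ) * S k j + ((Real.sin θ : ℝ) : ℂ) * T k j := by
      simp [St]
    rw [h2]
    linear_combination (Complex.exp (-(Complex.I * (n : ℂ) * ((θ : ℝ) : ℂ))) * ((St S T θ)⁻¹) i k *
      ((Real.sin θ : ℝ) : ℂ) * T k j) * Complex.I_sq
  simp_rw [hsum]
  rw [intervalIntegral.integral_finsetSum (fun k _ => ((hint _ k).const_mul _).add ((hint _ k).const_mul _))]
  rw [Finset.mul_sum, Matrix.smul_apply, Matrix.add_apply, Matrix.mul_apply, Matrix.mul_apply,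
    ← Finset.sum_add_distrib, smul_eq_mul, Finset.mul_sum]
  refine Finset.sum_congr rfl fun k _ => ?_
  rw [intervalIntegral.integral_add ((hint _ k).const_mul _) ((hint _ k).const_mul _),
    intervalIntegral.integral_const_mul, intervalIntegral.integral_const_mul]
  simp only [Gc, Matrix.of_apply, Matrix.sub_apply, Matrix.add_apply, Matrix.smul_apply, smul_eq_mul]
  ring

private theorem f1_RL (g : ℝ → ℂ) (φ : ℕ → ℝ) (hφ : Filter.Tendsto φ Filter.atTop (Filter.cocompact ℝ)) :
    Filter.Tendsto (fun n : ℕ => ∫ θ in (0 : ℝ)..(2 * Real.pi),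
      Complex.exp (-(Complex.I * ((2 * Real.pi * φ n : ℝ) : ℂ) * ((θ : ℝ) : ℂ))) * g θ) Filter.atTop (nhds 0) := by
  have h1 := (Real.tendsto_integral_exp_smul_cocompact
    ((Set.Ioc (0 : ℝ) (2 * Real.pi)).indicator g)).comp hφ
  refine h1.congr fun n => ?_
  rw [intervalIntegral.integral_of_le (by positivity), ← integral_indicator measurableSet_Ioc]
  simp only [Function.comp]
  refine integral_congr_ae (Filter.Eventually.of_forall fun θ => ?_)
  by_cases hθ : θ ∈ Set.Ioc (0 : ℝ) (2 * Real.pi)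
  · simp only [Set.indicator_of_mem hθ]
    rw [Circle.smul_def, Real.fourierChar_apply, smul_eq_mul]
    congr 2
    push_cast
    ring
  · simp only [Set.indicator_of_notMem hθ, smul_zero]

theorem Gc_tendsto (S T : Matrix (Fin m) (Fin m) ℂ) (h : Reg S T) (i j : Fin m) :
    Filter.Tendsto (fun n : ℕ => Gc S T (n : ℤ) i j) Filter.atTop (nhds 0) ∧
    Filter.Tendsto (fun n : ℕ => Gc S T (-(n : ℤ)) i j) Filter.atTop (nhds 0) := by
  have hp : (0 : ℝ) < 2 * Real.pi := by positivity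
  have ha : Filter.Tendsto (fun n : ℕ => (n : ℝ) / (2 * Real.pi)) Filter.atTop (Filter.cocompact ℝ) := by
    refine (Filter.Tendsto.atTop_div_const hp tendsto_natCast_atTop_atTop).mono_right ?_
    rw [cocompact_eq_atBot_atTop]
    exact le_sup_right
  have hb : Filter.Tendsto (fun n : ℕ => -((n : ℝ) / (2 * Real.pi))) Filter.atTop (Filter.cocompact ℝ) := by
    refine (Filter.tendsto_neg_atTop_atBot.comp
      (Filter.Tendsto.atTop_div_const hp tendsto_natCast_atTop_atTop)).mono_right ?_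
    rw [cocompact_eq_atBot_atTop]
    exact le_sup_left
  have hpc : (Real.pi : ℂ) ≠ 0 := by exact_mod_cast Real.pi_ne_zero
  constructor
  · have h1 := (f1_RL (fun θ => ((St S T θ)⁻¹) i j) _ ha).const_mul (1 / (2 * Real.pi) : ℂ)
    rw [mul_zero] at h1
    refine h1.congr fun n => ?_
    simp only [Gc, Matrix.of_apply]
    congr 1
    refine intervalIntegral.integral_congr fun θ _ => ?_
    congr 2
    push_cast
    field_simp
  · have h1 := (f1_RL (fun θ => ((St S T θ)⁻¹) i j) _ hb).const_mul (1 / (2 * Real.pi) : ℂ)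
    rw [mul_zero] at h1
    refine h1.congr fun n => ?_
    simp only [Gc, Matrix.of_apply]
    congr 1
    refine intervalIntegral.integral_congr fun θ _ => ?_
    congr 2
    push_cast
    field_simp

theorem Gc_symm (S T : Matrix (Fin m) (Fin m) ℂ) (hS : S.IsSymm) (hT : T.IsSymm) (n : ℤ) :
    (Gc S T n).IsSymm := by
  ext i j
  simp only [Gc, Matrix.transpose_apply, Matrix.of_apply]
  congr 1
  refine intervalIntegral.integral_congr fun θ _ => ?_
  congr 1
  have h1 : (St S T θ)ᵀ = St S T θ := by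
    unfold St
    rw [Matrix.transpose_add, Matrix.transpose_smul, Matrix.transpose_smul, hS.eq, hT.eq]
  have h2 : ((St S T θ)⁻¹)ᵀ = (St S T θ)⁻¹ := by
    rw [Matrix.transpose_nonsing_inv, h1]
  calc ((St S T θ)⁻¹) j i = (((St S T θ)⁻¹)ᵀ) i j := rfl
    _ = ((St S T θ)⁻¹) i j := by rw [h2]

private theorem f1_neg_inv (A : Matrix (Fin m) (Fin m) ℂ) : (-A)⁻¹ = -A⁻¹ := by
  by_cases hA : IsUnit A.det
  · refine Matrix.inv_eq_left_inv ?_
    rw [neg_mul_neg]
    exact Matrix.nonsing_inv_mul _ hA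
  · have h2 : ¬ IsUnit (-A).det := by
      rw [Matrix.det_neg]
      intro hu
      exact hA (isUnit_of_mul_isUnit_right hu)
    rw [Matrix.nonsing_inv_apply_not_isUnit _ hA, Matrix.nonsing_inv_apply_not_isUnit _ h2, neg_zero]

theorem Gc_neg (S T : Matrix (Fin m) (Fin m) ℂ) (n : ℤ) : Gc (-S) (-T) n = - Gc S T n := by
  ext i j
  simp only [Gc, Matrix.neg_apply, Matrix.of_apply]
  rw [← mul_neg, ← intervalIntegral.integral_neg]
  congr 1
  refine intervalIntegral.integral_congr fun θ _ => ?_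
  have h1 : St (-S) (-T) θ = -St S T θ := by
    unfold St
    rw [smul_neg, smul_neg, neg_add]
  rw [h1, f1_neg_inv, Matrix.neg_apply, mul_neg]

private theorem f1_per (g : ℝ → ℂ) (hg : Function.Periodic g (2 * Real.pi)) :
    (∫ θ in (0 : ℝ)..(2 * Real.pi), g (-θ)) = ∫ θ in (0 : ℝ)..(2 * Real.pi), g θ := by
  rw [intervalIntegral.integral_comp_neg, neg_zero]
  have h6 := hg.intervalIntegral_add_eq (-(2 * Real.pi)) 0
  rw [neg_add_cancel, zero_add] at h6
  exact h6

theorem Gc_flip (S T : Matrix (Fin m) (Fin m) ℂ) (n : ℤ) : Gc S (-T) n = Gc S T (-n) := by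
  ext i j
  simp only [Gc, Matrix.of_apply]
  congr 1
  have h1 : ∀ θ : ℝ, Complex.exp (-(Complex.I * (n : ℂ) * ((θ : ℝ) : ℂ))) * ((St S (-T) θ)⁻¹) i j =
      (fun u : ℝ => Complex.exp (-(Complex.I * ((-n : ℤ) : ℂ) * ((u : ℝ) : ℂ))) * ((St S T u)⁻¹) i j) (-θ) := by
    intro θ
    have h2 : St S (-T) θ = St S T (-θ) := by
      unfold St
      rw [Real.cos_neg, Real.sin_neg]
      push_cast
      rw [smul_neg, neg_smul]
    simp only
    rw [h2]
    congr 2
    push_cast
    ring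
  have hper : Function.Periodic (fun u : ℝ => Complex.exp (-(Complex.I * ((-n : ℤ) : ℂ) * ((u : ℝ) : ℂ))) *
      ((St S T u)⁻¹) i j) (2 * Real.pi) := by
    intro u
    simp only
    have h3 : St S T (u + 2 * Real.pi) = St S T u := by
      unfold St
      rw [Real.cos_add_two_pi, Real.sin_add_two_pi]
    have h4 : Complex.exp (-(Complex.I * ((-n : ℤ) : ℂ) * ((u + 2 * Real.pi : ℝ) : ℂ))) =
        Complex.exp (-(Complex.I * ((-n : ℤ) : ℂ) * ((u : ℝ) : ℂ))) := by
      have h5 : -(Complex.I * ((-n : ℤ) : ℂ) * ((u + 2 * Real.pi : ℝ) : ℂ)) =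
          -(Complex.I * ((-n : ℤ) : ℂ) * ((u : ℝ) : ℂ)) + (n : ℂ) * (2 * Real.pi * Complex.I) := by
        push_cast
        ring
      rw [h5, Complex.exp_add, Complex.exp_int_mul_two_pi_mul_I, mul_one]
    rw [h3, h4]
  exact (intervalIntegral.integral_congr (fun θ _ => h1 θ)).trans (f1_per _ hper)

theorem Gc_continuousOn {Y : Type} [TopologicalSpace Y] [FirstCountableTopology Y]
    {S T : Y → Matrix (Fin m) (Fin m) ℂ} {s : Set Y}
    (hS : ∀ i j, ContinuousOn (fun x => S x i j) s)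
    (hT : ∀ i j, ContinuousOn (fun x => T x i j) s)
    (h : ∀ x ∈ s, Reg (S x) (T x)) (n : ℤ) (i j : Fin m) :
    ContinuousOn (fun x => Gc (S x) (T x) n i j) s := by
  rw [continuousOn_iff_continuous_domRestrict]
  have hS' : Continuous fun x : s => S x := by
    refine continuous_matrix fun a b => ?_
    exact continuousOn_iff_continuous_domRestrict.1 (hS a b)
  have hT' : Continuous fun x : s => T x := by
    refine continuous_matrix fun a b => ?_
    exact continuousOn_iff_continuous_domRestrict.1 (hT a b)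
  have hSt : Continuous fun p : s × ℝ => St (S p.1) (T p.1) p.2 := by
    unfold St
    refine Continuous.add ?_ ?_
    · exact (Complex.continuous_ofReal.comp (Real.continuous_cos.comp continuous_snd)).smul
        (hS'.comp continuous_fst)
    · exact (Complex.continuous_ofReal.comp (Real.continuous_sin.comp continuous_snd)).smul
        (hT'.comp continuous_fst)
  have hg : Continuous (Function.uncurry fun (x : s) (θ : ℝ) =>
      Complex.exp (-(Complex.I * (n : ℂ) * ((θ : ℝ) : ℂ))) * ((St (S x) (T x) θ)⁻¹) i j) := by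
    refine Continuous.mul ((f1_Ec n).comp continuous_snd) ?_
    simp_rw [f1_inv]
    exact (hSt.matrix_det.inv₀ fun p => h p.1 p.1.2 p.2).mul (hSt.matrix_adjugate.matrix_elem i j)
  have h1 := intervalIntegral.continuous_parametric_intervalIntegral_of_continuous' (μ := volume) hg 0 (2 * Real.pi)
  exact continuous_const.mul h1

end Pool.Agent.Lib.MP_7fdaab_ag.KP
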