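import Pool.Agent.Lib.MP_7fdaab_ag.KP.Four1

/-!
hop_mod row Four2 (80-120 lines): the projector.
PROOF.  Write `Z = S - i T`, `Z' = S + i T`, `G n = Gc S T n`.  From `relR`, `relL` for `n != 0`:
`Z G(n-1) = - Z' G(n+1)` and `G(n-1) Z = - G(n+1) Z'`.
(a) `G(-1) Z' G(1) = 0`: for all `j`, `G(-(2j+1)) Z' G(2j+1) = G(-1) Z' G(1)` : `G(-(2j+1)) Z' =
- G(-(2j+3)) Z` (relL with n = -(2j+2)) and `Z G(2j+1) = - Z' G(2j+3)` (relR with n = 2j+2), so
`G(-(2j+1)) Z' G(2j+1) = - G(-(2j+3)) Z G(2j+1) = G(-(2j+3)) Z' G(2j+3)`.  The entries tend to 0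
(`Gc_tendsto` along odd indices): so it is 0.  (b) likewise `G(-1) Z G(1) = - G(-1) Z' G(3)`;
`G(-(2j+1)) Z G(2j+1) = - G(-(2j+1)) Z' G(2j+3) = G(-(2j+3)) Z G(2j+3)`, tends to 0: `G(-1) Z G(1) = 0`.
`Pm = (1/2) G(-1) Z`, `1 - Pm = (1/2) G(1) Z'` (relL, n = 0).  `Pm (1 - Pm) = (1/4) G(-1) Z G(1) Z' = 0`:
`Pm` idempotent.  `Pm * G(-1) = G(-1) (1/2) Z G(-1) = G(-1) (1 - (1/2) Z' G(1)) = G(-1)` (relR, n = 0 and
(a)).  `rank G(-1) = rank Pm`: `Pm = (1/2) G(-1) Z` gives `rank Pm <= rank G(-1)`, `G(-1) = Pm G(-1)` gives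
the other inequality (`Matrix.rank_mul_le_left`).  For an idempotent matrix over `ℂ`, trace = rank
(`LinearMap.IsProj.trace`, `Matrix.IsIdempotentElem...`, or `LinearMap.trace_eq..`).
`Pm_flip`: `Pm S (-T) = (1/2) G(1) (S + i T) = 1 - Pm S T`.
-/

namespace Pool.Agent.Lib.MP_7fdaab_ag.KP

open Matrix MeasureTheory

variable {m : ℕ}

private theorem four2_R0 (S T : Matrix (Fin m) (Fin m) ℂ) (h : Reg S T) {n : ℤ} (hn : n ≠ 0) :
    (S - Complex.I • T) * Gc S T (n - 1) = -((S + Complex.I • T) * Gc S T (n + 1)) := by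
  have h1 := relR S T h n
  rw [if_neg hn, smul_eq_zero] at h1
  rcases h1 with h1 | h1
  · norm_num at h1
  · exact eq_neg_of_add_eq_zero_left h1

private theorem four2_L0 (S T : Matrix (Fin m) (Fin m) ℂ) (h : Reg S T) {n : ℤ} (hn : n ≠ 0) :
    Gc S T (n - 1) * (S - Complex.I • T) = -(Gc S T (n + 1) * (S + Complex.I • T)) := by
  have h1 := relL S T h n
  rw [if_neg hn, smul_eq_zero] at h1
  rcases h1 with h1 | h1
  · norm_num at h1
  · exact eq_neg_of_add_eq_zero_left h1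

private theorem four2_lim (S T : Matrix (Fin m) (Fin m) ℂ) (h : Reg S T)
    (A : Matrix (Fin m) (Fin m) ℂ) :
    Filter.Tendsto (fun j : ℕ => Gc S T (-(2 * (j : ℤ) + 1)) * A * Gc S T (2 * (j : ℤ) + 1))
      Filter.atTop (nhds 0) := by
  have h1 : Filter.Tendsto (fun n : ℕ => Gc S T (n : ℤ)) Filter.atTop (nhds 0) :=
    tendsto_pi_nhds.2 fun i => tendsto_pi_nhds.2 fun j => (Gc_tendsto S T h i j).1
  have h2 : Filter.Tendsto (fun n : ℕ => Gc S T (-(n : ℤ))) Filter.atTop (nhds 0) :=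
    tendsto_pi_nhds.2 fun i => tendsto_pi_nhds.2 fun j => (Gc_tendsto S T h i j).2
  have h3 : Filter.Tendsto (fun j : ℕ => 2 * j + 1) Filter.atTop Filter.atTop :=
    Filter.tendsto_atTop_mono (fun j => (by omega : j ≤ 2 * j + 1)) Filter.tendsto_id
  have h4 := (((h2.comp h3).mul_const A).mul (h1.comp h3))
  simp only [zero_mul, mul_zero] at h4
  refine h4.congr fun j => ?_
  simp only [Function.comp_apply]
  push_cast
  rfl

private theorem four2_a (S T : Matrix (Fin m) (Fin m) ℂ) (h : Reg S T) :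
    Gc S T (-1) * (S + Complex.I • T) * Gc S T 1 = 0 := by
  have hstep : ∀ j : ℕ, Gc S T (-(2 * (j : ℤ) + 1)) * (S + Complex.I • T) * Gc S T (2 * (j : ℤ) + 1) =
      Gc S T (-1) * (S + Complex.I • T) * Gc S T 1 := by
    intro j
    induction j with
    | zero => simp
    | succ j ih =>
      rw [← ih]
      have h1 := four2_L0 S T h (n := -(2 * (j : ℤ) + 2)) (by omega)
      have h2 := four2_R0 S T h (n := 2 * (j : ℤ) + 2) (by omega)
      have e1 : -(2 * (j : ℤ) + 2) - 1 = -(2 * ((j + 1 : ℕ) : ℤ) + 1) := by push_cast; ring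
      have e2 : -(2 * (j : ℤ) + 2) + 1 = -(2 * (j : ℤ) + 1) := by ring
      have e3 : 2 * (j : ℤ) + 2 - 1 = 2 * (j : ℤ) + 1 := by ring
      have e4 : 2 * (j : ℤ) + 2 + 1 = 2 * ((j + 1 : ℕ) : ℤ) + 1 := by push_cast; ring
      rw [e1, e2] at h1
      rw [e3, e4] at h2
      have h3 : Gc S T (-(2 * (j : ℤ) + 1)) * (S + Complex.I • T) =
          -(Gc S T (-(2 * ((j + 1 : ℕ) : ℤ) + 1)) * (S - Complex.I • T)) := by
        rw [h1, neg_neg]
      rw [h3, neg_mul, Matrix.mul_assoc _ (S - Complex.I • T), h2, mul_neg, neg_neg, Matrix.mul_assoc]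
  have hl := four2_lim S T h (S + Complex.I • T)
  have hc : Filter.Tendsto (fun j : ℕ => Gc S T (-(2 * (j : ℤ) + 1)) * (S + Complex.I • T) *
      Gc S T (2 * (j : ℤ) + 1)) Filter.atTop (nhds (Gc S T (-1) * (S + Complex.I • T) * Gc S T 1)) := by
    simp only [hstep]
    exact tendsto_const_nhds
  exact tendsto_nhds_unique hc hl

private theorem four2_b (S T : Matrix (Fin m) (Fin m) ℂ) (h : Reg S T) :
    Gc S T (-1) * (S - Complex.I • T) * Gc S T 1 = 0 := by
  have hstep : ∀ j : ℕ, Gc S T (-(2 * (j : ℤ) + 1)) * (S - Complex.I • T) * Gc S T (2 * (j : ℤ) + 1) =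
      Gc S T (-1) * (S - Complex.I • T) * Gc S T 1 := by
    intro j
    induction j with
    | zero => simp
    | succ j ih =>
      rw [← ih]
      have h1 := four2_L0 S T h (n := -(2 * (j : ℤ) + 2)) (by omega)
      have h2 := four2_R0 S T h (n := 2 * (j : ℤ) + 2) (by omega)
      have e1 : -(2 * (j : ℤ) + 2) - 1 = -(2 * ((j + 1 : ℕ) : ℤ) + 1) := by push_cast; ring
      have e2 : -(2 * (j : ℤ) + 2) + 1 = -(2 * (j : ℤ) + 1) := by ring
      have e3 : 2 * (j : ℤ) + 2 - 1 = 2 * (j : ℤ) + 1 := by ring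
      have e4 : 2 * (j : ℤ) + 2 + 1 = 2 * ((j + 1 : ℕ) : ℤ) + 1 := by push_cast; ring
      rw [e1, e2] at h1
      rw [e3, e4] at h2
      rw [h1, neg_mul, Matrix.mul_assoc _ (S - Complex.I • T) (Gc S T (2 * (j : ℤ) + 1)), h2, mul_neg,
        ← Matrix.mul_assoc]
  have hl := four2_lim S T h (S - Complex.I • T)
  have hc : Filter.Tendsto (fun j : ℕ => Gc S T (-(2 * (j : ℤ) + 1)) * (S - Complex.I • T) *
      Gc S T (2 * (j : ℤ) + 1)) Filter.atTop (nhds (Gc S T (-1) * (S - Complex.I • T) * Gc S T 1)) := by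
    simp only [hstep]
    exact tendsto_const_nhds
  exact tendsto_nhds_unique hc hl

private theorem four2_compl (S T : Matrix (Fin m) (Fin m) ℂ) (h : Reg S T) :
    (1 / 2 : ℂ) • (Gc S T 1 * (S + Complex.I • T)) = 1 - Pm S T := by
  have h1 := relL S T h 0
  rw [if_pos rfl, smul_add] at h1
  rw [eq_sub_iff_add_eq, add_comm]
  simpa [Pm] using h1

theorem Pm_idem (S T : Matrix (Fin m) (Fin m) ℂ) (h : Reg S T) : Pm S T * Pm S T = Pm S T := by
  have h1 : Pm S T * (1 - Pm S T) = 0 := by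
    rw [← four2_compl S T h]
    unfold Pm
    rw [smul_mul_smul_comm, ← Matrix.mul_assoc, four2_b S T h, zero_mul, smul_zero]
  rw [mul_sub, mul_one, sub_eq_zero] at h1
  exact h1.symm

theorem Pm_flip (S T : Matrix (Fin m) (Fin m) ℂ) (h : Reg S T) : Pm S (-T) = 1 - Pm S T := by
  rw [← four2_compl S T h]
  unfold Pm
  rw [Gc_flip, neg_neg, smul_neg, sub_neg_eq_add]

/-- rank of `Gc S T (-1)` equals the trace of the projector -/
theorem rank_Gc (S T : Matrix (Fin m) (Fin m) ℂ) (h : Reg S T) :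
    (((Gc S T (-1)).rank : ℕ) : ℂ) = (Pm S T).trace := by
  have h1 : Pm S T * Gc S T (-1) = Gc S T (-1) := by
    have h2 := relR S T h 0
    rw [if_pos rfl] at h2
    have h3 : (1 / 2 : ℂ) • ((S - Complex.I • T) * Gc S T (-1)) =
        1 - (1 / 2 : ℂ) • ((S + Complex.I • T) * Gc S T 1) := by
      rw [eq_sub_iff_add_eq, ← smul_add]
      simpa using h2
    unfold Pm
    rw [Matrix.smul_mul, Matrix.mul_assoc, ← Matrix.mul_smul, h3, mul_sub, mul_one, Matrix.mul_smul,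
      ← Matrix.mul_assoc, four2_a S T h, smul_zero, sub_zero]
  have hr : (Gc S T (-1)).rank = (Pm S T).rank := by
    apply le_antisymm
    · conv_lhs => rw [← h1]
      exact Matrix.rank_mul_le_left _ _
    · have h2 : Pm S T = Gc S T (-1) * ((1 / 2 : ℂ) • (S - Complex.I • T)) := by
        unfold Pm
        rw [Matrix.mul_smul]
      rw [h2]
      exact Matrix.rank_mul_le_left _ _
  rw [hr]
  have hid : IsIdempotentElem (Matrix.toLin' (Pm S T)) := by
    unfold IsIdempotentElem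
    rw [Module.End.mul_eq_comp, ← Matrix.toLin'_mul, Pm_idem S T h]
  have ht := (LinearMap.isProj_range_iff_isIdempotentElem _).2 hid |>.trace
  rw [Matrix.trace_toLin'_eq] at ht
  rw [ht]
  rfl

end Pool.Agent.Lib.MP_7fdaab_ag.KP
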