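import Pool.Agent.Lib.MP_7fdaab_ag.KP.Disc

/-!
hop_mod row MinorsM (80-120 lines): Lemma M.
PROOF.  Let `ι = (Fin k → Fin m)` and for `x` in `R^3` minus 0 let `T x a b = det (fun i j => Y x (a i)
(b j))` (`k x k` minors, `Matrix.submatrix`).  `Y` of rank `k` factors as `B * C`, `B` of size `m x k`
and `C` of size `k x m`; then `T a b = det(B_a) det(C_b)`, a symmetric nonzero matrix of the form `u v^T`,
hence `v = c u`, `c != 0`, `T = (sqrt c u)(sqrt c u)^T`.  `T (-x) = (-1)^k T x = - T x` (`det_neg`).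
Apply `disc_lemma` to `x ↦ T (x.re, x.im, sqrt (1 - |x|^2))`.
-/

namespace Pool.Agent.Lib.MP_7fdaab_ag.KP

open Matrix

/-- a matrix with a left inverse has a nonzero maximal minor -/
private theorem minor_ne {m k : ℕ} (L : Matrix (Fin k) (Fin m) ℂ) (B : Matrix (Fin m) (Fin k) ℂ)
    (h : L * B = 1) : ∃ a : Fin k → Fin m, (B.submatrix a id).det ≠ 0 := by
  by_contra hcon
  push Not at hcon
  have h1 : (L * B).det = 0 := by
    have hrow : (L * B) = fun i => ∑ j, L i j • B j := by
      ext i c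
      simp [Matrix.mul_apply]
    have : (L * B).det = Matrix.detRowAlternating (fun i => ∑ j, L i j • B j) := by
      rw [hrow]; rfl
    rw [this]
    have h2 := (Matrix.detRowAlternating (n := Fin k) (R := ℂ)).toMultilinearMap.map_sum
      (fun (i : Fin k) (j : Fin m) => L i j • B j)
    simp only [AlternatingMap.coe_multilinearMap] at h2
    rw [h2]
    apply Finset.sum_eq_zero
    intro a _
    have h3 := (Matrix.detRowAlternating (n := Fin k) (R := ℂ)).toMultilinearMap.map_smul_univ
      (fun i => L i (a i)) (fun i => B (a i))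
    simp only [AlternatingMap.coe_multilinearMap] at h3
    rw [h3]
    have h4 : Matrix.detRowAlternating (fun i => B (a i)) = (B.submatrix a id).det := rfl
    rw [h4, hcon a, smul_zero]
  rw [h] at h1
  simp at h1

/-- rank factorisation with one-sided inverses -/
private theorem rank_fac {m : ℕ} (Y : Matrix (Fin m) (Fin m) ℂ) :
    ∃ (B : Matrix (Fin m) (Fin Y.rank) ℂ) (C : Matrix (Fin Y.rank) (Fin m) ℂ)
      (L : Matrix (Fin Y.rank) (Fin m) ℂ) (R : Matrix (Fin m) (Fin Y.rank) ℂ),
      Y = B * C ∧ L * B = 1 ∧ C * R = 1 := by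
  obtain ⟨V, U, e, hV, hU, hVU⟩ := Matrix.exists_rank_normal_form Y
  have hVd : IsUnit V.det := (Matrix.isUnit_iff_isUnit_det _).1 hV
  have hUd : IsUnit U.det := (Matrix.isUnit_iff_isUnit_det _).1 hU
  set B : Matrix (Fin m) (Fin Y.rank) ℂ := V⁻¹.submatrix id (fun a => e.symm (Sum.inl a)) with hB
  set C : Matrix (Fin Y.rank) (Fin m) ℂ := U⁻¹.submatrix (fun a => e.symm (Sum.inl a)) id with hC
  refine ⟨B, C, V.submatrix (fun a => e.symm (Sum.inl a)) id,
    U.submatrix id (fun a => e.symm (Sum.inl a)), ?_, ?_, ?_⟩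
  · have h1 : Y = V⁻¹ * (V * Y * U) * U⁻¹ := by
      rw [Matrix.mul_assoc V, ← Matrix.mul_assoc V⁻¹, Matrix.nonsing_inv_mul _ hVd,
        Matrix.one_mul, Matrix.mul_assoc, Matrix.mul_nonsing_inv _ hUd, Matrix.mul_one]
    set J : Matrix (Fin m) (Fin m) ℂ := V * Y * U with hJ
    have hJll : ∀ x y, J (e.symm (Sum.inl y)) (e.symm (Sum.inl x)) = if y = x then 1 else 0 := by
      intro x y
      rw [hVU]
      simp [Matrix.submatrix_apply, Matrix.one_apply]
    have hJr : ∀ x z, J z (e.symm (Sum.inr x)) = 0 := by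
      intro x z
      rw [hVU]
      simp only [Matrix.submatrix_apply, Equiv.apply_symm_apply]
      rcases e z with z' | z' <;> simp
    have hJrl : ∀ x y, J (e.symm (Sum.inr y)) (e.symm (Sum.inl x)) = 0 := by
      intro x y
      rw [hVU]
      simp [Matrix.submatrix_apply]
    have hz : ∀ i x, (V⁻¹ * J) i (e.symm (Sum.inr x)) = 0 := by
      intro i x
      rw [Matrix.mul_apply]
      apply Finset.sum_eq_zero
      intro y _
      rw [hJr, mul_zero]
    have ho : ∀ i x, (V⁻¹ * J) i (e.symm (Sum.inl x)) = B i x := by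
      intro i x
      rw [Matrix.mul_apply]
      rw [← e.symm.sum_comp, Fintype.sum_sum_type]
      simp only [hJll, hJrl, mul_ite, mul_one, mul_zero, Finset.sum_ite_eq', Finset.mem_univ,
        if_true, Finset.sum_const_zero, add_zero]
      rfl
    have h2 : V⁻¹ * J * U⁻¹ = B * C := by
      ext i j
      rw [Matrix.mul_apply, Matrix.mul_apply]
      rw [← e.symm.sum_comp, Fintype.sum_sum_type]
      simp only [hz, ho, zero_mul, Finset.sum_const_zero, add_zero]
      rfl
    rw [← h2]
    exact h1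
  · ext i j
    have h7 : (V * V⁻¹) (e.symm (Sum.inl i)) (e.symm (Sum.inl j)) =
        (1 : Matrix (Fin m) (Fin m) ℂ) (e.symm (Sum.inl i)) (e.symm (Sum.inl j)) := by
      rw [Matrix.mul_nonsing_inv _ hVd]
    rw [Matrix.mul_apply] at h7 ⊢
    simp only [hB, Matrix.submatrix_apply, id]
    rw [h7, Matrix.one_apply, Matrix.one_apply]
    simp
  · ext i j
    have h7 : (U⁻¹ * U) (e.symm (Sum.inl i)) (e.symm (Sum.inl j)) =
        (1 : Matrix (Fin m) (Fin m) ℂ) (e.symm (Sum.inl i)) (e.symm (Sum.inl j)) := by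
      rw [Matrix.nonsing_inv_mul _ hUd]
    rw [Matrix.mul_apply] at h7 ⊢
    simp only [hC, Matrix.submatrix_apply, id]
    rw [h7, Matrix.one_apply, Matrix.one_apply]
    simp

/-- the minors of size the rank of a symmetric matrix -/
private theorem minors_form {m : ℕ} (Y : Matrix (Fin m) (Fin m) ℂ) (hs : Y.IsSymm) (k : ℕ)
    (hk : Y.rank = k) : ∃ w : (Fin k → Fin m) → ℂ, w ≠ 0 ∧
      (Matrix.of fun a b : Fin k → Fin m => (Y.submatrix a b).det) = vecMulVec w w := by
  obtain ⟨B, C, L, R, hfac, hLB, hCR⟩ : ∃ (B : Matrix (Fin m) (Fin k) ℂ)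
      (C : Matrix (Fin k) (Fin m) ℂ) (L : Matrix (Fin k) (Fin m) ℂ)
      (R : Matrix (Fin m) (Fin k) ℂ), Y = B * C ∧ L * B = 1 ∧ C * R = 1 := by
    have h := rank_fac Y
    rw [hk] at h
    exact h
  set u : (Fin k → Fin m) → ℂ := fun a => (B.submatrix a id).det with hu
  set v : (Fin k → Fin m) → ℂ := fun b => (C.submatrix id b).det with hv
  have hT : ∀ a b : Fin k → Fin m, (Y.submatrix a b).det = u a * v b := by
    intro a b
    have : Y.submatrix a b = (B.submatrix a id) * (C.submatrix id b) := by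
      rw [hfac]
      exact (Matrix.submatrix_mul_equiv B C a (Equiv.refl _) b).symm
    rw [this, Matrix.det_mul]
  obtain ⟨a0, ha0⟩ : ∃ a, u a ≠ 0 := minor_ne L B hLB
  obtain ⟨b0, hb0⟩ : ∃ b, v b ≠ 0 := by
    obtain ⟨b, hb⟩ := minor_ne Rᵀ Cᵀ (by
      rw [← Matrix.transpose_mul, hCR, Matrix.transpose_one])
    refine ⟨b, ?_⟩
    have : (Cᵀ.submatrix b id) = (C.submatrix id b)ᵀ := by
      ext i j; rfl
    rw [this, Matrix.det_transpose] at hb
    exact hb
  have hsym : ∀ a b, u a * v b = u b * v a := by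
    intro a b
    rw [← hT, ← hT, ← Matrix.det_transpose]
    congr 1
    ext i j
    simp only [Matrix.transpose_apply, Matrix.submatrix_apply]
    exact hs.apply _ _
  set c : ℂ := v a0 / u a0 with hc
  have hvc : ∀ b, v b = c * u b := by
    intro b
    have := hsym a0 b
    rw [hc]
    field_simp
    linear_combination this
  have hc0 : c ≠ 0 := by
    intro h0
    apply hb0
    rw [hvc, h0, zero_mul]
  obtain ⟨s, hs2⟩ := IsAlgClosed.exists_pow_nat_eq c (n := 2) (by norm_num)
  have hs0 : s ≠ 0 := by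
    rintro rfl
    apply hc0
    rw [← hs2]; simp
  refine ⟨fun a => s * u a, ?_, ?_⟩
  · intro h0
    have := congrFun h0 a0
    simp only [Pi.zero_apply] at this
    exact (mul_ne_zero hs0 ha0) this
  · ext a b
    simp only [Matrix.of_apply, vecMulVec_apply]
    rw [hT, hvc, ← hs2]
    ring

/-- the upper hemisphere over the disc -/
private noncomputable def hem (z : ℂ) : Fin 3 → ℝ := ![z.re, z.im, Real.sqrt (1 - ‖z‖ ^ 2)]

private theorem hem_ne {z : ℂ} : hem z ≠ 0 := by
  intro h
  have h0 := congrFun h 0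
  have h1 := congrFun h 1
  have h2 := congrFun h 2
  simp only [hem, Matrix.cons_val_zero, Pi.zero_apply] at h0
  simp only [hem, Matrix.cons_val_one, Pi.zero_apply] at h1
  simp only [hem, Pi.zero_apply] at h2
  have hz : z = 0 := Complex.ext h0 h1
  rw [hz] at h2
  simp at h2

private theorem hem_cont : Continuous hem := by
  apply continuous_pi
  intro i
  fin_cases i
  · exact Complex.continuous_re
  · exact Complex.continuous_im
  · exact (continuous_const.sub (continuous_norm.pow 2)).sqrt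

private theorem hem_neg {z : ℂ} (hz : ‖z‖ = 1) : hem (-z) = - hem z := by
  ext i
  fin_cases i
  · simp [hem]
  · simp [hem]
  · simp [hem, hz]

theorem lemmaM {m k : ℕ} (hk : Odd k) (Y : (Fin 3 → ℝ) → Matrix (Fin m) (Fin m) ℂ)
    (hc : ∀ i j, ContinuousOn (fun x => Y x i j) {0}ᶜ)
    (hs : ∀ x, x ≠ 0 → (Y x).IsSymm) (hr : ∀ x, x ≠ 0 → (Y x).rank = k)
    (hodd : ∀ x, x ≠ 0 → Y (-x) = - Y x) : False := by
  refine disc_lemma (ι := Fin k → Fin m)
    (fun z => Matrix.of fun a b : Fin k → Fin m => ((Y (hem z)).submatrix a b).det) ?_ ?_ ?_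
  · intro a b
    apply Continuous.continuousOn
    simp only [Matrix.of_apply, Matrix.det_apply]
    refine continuous_finsetSum _ (fun σ _ => ?_)
    refine Continuous.const_smul (continuous_finsetProd _ (fun i _ => ?_)) _
    simp only [Matrix.submatrix_apply]
    exact (hc _ _).comp_continuous hem_cont (fun z => hem_ne)
  · intro z _
    exact minors_form (Y (hem z)) (hs _ hem_ne) k (hr _ hem_ne)
  · intro z hz
    ext a b
    simp only [Matrix.of_apply, Matrix.neg_apply]
    rw [hem_neg hz, hodd _ hem_ne]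
    have : (-Y (hem z)).submatrix a b = -((Y (hem z)).submatrix a b) := rfl
    rw [this, Matrix.det_neg, Fintype.card_fin, hk.neg_one_pow, neg_one_mul]

end Pool.Agent.Lib.MP_7fdaab_ag.KP
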