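import Pool.Agent.Lib.MP_7fdaab_ag.KP.Four2
import Pool.Agent.Lib.MP_7fdaab_ag.KP.MinorsM

/-!
hop_mod row Four3 (100-150 lines): no 4-dimensional family for `m = 2 mod 4`.
PROOF.  For `x : Fin 3 → ℝ` put `L x = (x0, x1, x2, 0)`, `L' x = (-x1, x0, 0, -x2)` and `S(l) =
sum_j l_j S_j`.  For `x != 0` these are orthogonal and nonzero, hence linearly independent, so
`Reg (S(L x)) (S(L' x))` (`cos θ L + sin θ L' != 0`).  `Y x = Gc (S(L x)) (S(L' x)) (-1)` is continuous on
`x != 0` (`Gc_continuousOn`), symmetric (`Gc_symm`), odd (`Gc_neg`).  Rank `= m/2`: let `l = L x`,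
`l' = L' x`, `l''` a third vector with `l, l', l''` independent (e.g. among the unit vectors, or the
explicit orthogonal vector `(-x2, 0, x0, x1)`: orthogonal to `L x` and to `L' x`: `x1 x2 - x1 x2 = 0`,
norm `|x|`); the family `φ ↦ T(φ) = cos φ S(l') + sin φ S(l'')`, `φ` in `[0, π]`, has
`Reg (S l) (T φ)`; the trace of `Pm (S l) (T φ)` is continuous in `φ` (`Gc_continuousOn`) and a natural
number (`rank_Gc`), hence constant (`IsPreconnected.constant` ..); at `φ = π` it is `trace (1 - Pm) =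
m - trace Pm` (`Pm_flip`).  So `2 trace = m`, rank `= m/2`, odd since `m = 2 mod 4`.  `lemmaM`.
-/

namespace Pool.Agent.Lib.MP_7fdaab_ag.KP

open Matrix MeasureTheory

/-- the four coordinates of `a L x + b L' x + c L'' x` -/
private def fourV (x : Fin 3 → ℝ) (a b c : ℝ) : Fin 4 → ℝ :=
  ![a * x 0 - b * x 1 - c * x 2, a * x 1 + b * x 0, a * x 2 + c * x 0, c * x 1 - b * x 2]

private noncomputable def fourM {m : ℕ} (S : Fin 4 → Matrix (Fin m) (Fin m) ℂ) (x : Fin 3 → ℝ)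
    (a b c : ℝ) : Matrix (Fin m) (Fin m) ℂ :=
  ∑ j, ((fourV x a b c j : ℝ) : ℂ) • S j

private theorem fourV_ne {x : Fin 3 → ℝ} (hx : x ≠ 0) {a b c : ℝ}
    (h : a ^ 2 + b ^ 2 + c ^ 2 = 1) : fourV x a b c ≠ 0 := by
  intro h0
  apply hx
  have e0 : a * x 0 - b * x 1 - c * x 2 = 0 := by simpa [fourV] using congrFun h0 0
  have e1 : a * x 1 + b * x 0 = 0 := by simpa [fourV] using congrFun h0 1
  have e2 : a * x 2 + c * x 0 = 0 := by simpa [fourV] using congrFun h0 2
  have e3 : c * x 1 - b * x 2 = 0 := by simpa [fourV] using congrFun h0 3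
  have key : x 0 ^ 2 + x 1 ^ 2 + x 2 ^ 2 = 0 := by
    have h1 : (a ^ 2 + b ^ 2 + c ^ 2) * (x 0 ^ 2 + x 1 ^ 2 + x 2 ^ 2)
        = (a * x 0 - b * x 1 - c * x 2) ^ 2 + (a * x 1 + b * x 0) ^ 2 + (a * x 2 + c * x 0) ^ 2
          + (c * x 1 - b * x 2) ^ 2 := by ring
    rw [e0, e1, e2, e3, h] at h1
    linarith
  have k0 : x 0 = 0 := by
    have : x 0 ^ 2 = 0 := by nlinarith [sq_nonneg (x 0), sq_nonneg (x 1), sq_nonneg (x 2)]
    exact pow_eq_zero_iff (two_ne_zero) |>.1 this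
  have k1 : x 1 = 0 := by
    have : x 1 ^ 2 = 0 := by nlinarith [sq_nonneg (x 0), sq_nonneg (x 1), sq_nonneg (x 2)]
    exact pow_eq_zero_iff (two_ne_zero) |>.1 this
  have k2 : x 2 = 0 := by
    have : x 2 ^ 2 = 0 := by nlinarith [sq_nonneg (x 0), sq_nonneg (x 1), sq_nonneg (x 2)]
    exact pow_eq_zero_iff (two_ne_zero) |>.1 this
  funext i
  fin_cases i
  · exact k0
  · exact k1
  · exact k2

private theorem fourM_lin {m : ℕ} (S : Fin 4 → Matrix (Fin m) (Fin m) ℂ) (x : Fin 3 → ℝ)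
    (a b c : ℝ) : fourM S x a b c = ((a : ℝ) : ℂ) • fourM S x 1 0 0
      + ((b : ℝ) : ℂ) • fourM S x 0 1 0 + ((c : ℝ) : ℂ) • fourM S x 0 0 1 := by
  ext i j
  simp only [fourM, fourV, Fin.sum_univ_four, Matrix.add_apply, Matrix.smul_apply, smul_eq_mul,
    Matrix.cons_val]
  push_cast
  ring

private theorem fourM_neg {m : ℕ} (S : Fin 4 → Matrix (Fin m) (Fin m) ℂ) (x : Fin 3 → ℝ)
    (a b c : ℝ) : fourM S (-x) a b c = - fourM S x a b c := by
  ext i j
  simp only [fourM, fourV, Fin.sum_univ_four, Matrix.add_apply, Matrix.smul_apply, smul_eq_mul,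
    Matrix.cons_val, Pi.neg_apply, Matrix.neg_apply]
  push_cast
  ring

private theorem fourM_symm {m : ℕ} (S : Fin 4 → Matrix (Fin m) (Fin m) ℂ)
    (hs : ∀ j, (S j).IsSymm) (x : Fin 3 → ℝ) (a b c : ℝ) : (fourM S x a b c).IsSymm := by
  unfold fourM Matrix.IsSymm
  rw [Matrix.transpose_sum]
  refine Finset.sum_congr rfl fun j _ => ?_
  rw [Matrix.transpose_smul, (hs j).eq]

private theorem four_reg {m : ℕ} (S : Fin 4 → Matrix (Fin m) (Fin m) ℂ)
    (h : ∀ x : Fin 4 → ℝ, x ≠ 0 → (∑ j, ((x j : ℝ) : ℂ) • S j).det ≠ 0)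
    {x : Fin 3 → ℝ} (hx : x ≠ 0) (φ : ℝ) :
    Reg (fourM S x 1 0 0) (((Real.cos φ : ℝ) : ℂ) • fourM S x 0 1 0
      + ((Real.sin φ : ℝ) : ℂ) • fourM S x 0 0 1) := by
  intro θ
  have h1 : St (fourM S x 1 0 0) (((Real.cos φ : ℝ) : ℂ) • fourM S x 0 1 0
      + ((Real.sin φ : ℝ) : ℂ) • fourM S x 0 0 1) θ
      = fourM S x (Real.cos θ) (Real.sin θ * Real.cos φ) (Real.sin θ * Real.sin φ) := by
    rw [fourM_lin S x (Real.cos θ)]
    unfold St
    rw [smul_add, smul_smul, smul_smul, ← add_assoc, Complex.ofReal_mul, Complex.ofReal_mul]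
  rw [h1]
  refine h _ (fourV_ne hx ?_)
  have e1 := Real.cos_sq_add_sin_sq θ
  have e2 := Real.cos_sq_add_sin_sq φ
  calc Real.cos θ ^ 2 + (Real.sin θ * Real.cos φ) ^ 2 + (Real.sin θ * Real.sin φ) ^ 2
      = Real.cos θ ^ 2 + Real.sin θ ^ 2 * (Real.cos φ ^ 2 + Real.sin φ ^ 2) := by ring
    _ = 1 := by rw [e2, mul_one, e1]

private theorem four_rank {m : ℕ} (A B C : Matrix (Fin m) (Fin m) ℂ)
    (h : ∀ φ : ℝ, Reg A (((Real.cos φ : ℝ) : ℂ) • B + ((Real.sin φ : ℝ) : ℂ) • C)) :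
    2 * (Gc A B (-1)).rank = m := by
  set T : ℝ → Matrix (Fin m) (Fin m) ℂ :=
    fun φ => ((Real.cos φ : ℝ) : ℂ) • B + ((Real.sin φ : ℝ) : ℂ) • C with hT
  set f : ℝ → ℕ := fun φ => (Gc A (T φ) (-1)).rank with hf
  have hTc : ∀ i j, Continuous (fun φ => T φ i j) := by
    intro i j
    simp only [hT, Matrix.add_apply, Matrix.smul_apply, smul_eq_mul]
    fun_prop
  have hG : ∀ i j, Continuous (fun φ => Gc A (T φ) (-1) i j) := by
    intro i j
    rw [← continuousOn_univ]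
    exact Gc_continuousOn (S := fun _ => A) (T := T) (s := Set.univ)
      (fun i j => continuousOn_const) (fun i j => (hTc i j).continuousOn) (fun φ _ => h φ) (-1) i j
  have ht : Continuous (fun φ => (Pm A (T φ)).trace) := by
    simp only [Pm, Matrix.trace, Matrix.diag_apply, Matrix.smul_apply, smul_eq_mul,
      Matrix.mul_apply, Matrix.sub_apply]
    refine continuous_finsetSum _ fun i _ => continuous_const.mul ?_
    refine continuous_finsetSum _ fun j _ => (hG i j).mul ?_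
    exact continuous_const.sub (continuous_const.mul (hTc j i))
  have hfr : ∀ φ, ((f φ : ℕ) : ℂ) = (Pm A (T φ)).trace := fun φ => rank_Gc A (T φ) (h φ)
  have hfc : Continuous (fun φ => ((f φ : ℕ) : ℝ)) := by
    have : (fun φ => ((f φ : ℕ) : ℝ)) = fun φ => (Pm A (T φ)).trace.re := by
      funext φ
      rw [← hfr φ, Complex.natCast_re]
    rw [this]
    exact Complex.continuous_re.comp ht
  have hfn : Continuous f := Nat.isClosedEmbedding_coe_real.isInducing.continuous_iff.2 hfc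
  have hconst : f 0 = f Real.pi := PreconnectedSpace.constant inferInstance hfn
  have hT0 : T 0 = B := by simp [hT]
  have hTpi : T Real.pi = -B := by simp [hT]
  have h0 : Reg A B := by
    have := h 0
    have e : (((Real.cos 0 : ℝ) : ℂ) • B + ((Real.sin 0 : ℝ) : ℂ) • C) = B := hT0
    rwa [e] at this
  have h1 := hfr 0
  have h2 := hfr Real.pi
  rw [hT0] at h1
  rw [hTpi, Pm_flip A B h0, Matrix.trace_sub, Matrix.trace_one, Fintype.card_fin, ← h1,
    ← hconst] at h2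
  have h3 : (f 0 : ℂ) + f 0 = m := by linear_combination h2
  have h4 : f 0 + f 0 = m := by exact_mod_cast h3
  have h5 : f 0 = (Gc A B (-1)).rank := by simp only [hf, hT0]
  omega

theorem no_family {m : ℕ} (hm : m % 4 = 2) (S : Fin 4 → Matrix (Fin m) (Fin m) ℂ)
    (hs : ∀ j, (S j).IsSymm)
    (h : ∀ x : Fin 4 → ℝ, x ≠ 0 → (∑ j, ((x j : ℝ) : ℂ) • S j).det ≠ 0) : False := by
  have hreg : ∀ x : Fin 3 → ℝ, x ≠ 0 → Reg (fourM S x 1 0 0) (fourM S x 0 1 0) := by
    intro x hx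
    have := four_reg S h hx 0
    simpa using this
  have hcont : ∀ (a b c : ℝ) (i j : Fin m), Continuous fun x => fourM S x a b c i j := by
    intro a b c i j
    simp only [fourM, fourV, Fin.sum_univ_four, Matrix.add_apply, Matrix.smul_apply, smul_eq_mul,
      Matrix.cons_val]
    fun_prop
  refine lemmaM (m := m) (k := m / 2) ?_
    (fun x => Gc (fourM S x 1 0 0) (fourM S x 0 1 0) (-1)) ?_ ?_ ?_ ?_
  · rw [Nat.odd_iff]; omega
  · intro i j
    exact Gc_continuousOn (fun i j => (hcont 1 0 0 i j).continuousOn)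
      (fun i j => (hcont 0 1 0 i j).continuousOn) (fun x hx => hreg x hx) (-1) i j
  · intro x _
    exact Gc_symm _ _ (fourM_symm S hs x 1 0 0) (fourM_symm S hs x 0 1 0) (-1)
  · intro x hx
    have := four_rank (fourM S x 1 0 0) (fourM S x 0 1 0) (fourM S x 0 0 1)
      (fun φ => four_reg S h hx φ)
    omega
  · intro x _
    rw [fourM_neg, fourM_neg, Gc_neg]

end Pool.Agent.Lib.MP_7fdaab_ag.KP
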