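import Mathlib

/-!
MP_7fdaab_ag, campaign hop, Fourier block: definitions.

`St S T θ = cos θ S + sin θ T`, `Gc S T n = (1/2π) int_0^{2π} e^{-i n θ} (St S T θ)⁻¹ dθ` entry by entry,
`Pm S T = (1/2) (Gc S T (-1)) (S - i T)`.  `Reg S T`: `St S T θ` invertible for every real `θ`.
-/

namespace Pool.Agent.Lib.MP_7fdaab_ag.KP

open Matrix MeasureTheory

/-- the circle of matrices through `S` and `T` -/
noncomputable def St {m : ℕ} (S T : Matrix (Fin m) (Fin m) ℂ) (θ : ℝ) :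
    Matrix (Fin m) (Fin m) ℂ :=
  ((Real.cos θ : ℝ) : ℂ) • S + ((Real.sin θ : ℝ) : ℂ) • T

/-- all matrices on the circle are invertible -/
def Reg {m : ℕ} (S T : Matrix (Fin m) (Fin m) ℂ) : Prop := ∀ θ : ℝ, (St S T θ).det ≠ 0

/-- Fourier coefficient of the inverse -/
noncomputable def Gc {m : ℕ} (S T : Matrix (Fin m) (Fin m) ℂ) (n : ℤ) :
    Matrix (Fin m) (Fin m) ℂ :=
  Matrix.of fun i j => (1 / (2 * Real.pi) : ℂ) *
    ∫ θ in (0 : ℝ)..(2 * Real.pi),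
      Complex.exp (-(Complex.I * (n : ℂ) * ((θ : ℝ) : ℂ))) * ((St S T θ)⁻¹) i j

/-- the projector -/
noncomputable def Pm {m : ℕ} (S T : Matrix (Fin m) (Fin m) ℂ) : Matrix (Fin m) (Fin m) ℂ :=
  (1 / 2 : ℂ) • (Gc S T (-1) * (S - Complex.I • T))

end Pool.Agent.Lib.MP_7fdaab_ag.KP
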