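import Pool.Agent.Lib.MP_7fdaab_ag.KP.Proper

/-!
hop_mod row Master (80-140 lines): integration by parts on `C^m`.
PROOF.  (1) `integral_fderiv_zero`: a `C^1` function with compact support on the real vector space
`E m` has `int D_v F = 0` (`integral_bilinear_hasLineDerivAt_right_eq_neg_left_of_integrable` with
`g = 1`, or `integral_mul_fderiv_eq_neg_fderiv_mul_of_integrable`; volume on `E m` is an additive
Haar measure).  (2) For `k` put `W_k(z) = f(q z) v_k(z) conj(a z)`: `C^1` over the reals on all of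
`E m` (on `U` it is a product; off `U`, `f(q .)` vanishes near the point), compact support.  Integrate
`(1/2)(D_{e_k} W_k - I D_{I e_k} W_k)` and sum over `k`.  On `U`: with
`d_w = (1/2)(D_w - I D_{I w})`: `d_w (f(q)) = -I sum_j pd_j f(q) (M_j z . w)` from `fderiv_comp_q`
(`Im a - I Re a = -I a`); `d_w v_k` = complex derivative (`fderiv ℝ` = restriction of scalars of
`fderiv ℂ`, `D_{I w} = I D_w`); `d_w (conj a) = 0` (`D_{I w} conj a = conj (I a' w) = - I conj(a' w)`).
Off `U` both integrands are zero.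
-/

namespace Pool.Agent.Lib.MP_7fdaab_ag.KP

open Matrix MeasureTheory

variable {m : ℕ}

theorem integral_fderiv_zero {F : E m → ℂ} (hF : ContDiff ℝ 1 F) (hc : HasCompactSupport F)
    (v : E m) : ∫ z, fderiv ℝ F z v = 0 := by
  have h0 : ∀ x : E m, fderiv ℝ (fun _ : E m => (1 : ℂ)) x v = 0 := by
    intro x
    rw [fderiv_fun_const]
    rfl
  have hcont : Continuous (fun z => fderiv ℝ F z v) :=
    (hF.continuous_fderiv one_ne_zero).clm_apply continuous_const
  have hcs : HasCompactSupport (fun z => fderiv ℝ F z v) := hc.fderiv_apply (𝕜 := ℝ) v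
  have h1 := integral_mul_fderiv_eq_neg_fderiv_mul_of_integrable (μ := (volume : Measure (E m)))
    (f := fun _ : E m => (1 : ℂ)) (g := F) (v := v)
    (by simp only [h0, zero_mul]; exact integrable_zero _ _ _)
    (by simp only [one_mul]; exact hcont.integrable_of_hasCompactSupport hcs)
    (by simp only [one_mul]; exact hF.continuous.integrable_of_hasCompactSupport hc)
    (fun x _ => differentiableAt_const _)
    (fun x _ => (hF.differentiable one_ne_zero) x)
  simp only [h0, zero_mul, one_mul, integral_zero, neg_zero] at h1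
  exact h1

private noncomputable def msW (M : Sys m) (f : V m → ℝ) (v : E m → E m) (a : E m → ℂ) (k : Fin m)
    (z : E m) : ℂ :=
  ((f (q M z) : ℝ) : ℂ) * (v z k * (starRingEnd ℂ) (a z))

private theorem ms_near {M : Sys m} {l : V m} {f : V m → ℝ} (hf : Test l f) {z : E m} (hz : z ∉ U M l) :
    ∀ᶠ y in nhds z, f (q M y) = 0 := by
  have h1 : q M z ∉ tsupport f := fun h => hz (hf.supp h)
  have h2 : ∀ᶠ w in nhds (q M z), f w = 0 := by
    have := notMem_tsupport_iff_eventuallyEq.1 h1
    exact this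
  exact ((q_contDiff M 1).continuous.continuousAt (x := z)).eventually h2

private theorem ms_W_contDiff {M : Sys m} {l : V m} {f : V m → ℝ} (hf : Test l f)
    {v : E m → E m} (hv : Hol M l v) {a : E m → ℂ} (ha : Hol M l a) (k : Fin m) :
    ContDiff ℝ 1 (msW M f v a k) := by
  rw [contDiff_iff_contDiffAt]
  intro z
  by_cases hz : z ∈ U M l
  · have h1 : ContDiffAt ℝ 1 (fun z : E m => ((f (q M z) : ℝ) : ℂ)) z := by
      have h2 : ContDiff ℝ 1 (fun z => f (q M z)) :=
        (hf.smooth.of_le (by exact_mod_cast le_top)).comp (q_contDiff M 1)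
      exact (Complex.ofRealCLM.contDiff.comp h2).contDiffAt
    have h3 : ContDiffAt ℝ 1 (fun z : E m => v z k) z :=
      (contDiffAt_pi.1 ((hv z hz).restrict_scalars ℝ)) k
    have h4 : ContDiffAt ℝ 1 (fun z : E m => (starRingEnd ℂ) (a z)) z :=
      (Complex.conjCLE.contDiff (n := 1)).contDiffAt.comp z ((ha z hz).restrict_scalars ℝ)
    exact h1.mul (h3.mul h4)
  · have h1 : msW M f v a k =ᶠ[nhds z] fun _ => (0 : ℂ) := by
      filter_upwards [ms_near hf hz] with y hy
      unfold msW
      rw [hy]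
      simp
    exact contDiffAt_const.congr_of_eventuallyEq h1

private theorem ms_W_compact {M : Sys m} (hM : Good M) {l : V m} {f : V m → ℝ} (hf : Test l f)
    (v : E m → E m) (a : E m → ℂ) (k : Fin m) : HasCompactSupport (msW M f v a k) := by
  refine HasCompactSupport.intro (isCompact_preimage M hM hf.compact) fun z hz => ?_
  have h1 : f (q M z) = 0 := image_eq_zero_of_notMem_tsupport hz
  unfold msW
  rw [h1]
  simp

private theorem ms_point {M : Sys m} (hM : Good M) {l : V m} {f : V m → ℝ} (hf : Test l f)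
    {v : E m → E m} (hv : Hol M l v) {a : E m → ℂ} (ha : Hol M l a) (z : E m) :
    (-Complex.I * (∑ j, ((pd j f (q M z) : ℝ) : ℂ) * ((M j).mulVec z ⬝ᵥ v z))
      + ((f (q M z) : ℝ) : ℂ) * dv v z) * (starRingEnd ℂ) (a z) =
    ∑ k, (1 / 2 : ℂ) * (fderiv ℝ (msW M f v a k) z (Pi.single k 1)
      - Complex.I * fderiv ℝ (msW M f v a k) z (Pi.single k Complex.I)) := by
  by_cases hz : z ∈ U M l
  · -- derivative of the product
    have hd : ∀ (k : Fin m) (w : E m), fderiv ℝ (msW M f v a k) z w =
        ((f (q M z) : ℝ) : ℂ) * (v z k * (starRingEnd ℂ) (fderiv ℂ a z w) +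
          (fderiv ℂ v z w) k * (starRingEnd ℂ) (a z)) +
        (((∑ j, pd j f (q M z) * (2 * ((M j).mulVec z ⬝ᵥ w).im) : ℝ)) : ℂ) *
          (v z k * (starRingEnd ℂ) (a z)) := by
      intro k w
      have h2 : ContDiff ℝ 1 (fun z => f (q M z)) :=
        (hf.smooth.of_le (by exact_mod_cast le_top)).comp (q_contDiff M 1)
      have h3 : HasFDerivAt (fun z => f (q M z)) (fderiv ℝ (fun z => f (q M z)) z) z :=
        ((h2.differentiable one_ne_zero) z).hasFDerivAt
      have h4 : HasFDerivAt (fun z : E m => ((f (q M z) : ℝ) : ℂ))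
          (Complex.ofRealCLM.comp (fderiv ℝ (fun z => f (q M z)) z)) z :=
        Complex.ofRealCLM.hasFDerivAt.comp z h3
      have h5 : HasFDerivAt v ((fderiv ℂ v z).restrictScalars ℝ) z :=
        ((hv z hz).differentiableAt one_ne_zero).hasFDerivAt.restrictScalars ℝ
      have h6 : HasFDerivAt (fun z : E m => v z k)
          ((ContinuousLinearMap.proj k : E m →L[ℝ] ℂ).comp ((fderiv ℂ v z).restrictScalars ℝ)) z :=
        (ContinuousLinearMap.proj k : E m →L[ℝ] ℂ).hasFDerivAt.comp z h5
      have h7 : HasFDerivAt a ((fderiv ℂ a z).restrictScalars ℝ) z :=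
        ((ha z hz).differentiableAt one_ne_zero).hasFDerivAt.restrictScalars ℝ
      have h8 : HasFDerivAt (fun z : E m => (starRingEnd ℂ) (a z))
          ((Complex.conjCLE : ℂ →L[ℝ] ℂ).comp ((fderiv ℂ a z).restrictScalars ℝ)) z :=
        (Complex.conjCLE : ℂ →L[ℝ] ℂ).hasFDerivAt.comp z h7
      have h9 := (h4.mul (h6.mul h8)).fderiv
      have h10 : msW M f v a k = fun z => ((f (q M z) : ℝ) : ℂ) * (v z k * (starRingEnd ℂ) (a z)) := rfl
      rw [h10]
      have h11 : fderiv ℝ (fun z => ((f (q M z) : ℝ) : ℂ) * (v z k * (starRingEnd ℂ) (a z))) z = _ := h9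
      rw [h11, ← fderiv_comp_q M hM.1 hf.smooth]
      simp
      ring
    have hI : ∀ k : Fin m, (Pi.single k Complex.I : E m) = Complex.I • (Pi.single k (1 : ℂ) : E m) := by
      intro k
      rw [← Pi.single_smul, smul_eq_mul, mul_one]
    have hc : ∀ (j : Fin (m + 1)) (k : Fin m), (M j).mulVec z ⬝ᵥ (Pi.single k 1 : E m) = (M j).mulVec z k := by
      intro j k
      simp
    have hk : ∀ k : Fin m, (1 / 2 : ℂ) * (fderiv ℝ (msW M f v a k) z (Pi.single k 1)
        - Complex.I * fderiv ℝ (msW M f v a k) z (Pi.single k Complex.I)) =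
        (-Complex.I * (∑ j, ((pd j f (q M z) : ℝ) : ℂ) * ((M j).mulVec z k * v z k))
          + ((f (q M z) : ℝ) : ℂ) * (fderiv ℂ v z (Pi.single k 1)) k) * (starRingEnd ℂ) (a z) := by
      intro k
      rw [hd, hd, hI]
      simp only [map_smul, dotProduct_smul, smul_eq_mul, hc, Pi.smul_apply, map_mul, Complex.conj_I]
      have hs : ((∑ j, pd j f (q M z) * (2 * ((M j).mulVec z k).im) : ℝ) : ℂ) -
          Complex.I * ((∑ j, pd j f (q M z) * (2 * (Complex.I * (M j).mulVec z k).im) : ℝ) : ℂ) =
          2 * (-Complex.I * ∑ j, ((pd j f (q M z) : ℝ) : ℂ) * (M j).mulVec z k) := by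
        push_cast
        rw [Finset.mul_sum, ← Finset.sum_sub_distrib, Finset.mul_sum, Finset.mul_sum]
        refine Finset.sum_congr rfl fun j _ => ?_
        have h1 : (Complex.I * (M j).mulVec z k).im = ((M j).mulVec z k).re := by simp
        rw [h1]
        have h2 : (M j).mulVec z k = (((M j).mulVec z k).re : ℂ) + (((M j).mulVec z k).im : ℂ) * Complex.I :=
          (Complex.re_add_im _).symm
        conv_rhs => rw [h2]
        linear_combination (2 * ((pd j f (q M z) : ℝ) : ℂ) * (((M j).mulVec z k).im : ℂ)) * Complex.I_mul_I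
      have hsum : (∑ j, ((pd j f (q M z) : ℝ) : ℂ) * ((M j).mulVec z k * v z k)) =
          (∑ j, ((pd j f (q M z) : ℝ) : ℂ) * (M j).mulVec z k) * v z k := by
        rw [Finset.sum_mul]
        exact Finset.sum_congr rfl fun j _ => by ring
      rw [hsum]
      linear_combination (1 / 2 : ℂ) * (v z k * (starRingEnd ℂ) (a z)) * hs +
        (1 / 2 : ℂ) * ((f (q M z) : ℝ) : ℂ) * (v z k * (starRingEnd ℂ) (fderiv ℂ a z (Pi.single k 1)) -
          (fderiv ℂ v z (Pi.single k 1)) k * (starRingEnd ℂ) (a z)) * Complex.I_mul_I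
    rw [Finset.sum_congr rfl fun k _ => hk k, ← Finset.sum_mul, Finset.sum_add_distrib, ← Finset.mul_sum,
      Finset.sum_comm, ← Finset.mul_sum]
    congr 3
    · refine Finset.sum_congr rfl fun j _ => ?_
      rw [← Finset.mul_sum]
      rfl
  · have h1 := ms_near hf hz
    have h2 : f (q M z) = 0 := h1.self_of_nhds
    have h3 : ∀ j, pd j f (q M z) = 0 := by
      intro j
      have h4 : q M z ∉ tsupport f := fun h => hz (hf.supp h)
      have h5 : f =ᶠ[nhds (q M z)] fun _ => (0 : ℝ) := notMem_tsupport_iff_eventuallyEq.1 h4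
      unfold pd
      rw [h5.fderiv_eq, fderiv_fun_const]
      rfl
    have h6 : ∀ (k : Fin m) (w : E m), fderiv ℝ (msW M f v a k) z w = 0 := by
      intro k w
      have h7 : msW M f v a k =ᶠ[nhds z] fun _ => (0 : ℂ) := by
        filter_upwards [h1] with y hy
        unfold msW
        rw [hy]
        simp
      rw [h7.fderiv_eq, fderiv_fun_const]
      rfl
    simp [h2, h3, h6]

theorem master (M : Sys m) (hM : Good M) {l : V m} {f : V m → ℝ} (hf : Test l f)
    {v : E m → E m} (hv : Hol M l v) {a : E m → ℂ} (ha : Hol M l a) :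
    ∫ z : E m, (-Complex.I * (∑ j, ((pd j f (q M z) : ℝ) : ℂ) * ((M j).mulVec z ⬝ᵥ v z))
      + ((f (q M z) : ℝ) : ℂ) * dv v z) * (starRingEnd ℂ) (a z) = 0 := by
  have hint : ∀ (k : Fin m) (w : E m), Integrable (fun z => fderiv ℝ (msW M f v a k) z w) := by
    intro k w
    exact (((ms_W_contDiff hf hv ha k).continuous_fderiv one_ne_zero).clm_apply
      continuous_const).integrable_of_hasCompactSupport ((ms_W_compact hM hf v a k).fderiv_apply (𝕜 := ℝ) w)
  have h0 : ∀ (k : Fin m) (w : E m), ∫ z, fderiv ℝ (msW M f v a k) z w = 0 := fun k w =>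
    integral_fderiv_zero (ms_W_contDiff hf hv ha k) (ms_W_compact hM hf v a k) w
  rw [integral_congr_ae (Filter.Eventually.of_forall fun z => ms_point hM hf hv ha z)]
  have hs : ∀ k ∈ (Finset.univ : Finset (Fin m)), Integrable (fun z => (1 / 2 : ℂ) *
      (fderiv ℝ (msW M f v a k) z (Pi.single k 1)
        - Complex.I * fderiv ℝ (msW M f v a k) z (Pi.single k Complex.I))) := fun k _ =>
    ((hint k _).sub ((hint k _).const_mul _)).const_mul _
  rw [integral_finsetSum _ hs]
  refine Finset.sum_eq_zero fun k _ => ?_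
  rw [integral_const_mul, integral_sub (hint k _) ((hint k _).const_mul _), integral_const_mul, h0, h0]
  simp

end Pool.Agent.Lib.MP_7fdaab_ag.KP
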