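import Pool.Agent.Lib.MP_7fdaab_ag.KP.Disc

/-!
hop_mod row OddC: no odd continuous map without zeros from `R^n` minus 0, `n >= 3`, to the nonzero
complex numbers: `disc_lemma` with `ι = Unit` for the values on the upper half sphere.
-/

namespace Pool.Agent.Lib.MP_7fdaab_ag.KP

theorem no_odd_C {n : ℕ} (hn : 3 ≤ n) (C : (Fin n → ℝ) → ℂ) (hC : ContinuousOn C {0}ᶜ)
    (h0 : ∀ l, l ≠ 0 → C l ≠ 0) (hodd : ∀ l, l ≠ 0 → C (-l) = - C l) : False := by
  -- the hemisphere
  let p : ℂ → (Fin n → ℝ) := fun x i =>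
    if (i : ℕ) = 0 then x.re else if (i : ℕ) = 1 then x.im else
      if (i : ℕ) = 2 then Real.sqrt (1 - ‖x‖ ^ 2) else 0
  have hpc : Continuous p := by
    refine continuous_pi (fun i => ?_)
    by_cases h0 : (i : ℕ) = 0
    · simp only [p, h0, if_true]; exact Complex.continuous_re
    · by_cases h1 : (i : ℕ) = 1
      · simp only [p, h1, if_true]; simp; exact Complex.continuous_im
      · by_cases h2 : (i : ℕ) = 2
        · simp only [p, h2]; simp; fun_prop
        · simp only [p, h0, h1, h2, if_false]; exact continuous_const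
  have hp0 : ∀ x : ℂ, ‖x‖ ≤ 1 → p x ≠ 0 := by
    intro x hx h
    have e0 := congrFun h ⟨0, by omega⟩
    have e1 := congrFun h ⟨1, by omega⟩
    have e2 := congrFun h ⟨2, by omega⟩
    simp [p] at e0 e1 e2
    have hx0 : x = 0 := Complex.ext e0 e1
    rw [hx0] at e2
    simp at e2
  have hpn : ∀ x : ℂ, ‖x‖ = 1 → p (-x) = - p x := by
    intro x hx
    funext i
    by_cases h0 : (i : ℕ) = 0
    · simp [p, h0]
    · by_cases h1 : (i : ℕ) = 1
      · simp [p, h1]
      · by_cases h2 : (i : ℕ) = 2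
        · simp [p, h2, hx]
        · simp [p, h0, h1, h2]
  refine disc_lemma (ι := Unit) (fun x => Matrix.of (fun _ _ => C (p x))) ?_ ?_ ?_
  · intro i j
    simp only [Matrix.of_apply]
    refine hC.comp hpc.continuousOn (fun x hx => ?_)
    rw [Metric.mem_closedBall, dist_zero_right] at hx
    exact hp0 x hx
  · intro x hx
    rw [Metric.mem_closedBall, dist_zero_right] at hx
    obtain ⟨w, hw⟩ := IsAlgClosed.exists_pow_nat_eq (C (p x)) (n := 2) (by norm_num)
    refine ⟨fun _ => w, ?_, ?_⟩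
    · intro h
      have h1 := congrFun h ()
      simp only [Pi.zero_apply] at h1
      apply h0 _ (hp0 x hx)
      rw [← hw, h1]; simp
    · ext i j
      simp [Matrix.vecMulVec_apply, ← hw, sq]
  · intro x hx
    ext i j
    simp only [Matrix.of_apply, Matrix.neg_apply]
    rw [hpn x hx, hodd _ (hp0 x hx.le)]

end Pool.Agent.Lib.MP_7fdaab_ag.KP
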