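import Pool.Agent.Lib.MP_7fdaab_ag.KP.Proper
import Pool.Agent.Lib.MP_7fdaab_ag.KP.Alg1
import Pool.Agent.Lib.MP_7fdaab_ag.KP.Alg2

/-!
hop_mod row Perturb (100-150 lines): a good system can be made generic.
PROOF.  `B : Sys m` with `B 0 = I • 1`, `B 1 = E_00` (index 0 of `Fin m` is the first coordinate),
`B (j+1) = E_{0 j} + E_{j 0}` for `j >= 1`, and `M^t = M + t B` (`t` real).  `z₁ = e_0` (the first basis
vector of `E m`).  (1) `det (M^t 0) = det (M 0 + t I)` is a polynomial in `t` with leading coefficient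
`I^m`: nonzero for all but finitely many `t`.  (2) `q(M^t, z₁)_0 = Im (M 0)_{00} + t`: nonzero except for
one `t`.  (3) `P (M^t) z₁ (toC (q (M^t) z₁))` is a polynomial in `t` (entries of the matrix are affine in
`t`) of formal degree `m + 1` with leading coefficient `P B z₁ (toC (q B z₁))`: here `q B z₁ = e_0`
(`phi B z₁ = (I, 1, 0, ..)`), and the columns `rho_k(j) = (B_j e_0)_k`: row `j+1` of the lower right block is
`e_j`, so the determinant is 1.  So it is nonzero for all but finitely many `t`.  (4) `Good` for small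
`t`: symmetric; by `exists_lower`, `c |z|^2 <= |q M z|` and `|q B z| <= C |z|^2`, so for
`|t| C < c`: `q (M^t) z = q M z + t q B z != 0` for `z != 0`.  Choose a small `t > 0` outside the finite
exceptional set.  If `q(M^t, z₁)_0 > 0` take `z₀ = z₁`, else `z₀ = I z₁` (`q_I_smul`, `P_smul`:
`P (I z₁) (- q) = - I^m P z₁ q != 0`).
-/

namespace Pool.Agent.Lib.MP_7fdaab_ag.KP

open Matrix MeasureTheory

variable {m : ℕ}

/-- the perturbing system -/
private noncomputable def BB (n : ℕ) : Sys (n + 1) :=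
  Fin.cons (Complex.I • (1 : Matrix (Fin (n + 1)) (Fin (n + 1)) ℂ))
    (fun j => Matrix.of fun a b => (if a = 0 ∧ b = j then 1 else 0) + (if a = j ∧ b = 0 then 1 else 0))

private lemma BB_zero (n : ℕ) : BB n 0 = Complex.I • (1 : Matrix (Fin (n + 1)) (Fin (n + 1)) ℂ) := rfl

private lemma BB_succ (n : ℕ) (j a b : Fin (n + 1)) :
    BB n j.succ a b = (if a = 0 ∧ b = j then 1 else 0) + (if a = j ∧ b = 0 then 1 else 0) := rfl

private lemma BB_symm (n : ℕ) (j : Fin (n + 2)) : (BB n j).IsSymm := by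
  refine Fin.cases ?_ (fun j => ?_) j
  · rw [BB_zero]
    exact Matrix.isSymm_one.smul _
  · ext a b
    rw [Matrix.transpose_apply, BB_succ, BB_succ]
    rw [add_comm]
    congr 1 <;> congr 1 <;> simp only [eq_iff_iff] <;> tauto

private lemma phi_add (M B : Sys m) (t : ℝ) (z : E m) (j : Fin (m + 1)) :
    phi (fun j => M j + (t : ℂ) • B j) z j = phi M z j + (t : ℂ) * phi B z j := by
  unfold phi
  rw [Matrix.add_mulVec, Matrix.smul_mulVec, dotProduct_add, dotProduct_smul, smul_eq_mul]

private lemma q_add (M B : Sys m) (t : ℝ) (z : E m) :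
    q (fun j => M j + (t : ℂ) • B j) z = q M z + t • q B z := by
  funext j
  simp only [q, phi_add, Pi.add_apply, Pi.smul_apply, smul_eq_mul, Complex.add_im,
    Complex.im_ofReal_mul]

private lemma q_upper (B : Sys m) : ∃ C : ℝ, 0 ≤ C ∧ ∀ z : E m, ‖q B z‖ ≤ C * ‖z‖ ^ 2 := by
  refine ⟨∑ j, ∑ i, ∑ k, ‖B j i k‖, by positivity, fun z => ?_⟩
  rw [pi_norm_le_iff_of_nonneg (by positivity)]
  intro j
  have h1 : ‖q B z j‖ ≤ ‖phi B z j‖ := by
    simp only [q]
    exact Complex.abs_im_le_norm _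
  have h2 : ‖phi B z j‖ ≤ (∑ i, ∑ k, ‖B j i k‖) * ‖z‖ ^ 2 := by
    unfold phi dotProduct
    refine (norm_sum_le _ _).trans ?_
    rw [Finset.sum_mul]
    refine Finset.sum_le_sum fun i _ => ?_
    rw [norm_mul, Finset.sum_mul]
    have h3 : ‖(B j).mulVec z i‖ ≤ ∑ k, ‖B j i k‖ * ‖z‖ := by
      unfold Matrix.mulVec dotProduct
      refine (norm_sum_le _ _).trans (Finset.sum_le_sum fun k _ => ?_)
      rw [norm_mul]
      exact mul_le_mul_of_nonneg_left (norm_le_pi_norm z k) (norm_nonneg _)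
    calc ‖z i‖ * ‖(B j).mulVec z i‖ ≤ ‖z‖ * ∑ k, ‖B j i k‖ * ‖z‖ :=
          mul_le_mul (norm_le_pi_norm z i) h3 (norm_nonneg _) (norm_nonneg _)
      _ = ∑ k, ‖B j i k‖ * ‖z‖ ^ 2 := by
          rw [Finset.mul_sum]
          refine Finset.sum_congr rfl fun k _ => ?_
          ring
  refine h1.trans (h2.trans ?_)
  refine mul_le_mul_of_nonneg_right ?_ (by positivity)
  exact Finset.single_le_sum (f := fun j => ∑ i, ∑ k, ‖B j i k‖)
    (fun j _ => by positivity) (Finset.mem_univ j)

private lemma P_neg (M : Sys m) (z : E m) (a : Fin (m + 1) → ℂ) : P M z (-a) = - P M z a := by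
  rw [P_lin, P_lin M z a]
  simp [Finset.sum_neg_distrib]

private lemma toC_neg (y : V m) : toC (-y) = - toC y := by
  funext j
  simp [toC]

/-- the first basis vector -/
private def z1 (n : ℕ) : E (n + 1) := Pi.single 0 1

private lemma mulVec_z1 (n : ℕ) (N : Matrix (Fin (n + 1)) (Fin (n + 1)) ℂ) (i : Fin (n + 1)) :
    N.mulVec (z1 n) i = N i 0 := by
  unfold z1
  rw [Matrix.mulVec_single_one]
  rfl

private lemma phi_z1 (n : ℕ) (M : Sys (n + 1)) (j : Fin (n + 2)) : phi M (z1 n) j = M j 0 0 := by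
  unfold phi
  rw [show z1 n ⬝ᵥ (M j).mulVec (z1 n) = (M j).mulVec (z1 n) 0 by
    unfold z1
    rw [single_one_dotProduct]]
  exact mulVec_z1 n _ 0

private lemma q_BB (n : ℕ) : q (BB n) (z1 n) = Pi.single 0 1 := by
  funext j
  simp only [q, phi_z1]
  refine Fin.cases ?_ (fun j => ?_) j
  · rw [BB_zero]; simp
  · rw [BB_succ, Pi.single_eq_of_ne (Fin.succ_ne_zero j)]
    split_ifs <;> simp

private lemma A_add (M B : Sys m) (t : ℝ) (z : E m) :
    A (fun j => M j + (t : ℂ) • B j) z (toC (q (fun j => M j + (t : ℂ) • B j) z)) =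
      (t : ℂ) • A B z (toC (q B z)) + A M z (toC (q M z)) := by
  rw [q_add]
  ext j c
  simp only [A, Matrix.of_apply, Matrix.add_apply, Matrix.smul_apply, smul_eq_mul]
  refine Fin.cases ?_ (fun c => ?_) c
  · simp only [Fin.cons_zero, toC, Pi.add_apply, Pi.smul_apply, smul_eq_mul, Complex.ofReal_add,
      Complex.ofReal_mul]
    ring
  · simp only [Fin.cons_succ]
    rw [Matrix.add_mulVec, Matrix.smul_mulVec, Pi.add_apply, Pi.smul_apply, smul_eq_mul]
    ring

private lemma det_AB (n : ℕ) : (A (BB n) (z1 n) (toC (q (BB n) (z1 n)))).det ≠ 0 := by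
  have hu : (A (BB n) (z1 n) (toC (q (BB n) (z1 n)))).BlockTriangular id := by
    intro i j hij
    simp only [id] at hij
    simp only [A, Matrix.of_apply]
    revert hij
    refine Fin.cases ?_ (fun j => ?_) j
    · intro hij
      simp only [Fin.cons_zero, toC, q_BB]
      rw [Pi.single_eq_of_ne hij.ne']
      simp
    · intro hij
      simp only [Fin.cons_succ]
      rw [mulVec_z1]
      revert hij
      refine Fin.cases ?_ (fun i => ?_) i
      · intro hij
        exact absurd hij (by simp)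
      · intro hij
        have h : j < i := Fin.succ_lt_succ_iff.mp hij
        rw [BB_succ, if_neg, if_neg, add_zero]
        · rintro ⟨h1, -⟩
          exact h.ne h1
        · rintro ⟨h1, h2⟩
          rw [h1] at h
          rw [← h2] at h
          exact absurd h (by simp)
  rw [Matrix.det_of_upperTriangular hu]
  rw [Finset.prod_ne_zero_iff]
  intro j _
  simp only [A, Matrix.of_apply]
  refine Fin.cases ?_ (fun j => ?_) j
  · simp only [Fin.cons_zero, toC, q_BB]
    simp
  · simp only [Fin.cons_succ]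
    rw [mulVec_z1, BB_succ]
    by_cases h : j = 0
    · subst h
      simp
    · simp [h]

/-- a polynomial in a real parameter with invertible leading matrix vanishes finitely often -/
private lemma fin_bad {k : ℕ} (S T : Matrix (Fin k) (Fin k) ℂ) (hS : S.det ≠ 0) :
    {t : ℝ | ((t : ℂ) • S + T).det = 0}.Finite := by
  set p : Polynomial ℂ :=
    ((Polynomial.X : Polynomial ℂ) • S.map Polynomial.C + T.map Polynomial.C).det with hp
  have hp0 : p ≠ 0 := by
    intro h
    have := Polynomial.coeff_det_X_add_C_card S T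
    rw [← hp, h] at this
    exact hS (by simpa using this.symm)
  have hev : ∀ t : ℂ, p.eval t = (t • S + T).det := by
    intro t
    rw [hp, ← Polynomial.coe_evalRingHom, RingHom.map_det]
    congr 1
    ext i j
    simp
    exact mul_comm _ _
  have hfin : {t : ℂ | p.eval t = 0}.Finite := by
    have := Polynomial.finite_setOf_isRoot hp0
    exact this
  have := hfin.preimage (f := fun t : ℝ => (t : ℂ)) (Complex.ofReal_injective.injOn)
  refine this.subset ?_
  intro t ht
  simp only [Set.mem_preimage, Set.mem_setOf_eq] at ht ⊢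
  rw [hev]
  exact ht

theorem perturb (hm : 1 ≤ m) (M : Sys m) (hM : Good M) :
    ∃ M' : Sys m, Good M' ∧ (M' 0).det ≠ 0 ∧
      ∃ z₀ : E m, 0 < q M' z₀ 0 ∧ P M' z₀ (toC (q M' z₀)) ≠ 0 := by
  obtain ⟨n, rfl⟩ : ∃ n, m = n + 1 := ⟨m - 1, by omega⟩
  obtain ⟨c, hc, hlow⟩ := exists_lower M hM
  obtain ⟨C, hC, hup⟩ := q_upper (BB n)
  -- the finite exceptional set
  have hb1 : {t : ℝ | ((t : ℂ) • (BB n 0) + M 0).det = 0}.Finite := by
    refine fin_bad _ _ ?_
    rw [BB_zero, Matrix.det_smul, Matrix.det_one, mul_one]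
    exact pow_ne_zero _ Complex.I_ne_zero
  have hb2 : {t : ℝ | ((t : ℂ) • A (BB n) (z1 n) (toC (q (BB n) (z1 n))) +
      A M (z1 n) (toC (q M (z1 n)))).det = 0}.Finite := fin_bad _ _ (det_AB n)
  have hb3 : {t : ℝ | q M (z1 n) 0 + t = 0}.Finite := by
    refine (Set.finite_singleton (-(q M (z1 n) 0))).subset ?_
    intro t ht
    simp only [Set.mem_setOf_eq] at ht
    simp only [Set.mem_singleton_iff]
    linarith
  have hinf : (Set.Ioo (0 : ℝ) (c / (C + 1))).Infinite := Set.Ioo_infinite (by positivity)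
  obtain ⟨t, ht, hbad⟩ := hinf.exists_notMem_finite ((hb1.union hb2).union hb3)
  simp only [Set.mem_union, Set.mem_setOf_eq, not_or] at hbad
  obtain ⟨⟨h1, h2⟩, h3⟩ := hbad
  set M' : Sys (n + 1) := fun j => M j + (t : ℂ) • BB n j with hM'
  have hq' : ∀ z, q M' z = q M z + t • q (BB n) z := fun z => q_add M (BB n) t z
  have hgood : Good M' := by
    refine ⟨fun j => (hM.1 j).add ((BB_symm n j).smul _), fun z hz => ?_⟩
    rw [hq'] at hz
    have e1 : ‖q M z‖ = t * ‖q (BB n) z‖ := by
      rw [eq_neg_of_add_eq_zero_left hz, norm_neg, norm_smul, Real.norm_of_nonneg ht.1.le]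
    have e2 : c * ‖z‖ ^ 2 ≤ t * (C * ‖z‖ ^ 2) :=
      (hlow z).trans (e1 ▸ mul_le_mul_of_nonneg_left (hup z) ht.1.le)
    have e3 : t * C < c := by
      have := ht.2
      rw [lt_div_iff₀ (by positivity)] at this
      nlinarith [ht.1]
    by_contra hne
    have : 0 < ‖z‖ ^ 2 := by
      have := norm_pos_iff.mpr hne
      positivity
    nlinarith
  have hP : P M' (z1 n) (toC (q M' (z1 n))) ≠ 0 := by
    unfold P
    rw [hM', A_add]
    exact h2
  have h0 : q M' (z1 n) 0 ≠ 0 := by
    rw [hq', Pi.add_apply, Pi.smul_apply, q_BB, Pi.single_eq_same, smul_eq_mul, mul_one]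
    exact h3
  refine ⟨M', hgood, ?_, ?_⟩
  · have : M' 0 = (t : ℂ) • BB n 0 + M 0 := by
      rw [hM']
      exact add_comm _ _
    rw [this]
    exact h1
  · rcases lt_or_gt_of_ne h0 with h | h
    · refine ⟨Complex.I • z1 n, ?_, ?_⟩
      · rw [q_I_smul]
        simpa using h
      · rw [q_I_smul, toC_neg, P_neg, P_smul]
        exact neg_ne_zero.mpr (mul_ne_zero (pow_ne_zero _ Complex.I_ne_zero) hP)
    · exact ⟨z1 n, h, hP⟩

end Pool.Agent.Lib.MP_7fdaab_ag.KP
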