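import Pool.Agent.Lib.MP_7fdaab_ag.KP.ExNe
import Pool.Agent.Lib.MP_7fdaab_ag.KP.Cfun
import Pool.Agent.Lib.MP_7fdaab_ag.KP.OddC
import Pool.Agent.Lib.MP_7fdaab_ag.KP.Four3
import Pool.Agent.Lib.MP_7fdaab_ag.KP.Perturb

/-!
hop_mod row NoGood (assembly).  A good system of `m + 1` forms in `m >= 3` variables does not exist:
perturb it to a generic one; the pairing is nonzero for some test function, so `m = 2 k` and
`κ ≠ 0`, hence `C` has no zeros and all `SL M l`, `l ≠ 0`, are invertible.  If `k` is even, `C` is odd: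
contradiction; if `k` is odd, the matrices give a four-dimensional family: contradiction.
-/

namespace Pool.Agent.Lib.MP_7fdaab_ag.KP

open Matrix MeasureTheory

variable {m : ℕ}

theorem no_good (hm : 3 ≤ m) (M₀ : Sys m) (hM₀ : Good M₀) : False := by
  obtain ⟨M, hM, hdet, z₀, hz, hP⟩ := perturb (by omega) M₀ hM₀
  obtain ⟨k, f, hk, hf, hne⟩ := exists_ne M hM hdet (by omega) hz hP
  have hk' : m = 2 * k := hk.symm
  obtain ⟨C, κ, hC, hneg, hκ, hD⟩ := exists_C M hM k hk' (by omega)
  have hl0 : (l0 : V m) ≠ 0 := by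
    intro h
    have := congrFun h 0
    simp [l0] at this
  have hul : ul M k l0 = fun z => ((phi M z 0) ^ k)⁻¹ := by
    funext z
    simp only [ul, l0, lphi_single]
  have hC0 : C l0 ≠ 0 := by
    intro h0
    have := hD l0 f hl0 hf
    rw [hul, h0, zero_mul] at this
    exact hne this
  have hκ0 : κ ≠ 0 := by
    rw [← hκ l0 hl0]
    refine mul_ne_zero (pow_ne_zero 2 hC0) ?_
    rw [l0, SL_single]
    exact hdet
  have hCne : ∀ l : V m, l ≠ 0 → C l ≠ 0 := by
    intro l hl h
    apply hκ0
    rw [← hκ l hl, h]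
    simp
  have hSne : ∀ l : V m, l ≠ 0 → (SL M l).det ≠ 0 := by
    intro l hl h
    apply hκ0
    rw [← hκ l hl, h, mul_zero]
  rcases Nat.even_or_odd k with he | ho
  · -- `C` is odd
    refine no_odd_C (n := m + 1) (by omega) C hC hCne (fun l hl => ?_)
    rw [hneg l hl, Even.add_one he |>.neg_one_pow, neg_one_mul]
  · -- four dimensional family
    obtain ⟨t, ht⟩ := ho
    have h4 : 4 ≤ m + 1 := by omega
    refine no_family (m := m) (by omega)
      (fun j : Fin 4 => M (Fin.castLE h4 j)) (fun j => hM.1 _) (fun x hx => ?_)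
    -- extend `x` by zero
    let y : V m := fun i => if h : (i : ℕ) < 4 then x ⟨i, h⟩ else 0
    have hy : ∀ j : Fin 4, y (Fin.castLE h4 j) = x j := by
      intro j
      simp [y]
    have hy0 : y ≠ 0 := by
      intro h
      apply hx
      funext j
      rw [← hy j, h]
      rfl
    have hsum : SL M y = ∑ j : Fin 4, ((x j : ℝ) : ℂ) • M (Fin.castLE h4 j) := by
      unfold SL
      rw [← Finset.sum_subset (s₁ := Finset.univ.map (Fin.castLEEmb h4))
        (Finset.subset_univ _)]
      · rw [Finset.sum_map]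
        refine Finset.sum_congr rfl (fun j _ => ?_)
        have := hy j
        simp only [Fin.coe_castLEEmb]
        rw [this]
      · intro i _ hi
        have : ¬ ((i : ℕ) < 4) := by
          intro hlt
          apply hi
          rw [Finset.mem_map]
          exact ⟨⟨i, hlt⟩, Finset.mem_univ _, by ext; simp⟩
        simp [y, this]
    rw [← hsum]
    exact hSne y hy0

end Pool.Agent.Lib.MP_7fdaab_ag.KP
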