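import Pool.Agent.Lib.MP_7fdaab_ag.KP.Defs

/-!
hop_mod row Proper (100-150 lines): properness of `q`, test functions, basic integrability.
PROOFS.  `q_contDiff`: polynomial in real and imaginary parts (`Complex.imCLM` composed with
`phi`, restrict scalars).  `exists_lower`: `norm (q z)` is continuous and positive on the unit sphere
of `E m` (compact; `Good`), let `c` be its minimum (if the sphere is empty, `c = 1`: `m = 0`);
`q (t z) = t^2 q z` for real `t`.  `isCompact_preimage`: closed (continuity) and bounded (lower bound).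
`integrable_nice`: the function is continuous: on `U` product of continuous functions; at `z` not in
`U` the point `q z` is not in `tsupport f`, which is closed, so `f (q .)` vanishes near `z`; compact
support inside `q^{-1}(tsupport f)`.  `hasFDerivAt_comp_q`: chain rule, `fderiv` of `y ↦ f y` on
`v = sum_j v_j e_j`.  `exists_test`: `ContDiffBump` at `y` with small radii.
-/

namespace Pool.Agent.Lib.MP_7fdaab_ag.KP

open Matrix MeasureTheory

variable {m : ℕ}

theorem q_contDiff (M : Sys m) (n : WithTop ℕ∞) : ContDiff ℝ n (q M) := by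
  rw [contDiff_pi]
  intro j
  have h1 : ContDiff ℝ n (fun z : E m => phi M z j) := by
    unfold phi dotProduct Matrix.mulVec dotProduct
    refine ContDiff.sum fun i _ => ContDiff.mul (contDiff_apply ℝ ℂ i) ?_
    exact ContDiff.sum fun k _ => ContDiff.mul contDiff_const (contDiff_apply ℝ ℂ k)
  exact Complex.imCLM.contDiff.comp h1

theorem isOpen_H (l : V m) : IsOpen (H l) := by
  unfold H
  exact isOpen_lt continuous_const (by fun_prop)

theorem isOpen_U (M : Sys m) (l : V m) : IsOpen (U M l) :=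
  (isOpen_H l).preimage (q_contDiff M 0).continuous

private theorem phi_add_smul (M : Sys m) (hM : ∀ j, (M j).IsSymm) (z v : E m) (t : ℝ) (j : Fin (m + 1)) :
    phi M (z + t • v) j = phi M z j + (t : ℂ) * (2 * ((M j).mulVec z ⬝ᵥ v)) + (t : ℂ) ^ 2 * phi M v j := by
  have h0 : (t • v : E m) = (t : ℂ) • v := by
    funext i
    simp
  have h1 : z ⬝ᵥ (M j).mulVec v = (M j).mulVec z ⬝ᵥ v := by
    rw [Matrix.dotProduct_mulVec, ← Matrix.mulVec_transpose, (hM j).eq]
  have h2 : v ⬝ᵥ (M j).mulVec z = (M j).mulVec z ⬝ᵥ v := dotProduct_comm _ _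
  unfold phi
  rw [h0, Matrix.mulVec_add, Matrix.mulVec_smul]
  simp only [dotProduct_add, add_dotProduct, dotProduct_smul, smul_dotProduct, smul_eq_mul]
  rw [h1, h2]
  ring

private theorem phi_smul (M : Sys m) (v : E m) (t : ℝ) (j : Fin (m + 1)) :
    phi M (t • v) j = (t : ℂ) ^ 2 * phi M v j := by
  have h0 : (t • v : E m) = (t : ℂ) • v := by
    funext i
    simp
  unfold phi
  rw [h0, Matrix.mulVec_smul]
  simp only [dotProduct_smul, smul_dotProduct, smul_eq_mul]
  ring

private theorem q_smul (M : Sys m) (v : E m) (t : ℝ) : q M (t • v) = t ^ 2 • q M v := by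
  funext j
  have h : q M (t • v) j = t ^ 2 * q M v j := by
    unfold q
    rw [phi_smul]
    have : ((t : ℂ) ^ 2 * phi M v j) = ((t ^ 2 : ℝ) : ℂ) * phi M v j := by
      push_cast
      ring
    rw [this, Complex.im_ofReal_mul]
  rw [h, Pi.smul_apply, smul_eq_mul]

theorem exists_lower (M : Sys m) (hM : Good M) :
    ∃ c : ℝ, 0 < c ∧ ∀ z : E m, c * ‖z‖ ^ 2 ≤ ‖q M z‖ := by
  rcases (Metric.sphere (0 : E m) 1).eq_empty_or_nonempty with h0 | h0
  · refine ⟨1, one_pos, fun z => ?_⟩
    have hz : z = 0 := by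
      by_contra hz
      have hn : ‖z‖ ≠ 0 := norm_ne_zero_iff.mpr hz
      have : (‖z‖⁻¹ • z) ∈ Metric.sphere (0 : E m) 1 := by
        rw [mem_sphere_zero_iff_norm, norm_smul, norm_inv, norm_norm, inv_mul_cancel₀ hn]
      rw [h0] at this
      exact this
    rw [hz, norm_zero]
    simp
  · obtain ⟨u, hu, hmin⟩ := (isCompact_sphere (0 : E m) 1).exists_isMinOn h0
      ((q_contDiff M 0).continuous.norm.continuousOn)
    have hu1 : ‖u‖ = 1 := mem_sphere_zero_iff_norm.mp hu
    refine ⟨‖q M u‖, ?_, fun z => ?_⟩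
    · rw [norm_pos_iff]
      intro h
      have := hM.2 u h
      rw [this, norm_zero] at hu1
      exact zero_ne_one hu1
    · by_cases hz : z = 0
      · rw [hz, norm_zero]
        simp
      · have hn : ‖z‖ ≠ 0 := norm_ne_zero_iff.mpr hz
        have hs : (‖z‖⁻¹ • z) ∈ Metric.sphere (0 : E m) 1 := by
          rw [mem_sphere_zero_iff_norm, norm_smul, norm_inv, norm_norm, inv_mul_cancel₀ hn]
        have h1 : ‖q M u‖ ≤ ‖q M (‖z‖⁻¹ • z)‖ := hmin hs
        rw [q_smul, norm_smul, Real.norm_of_nonneg (by positivity)] at h1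
        have h2 : ‖q M u‖ * ‖z‖ ^ 2 ≤ (‖z‖⁻¹ ^ 2 * ‖q M z‖) * ‖z‖ ^ 2 :=
          mul_le_mul_of_nonneg_right h1 (by positivity)
        have h3 : (‖z‖⁻¹ ^ 2 * ‖q M z‖) * ‖z‖ ^ 2 = ‖q M z‖ := by
          field_simp
        linarith

theorem isCompact_preimage (M : Sys m) (hM : Good M) {K : Set (V m)} (hK : IsCompact K) :
    IsCompact (q M ⁻¹' K) := by
  obtain ⟨c, hc, hlow⟩ := exists_lower M hM
  obtain ⟨R, hR⟩ := hK.isBounded.exists_norm_le
  apply Metric.isCompact_of_isClosed_isBounded (hK.isClosed.preimage (q_contDiff M 0).continuous)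
  rw [isBounded_iff_forall_norm_le]
  refine ⟨|R| / c + 1, fun z hz => ?_⟩
  have h1 : c * ‖z‖ ^ 2 ≤ |R| := (hlow z).trans ((hR _ hz).trans (le_abs_self R))
  by_contra h
  push Not at h
  have h2 : 0 ≤ |R| / c := by positivity
  have h3 : 1 ≤ ‖z‖ := by linarith
  have h4 : ‖z‖ ≤ ‖z‖ ^ 2 := by nlinarith
  have h5 : |R| < c * ‖z‖ := by
    have : |R| / c < ‖z‖ := by linarith
    rw [div_lt_iff₀ hc] at this
    linarith
  nlinarith

theorem Test.ctest {l : V m} {f : V m → ℝ} (hf : Test l f) : CTest l f :=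
  ⟨hf.smooth.continuous, hf.compact, hf.supp⟩

theorem Test.pd {l : V m} {f : V m → ℝ} (hf : Test l f) (i : Fin (m + 1)) :
    Test l (KP.pd i f) := by
  refine ⟨?_, ?_, ?_⟩
  · exact (hf.smooth.fderiv_right (m := ((⊤ : ℕ∞) : WithTop ℕ∞)) (by norm_num)).clm_apply contDiff_const
  · exact hf.compact.fderiv_apply ℝ _
  · exact (tsupport_fderiv_apply_subset ℝ _).trans hf.supp

theorem Test.mul_smooth {l : V m} {f g : V m → ℝ} (hf : Test l f)
    (hg : ∀ y ∈ H l, ContDiffAt ℝ (⊤ : ℕ∞) g y) : Test l (fun y => f y * g y) := by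
  refine ⟨?_, ?_, ?_⟩
  · rw [contDiff_iff_contDiffAt]
    intro y
    by_cases hy : y ∈ H l
    · exact hf.smooth.contDiffAt.mul (hg y hy)
    · have hy' : y ∉ tsupport f := fun h => hy (hf.supp h)
      have h1 : (fun y => f y * g y) =ᶠ[nhds y] fun _ => 0 := by
        filter_upwards [(isClosed_tsupport f).isOpen_compl.mem_nhds hy'] with x hx
        rw [image_eq_zero_of_notMem_tsupport hx, zero_mul]
      exact contDiffAt_const.congr_of_eventuallyEq h1
  · exact hf.compact.mul_right
  · exact (tsupport_mul_subset_left).trans hf.supp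

theorem exists_test {l y : V m} (hy : y ∈ H l) {r : ℝ} (hr : 0 < r) :
    ∃ f : V m → ℝ, Test l f ∧ (∀ x, 0 ≤ f x) ∧ 0 < f y ∧
      tsupport f ⊆ Metric.closedBall y r ∧ 0 < ∫ x, f x := by
  obtain ⟨ρ0, hρ0, hball⟩ := Metric.isOpen_iff.mp (isOpen_H l) y hy
  obtain ⟨ρ, hρ, hρ1, hρ2⟩ : ∃ ρ : ℝ, 0 < ρ ∧ ρ ≤ r ∧ ρ < ρ0 :=
    ⟨min r (ρ0 / 2), lt_min hr (by linarith), min_le_left _ _, (min_le_right _ _).trans_lt (by linarith)⟩
  let f : ContDiffBump y := ⟨ρ / 2, ρ, by linarith, by linarith⟩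
  have hts : tsupport (f : V m → ℝ) = Metric.closedBall y ρ := f.tsupport_eq
  refine ⟨f, ⟨f.contDiff, f.hasCompactSupport, ?_⟩, fun x => f.nonneg, ?_, ?_, f.integral_pos⟩
  · rw [hts]
    exact (Metric.closedBall_subset_ball hρ2).trans hball
  · rw [f.one_of_mem_closedBall (Metric.mem_closedBall_self (by show 0 ≤ ρ / 2; linarith))]
    exact one_pos
  · rw [hts]
    exact Metric.closedBall_subset_closedBall hρ1

private theorem cont_at_nice (M : Sys m) {l : V m} {f : V m → ℝ} (hf : CTest l f)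
    {w : E m → ℂ} (hw : ContinuousOn w (U M l)) (z : E m) :
    ContinuousAt (fun z : E m => ((f (q M z) : ℝ) : ℂ) * w z) z := by
  have hq : Continuous (q M) := (q_contDiff M 0).continuous
  by_cases hz : z ∈ U M l
  · have h1 : ContinuousAt w z := hw.continuousAt ((isOpen_U M l).mem_nhds hz)
    have h2 : Continuous fun z : E m => ((f (q M z) : ℝ) : ℂ) :=
      Complex.continuous_ofReal.comp (hf.cont.comp hq)
    exact h2.continuousAt.mul h1
  · have hz' : q M z ∉ tsupport f := fun h => hz (hf.supp h)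
    have h1 : (fun z : E m => ((f (q M z) : ℝ) : ℂ) * w z) =ᶠ[nhds z] fun _ => 0 := by
      filter_upwards [hq.continuousAt.preimage_mem_nhds ((isClosed_tsupport f).isOpen_compl.mem_nhds hz')]
        with x hx
      rw [image_eq_zero_of_notMem_tsupport hx]
      simp
    exact continuousAt_const.congr h1.symm

theorem continuous_nice (M : Sys m) {l : V m} {f : V m → ℝ} (hf : CTest l f)
    {w : E m → ℂ} (hw : ContinuousOn w (U M l)) :
    Continuous (fun z : E m => ((f (q M z) : ℝ) : ℂ) * w z) :=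
  continuous_iff_continuousAt.mpr (cont_at_nice M hf hw)

theorem integrable_nice (M : Sys m) (hM : Good M) {l : V m} {f : V m → ℝ} (hf : CTest l f)
    {w : E m → ℂ} (hw : ContinuousOn w (U M l)) :
    Integrable (fun z : E m => ((f (q M z) : ℝ) : ℂ) * w z) := by
  apply (continuous_nice M hf hw).integrable_of_hasCompactSupport
  apply HasCompactSupport.intro (isCompact_preimage M hM hf.compact)
  intro z hz
  rw [image_eq_zero_of_notMem_tsupport (show q M z ∉ tsupport f from hz)]
  simp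

theorem fderiv_comp_q (M : Sys m) (hM : ∀ j, (M j).IsSymm) {f : V m → ℝ}
    (hf : ContDiff ℝ (⊤ : ℕ∞) f) (z v : E m) :
    fderiv ℝ (fun z => f (q M z)) z v =
      ∑ j, KP.pd j f (q M z) * (2 * ((M j).mulVec z ⬝ᵥ v).im) := by
  have hq : DifferentiableAt ℝ (q M) z := (q_contDiff M 1).differentiable one_ne_zero z
  have hfd : DifferentiableAt ℝ f (q M z) := hf.differentiable (by simp) _
  have h1 : fderiv ℝ (fun z => f (q M z)) z v = fderiv ℝ f (q M z) (fderiv ℝ (q M) z v) := by
    have := fderiv_comp z hfd hq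
    have e : (fun z => f (q M z)) = f ∘ q M := rfl
    rw [e, this]
    rfl
  have h2 : fderiv ℝ (q M) z v = fun j => 2 * ((M j).mulVec z ⬝ᵥ v).im := by
    have hc : HasDerivAt (fun t : ℝ => z + t • v) v 0 := by
      have := ((hasDerivAt_id (0 : ℝ)).smul_const v).const_add z
      simpa using this
    have hq' : HasFDerivAt (q M) (fderiv ℝ (q M) z) (z + (0 : ℝ) • v) := by
      rw [zero_smul, add_zero]
      exact hq.hasFDerivAt
    have a1 : HasDerivAt (fun t : ℝ => q M (z + t • v)) (fderiv ℝ (q M) z v) 0 :=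
      HasFDerivAt.comp_hasDerivAt (f := fun t : ℝ => z + t • v) (0 : ℝ) hq' hc
    have a2 : HasDerivAt (fun t : ℝ => q M (z + t • v)) (fun j => 2 * ((M j).mulVec z ⬝ᵥ v).im) 0 := by
      rw [hasDerivAt_pi]
      intro j
      have e1 : (fun t : ℝ => q M (z + t • v) j) =
          fun t : ℝ => q M z j + t * (2 * ((M j).mulVec z ⬝ᵥ v).im) + t ^ 2 * q M v j := by
        funext t
        unfold q
        rw [phi_add_smul M hM]
        have e2 : ((t : ℂ) ^ 2 * phi M v j) = ((t ^ 2 : ℝ) : ℂ) * phi M v j := by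
          push_cast
          ring
        have e3 : (2 : ℂ) * ((M j).mulVec z ⬝ᵥ v) = ((2 : ℝ) : ℂ) * ((M j).mulVec z ⬝ᵥ v) := by
          push_cast
          ring
        rw [e2, e3, Complex.add_im, Complex.add_im, Complex.im_ofReal_mul, Complex.im_ofReal_mul,
          Complex.im_ofReal_mul]
      rw [e1]
      have b1 : HasDerivAt (fun t : ℝ => t * (2 * ((M j).mulVec z ⬝ᵥ v).im))
          (1 * (2 * ((M j).mulVec z ⬝ᵥ v).im)) 0 := (hasDerivAt_id (0 : ℝ)).mul_const _
      have b2 : HasDerivAt (fun t : ℝ => t ^ 2 * q M v j) (((2 : ℕ) * (0 : ℝ) ^ (2 - 1)) * q M v j) 0 :=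
        (hasDerivAt_pow 2 (0 : ℝ)).mul_const _
      have b3 := (b1.const_add (q M z j)).add b2
      have e4 : (1 * (2 * ((M j).mulVec z ⬝ᵥ v).im)) + (((2 : ℕ) : ℝ) * (0 : ℝ) ^ (2 - 1)) * q M v j =
          2 * ((M j).mulVec z ⬝ᵥ v).im := by
        norm_num
      rw [e4] at b3
      exact b3
    exact a1.unique a2
  have h3 : ∀ w : V m, w = ∑ j, w j • (Pi.single j (1 : ℝ) : V m) := by
    intro w
    funext i
    rw [Finset.sum_apply]
    simp only [Pi.smul_apply, smul_eq_mul]
    rw [Finset.sum_eq_single i]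
    · simp
    · intro b _ hb
      rw [Pi.single_eq_of_ne (Ne.symm hb), mul_zero]
    · intro h
      exact absurd (Finset.mem_univ i) h
  rw [h1, h2]
  conv_lhs => rw [h3 (fun j => 2 * ((M j).mulVec z ⬝ᵥ v).im)]
  rw [map_sum]
  apply Finset.sum_congr rfl
  intro j _
  rw [map_smul, smul_eq_mul]
  unfold KP.pd
  ring

theorem Hol.continuousOn {F : Type} [NormedAddCommGroup F] [NormedSpace ℂ F] {M : Sys m}
    {l : V m} {u : E m → F} (hu : Hol M l u) : ContinuousOn u (U M l) :=
  fun z hz => (hu z hz).continuousAt.continuousWithinAt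

end Pool.Agent.Lib.MP_7fdaab_ag.KP
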