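import Pool.Agent.Lib.MP_7fdaab_ag.KP.Rel

/-!
hop_mod row Rec (80-130 lines): recursion at `l = e_0` (`M_0` invertible).
PROOF.  Strong induction on `d`.  `d = 0`: `h` is constant (induction on `HP`, or `HP.zero/const/add`)
and `h0`.  `d + 1`: induction on `HP`: zero and add are trivial (`D` is additive: integrability by
`integrable_nice`).  Case `coord i hg`, `h = z_i g`, `g` in `HP d`, `2 N = m + d + 1`, so `N >= 1` and
`2 (N - 1) = m + d - 1 >= 1`.  Let `c = (M 0)⁻¹ *ᵥ e_i` (so `(M 0) c = e_i`) and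
`v(z) = (g z * (phi_0^(N-1))⁻¹) • c`, holomorphic on `U M l0` (`phi_0 != 0` there), Euler degree
`d - 2 (N-1) = 1 - m`.  `dv v = (g' c) phi_0^(-(N-1)) - (N-1) g phi_0^(-N) phi_0' c` and
`phi_0'(z) c = 2 (M_0 z) . c = 2 z . (M_0 c) = 2 z_i` (symmetry).  `lemma2`:
`2 (N-1) D(z_i g phi_0^(-N); f) = D((g' c) phi_0^(-(N-1)); f)`, which is 0: if `d = 0`, `g' c = 0`
(`HP.fderiv_zero`); else `g' c` is in `HP (d-1)` (`HP.deriv`), `2 (N-1) = m + (d - 1)`, induction.
-/

namespace Pool.Agent.Lib.MP_7fdaab_ag.KP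

open Matrix MeasureTheory

variable {m : ℕ}

private theorem Rec_off {l : V m} {f : V m → ℝ} (hf : Test l f) {y : V m} (hy : y ∉ H l) :
    f y = 0 := by
  by_contra hne
  exact hy (hf.supp (subset_tsupport f hne))

private theorem Rec_congr (M : Sys m) {l : V m} {f : V m → ℝ} (hf : Test l f)
    {u w : E m → ℂ} (h : ∀ z ∈ U M l, u z = w z) : D M u f = D M w f := by
  unfold D
  congr 1
  funext z
  by_cases hz : z ∈ U M l
  · rw [h z hz]
  · have : f (q M z) = 0 := Rec_off hf (fun h' => hz h')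
    rw [this]
    simp

private theorem Rec_int (M : Sys m) (hM : Good M) {l : V m} {f : V m → ℝ} (hf : Test l f)
    {u : E m → ℂ} (hu : ContinuousOn u (U M l)) :
    Integrable (fun z : E m => ((f (q M z) : ℝ) : ℂ) * wt M z * u z) := by
  have h := integrable_nice M hM hf.ctest ((wt_continuous M).continuousOn.mul hu)
  refine h.congr (Filter.Eventually.of_forall fun z => ?_)
  simp only [mul_assoc, Pi.mul_apply]

private theorem Rec_add (M : Sys m) (hM : Good M) {l : V m} {f : V m → ℝ} (hf : Test l f)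
    {u w : E m → ℂ} (hu : ContinuousOn u (U M l)) (hw : ContinuousOn w (U M l)) :
    D M (fun z => u z + w z) f = D M u f + D M w f := by
  unfold D
  rw [← integral_add (Rec_int M hM hf hu) (Rec_int M hM hf hw)]
  congr 1
  funext z
  ring

private theorem Rec_mul (M : Sys m) (f : V m → ℝ) (c : ℂ) (u : E m → ℂ) :
    D M (fun z => c * u z) f = c * D M u f := by
  unfold D
  rw [← integral_const_mul]
  congr 1
  funext z
  ring

private theorem Rec_const {d : ℕ} {h : E m → ℂ} (hh : HP d h) :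
    d = 0 → ∃ c : ℂ, ∀ z, h z = c := by
  induction hh with
  | zero d => exact fun _ => ⟨0, fun _ => rfl⟩
  | const c => exact fun _ => ⟨c, fun _ => rfl⟩
  | coord i hg ih => exact fun h => absurd h (Nat.succ_ne_zero _)
  | add hg hh ihg ihh =>
    intro h
    obtain ⟨a, ha⟩ := ihg h
    obtain ⟨b, hb⟩ := ihh h
    exact ⟨a + b, fun z => congrArg₂ (· + ·) (ha z) (hb z)⟩

private theorem Rec_phi_ne (M : Sys m) {z : E m} (hz : z ∈ U M l0) : phi M z 0 ≠ 0 := by
  have h := lphi_ne M l0 z hz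
  unfold l0 at h
  rwa [lphi_single] at h

private theorem Rec_cont (M : Sys m) {d : ℕ} {h : E m → ℂ} (hh : HP d h) (N : ℕ) :
    ContinuousOn (fun z => h z * ((phi M z 0) ^ N)⁻¹) (U M l0) := by
  refine (hh.contDiff 1).continuous.continuousOn.mul ?_
  refine ContinuousOn.inv₀ ((phi_contDiff M 0 1).continuous.continuousOn.pow N) ?_
  intro z hz
  exact pow_ne_zero _ (Rec_phi_ne M hz)

private theorem Rec_pow {x : ℂ} (hx : x ≠ 0) (n : ℕ) :
    HasDerivAt (fun y : ℂ => (y ^ n)⁻¹) (-(n : ℂ) * (x ^ (n + 1))⁻¹) x := by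
  have h1 := (hasDerivAt_pow n x).inv (pow_ne_zero n hx)
  refine h1.congr_deriv ?_
  rcases n with _ | n
  · simp
  · have : x ^ (n + 1) ≠ 0 := pow_ne_zero _ hx
    have h2 : x ^ (n + 1 + 1) ≠ 0 := pow_ne_zero _ hx
    simp only [Nat.add_sub_cancel]
    field_simp
    try ring

private theorem Rec_deriv (M : Sys m) (hM : Good M) {d : ℕ} {g : E m → ℂ} (hg : HP d g) (n : ℕ)
    (c : E m) {z : E m} (hz : z ∈ U M l0) :
    ∃ L : E m →L[ℂ] ℂ, HasFDerivAt (fun z => (g z * ((phi M z 0) ^ n)⁻¹) • c) (L.smulRight c) z ∧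
      ∀ w, L w = fderiv ℂ g z w * ((phi M z 0) ^ n)⁻¹ +
        g z * (-(n : ℂ) * ((phi M z 0) ^ (n + 1))⁻¹ * (2 * ((M 0).mulVec z ⬝ᵥ w))) := by
  have hp : HasFDerivAt (fun z => phi M z 0) (fderiv ℂ (fun z => phi M z 0) z) z :=
    (((phi_contDiff M 0 1).differentiable (by norm_num)) z).hasFDerivAt
  have hgd : HasFDerivAt g (fderiv ℂ g z) z :=
    (((hg.contDiff 1).differentiable (by norm_num)) z).hasFDerivAt
  have h1 := (Rec_pow (Rec_phi_ne M hz) n).comp_hasFDerivAt z hp
  have h2 := hgd.mul h1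
  refine ⟨_, h2.smul_const c, ?_⟩
  intro w
  simp only [_root_.add_apply, _root_.smul_apply, smul_eq_mul,
    Function.comp_apply]
  rw [fderiv_phi M 0 (hM.1 0)]
  ring

private theorem Rec_sum (L : E m →L[ℂ] ℂ) (c : E m) :
    ∑ k, (L.smulRight c (Pi.single k 1)) k = L c := by
  have h : c = ∑ k, c k • (Pi.single k (1 : ℂ) : E m) := by
    funext j
    simp [Finset.sum_apply, Pi.single_apply]
  conv_rhs => rw [h]
  rw [map_sum]
  refine Finset.sum_congr rfl fun k _ => ?_
  rw [map_smul]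
  simp only [ContinuousLinearMap.smulRight_apply, Pi.smul_apply, smul_eq_mul]
  ring

private theorem Rec_inv (M : Sys m) (hM : Good M) (hdet : (M 0).det ≠ 0) (i : Fin m) (z : E m) :
    (M 0).mulVec z ⬝ᵥ ((M 0)⁻¹.mulVec (Pi.single i 1)) = z i := by
  have hu : IsUnit (M 0).det := isUnit_iff_ne_zero.mpr hdet
  rw [← Matrix.vecMul_transpose, ← Matrix.dotProduct_mulVec, (hM.1 0).eq, Matrix.mulVec_mulVec,
    Matrix.mul_nonsing_inv _ hu, Matrix.one_mulVec]
  simp

private theorem Rec_step (M : Sys m) (hM : Good M) (hdet : (M 0).det ≠ 0) (hm : 2 ≤ m)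
    {f : V m → ℝ} (hf : Test l0 f) {d n : ℕ} (hN : 2 * (n + 1) = m + (d + 1)) {g : E m → ℂ}
    (hg : HP d g) (i : Fin m)
    (hrec : D M (fun z => fderiv ℂ g z ((M 0)⁻¹.mulVec (Pi.single i 1)) *
      ((phi M z 0) ^ n)⁻¹) f = 0) :
    D M (fun z => z i * g z * ((phi M z 0) ^ (n + 1))⁻¹) f = 0 := by
  set c : E m := (M 0)⁻¹.mulVec (Pi.single i 1) with hc
  have hHol : Hol M l0 (fun z => (g z * ((phi M z 0) ^ n)⁻¹) • c) := by
    intro z hz
    refine ContDiffAt.smul (ContDiffAt.mul (hg.contDiff 1).contDiffAt ?_) contDiffAt_const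
    exact ((phi_contDiff M 0 1).contDiffAt.pow n).inv (pow_ne_zero _ (Rec_phi_ne M hz))
  have hHom : Hom M l0 (1 - (m : ℤ)) (fun z => (g z * ((phi M z 0) ^ n)⁻¹) • c) := by
    intro z hz
    obtain ⟨L, hL, hLw⟩ := Rec_deriv M hM hg n c hz
    have hp := Rec_phi_ne M hz
    rw [hL.fderiv, ContinuousLinearMap.smulRight_apply, hLw z, hg.euler z]
    have e1 : (M 0).mulVec z ⬝ᵥ z = phi M z 0 := by
      unfold phi
      exact dotProduct_comm _ _
    rw [e1, smul_smul]
    congr 1
    have h3 : (2 * (n + 1) : ℂ) = m + (d + 1) := by exact_mod_cast hN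
    have h4 : (m : ℂ) = 2 * n + 1 - d := by linear_combination -h3
    push_cast
    rw [h4, pow_succ]
    have : (phi M z 0) ^ n ≠ 0 := pow_ne_zero _ hp
    field_simp
    ring
  have h2 := lemma2 M hM hf hHol hHom
  have hdv : ∀ z ∈ U M l0, dv (fun z => (g z * ((phi M z 0) ^ n)⁻¹) • c) z =
      fderiv ℂ g z c * ((phi M z 0) ^ n)⁻¹ +
        (-(2 * n : ℂ)) * (z i * g z * ((phi M z 0) ^ (n + 1))⁻¹) := by
    intro z hz
    obtain ⟨L, hL, hLw⟩ := Rec_deriv M hM hg n c hz
    unfold dv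
    rw [hL.fderiv, Rec_sum, hLw c, hc, Rec_inv M hM hdet i z]
    ring
  rw [Rec_congr M hf hdv] at h2
  have hcont1 : ContinuousOn (fun z => fderiv ℂ g z c * ((phi M z 0) ^ n)⁻¹) (U M l0) := by
    refine ContinuousOn.mul ?_ ?_
    · have := ((hg.contDiff 1).continuous_fderiv (by norm_num)).clm_apply
        (continuous_const (y := c))
      exact this.continuousOn
    · refine ContinuousOn.inv₀ ((phi_contDiff M 0 1).continuous.continuousOn.pow n) ?_
      intro z hz
      exact pow_ne_zero _ (Rec_phi_ne M hz)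
  have hcont2 : ContinuousOn (fun z => (-(2 * n : ℂ)) *
      (z i * g z * ((phi M z 0) ^ (n + 1))⁻¹)) (U M l0) :=
    continuousOn_const.mul (Rec_cont M (HP.coord i hg) (n + 1))
  rw [Rec_add M hM hf hcont1 hcont2, hrec, zero_add, Rec_mul] at h2
  have hn : (-(2 * n : ℂ)) ≠ 0 := by
    have : n ≠ 0 := by omega
    simp [this]
  exact (mul_eq_zero.mp h2).resolve_left hn

theorem rec_zero (M : Sys m) (hM : Good M) (hdet : (M 0).det ≠ 0) (hm : 2 ≤ m)
    (h0 : ∀ f : V m → ℝ, Test l0 f → ∀ N : ℕ, 2 * N = m →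
      D M (fun z => ((phi M z 0) ^ N)⁻¹) f = 0)
    {d N : ℕ} (hN : 2 * N = m + d) {h : E m → ℂ} (hh : HP d h) {f : V m → ℝ}
    (hf : Test l0 f) : D M (fun z => h z * ((phi M z 0) ^ N)⁻¹) f = 0 := by
  induction d using Nat.strong_induction_on generalizing N h with
  | _ d ih =>
    rcases d with _ | d
    · obtain ⟨c, hc⟩ := Rec_const hh rfl
      have : (fun z => h z * ((phi M z 0) ^ N)⁻¹) = fun z => c * ((phi M z 0) ^ N)⁻¹ := by
        funext z
        rw [hc z]
      rw [this, Rec_mul, h0 f hf N (by omega), mul_zero]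
    · obtain ⟨n, rfl⟩ : ∃ n, N = n + 1 := ⟨N - 1, by omega⟩
      suffices key : ∀ e : ℕ, ∀ h : E m → ℂ, HP e h → e = d + 1 →
          D M (fun z => h z * ((phi M z 0) ^ (n + 1))⁻¹) f = 0 from key _ h hh rfl
      intro e h hh
      induction hh with
      | zero e =>
        intro _
        simp [D]
      | const c => exact fun h => absurd h (Nat.succ_ne_zero _).symm
      | @coord e g i hg _ =>
        intro he
        obtain rfl : e = d := by omega
        refine Rec_step M hM hdet hm hf hN hg i ?_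
        rcases e with _ | e
        · have : (fun z => fderiv ℂ g z ((M 0)⁻¹.mulVec (Pi.single i 1)) *
              ((phi M z 0) ^ n)⁻¹) = fun z => (0 : ℂ) := by
            funext z
            rw [hg.fderiv_zero, zero_mul]
          rw [this]
          simp [D]
        · exact ih e (by omega) (by omega) (HP.deriv hg _)
      | @add e g k hg hk ihg ihk =>
        intro he
        have e1 : (fun z => (g z + k z) * ((phi M z 0) ^ (n + 1))⁻¹) =
            fun z => g z * ((phi M z 0) ^ (n + 1))⁻¹ + k z * ((phi M z 0) ^ (n + 1))⁻¹ := by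
          funext z
          ring
        rw [e1, Rec_add M hM hf (Rec_cont M hg _) (Rec_cont M hk _), ihg he, ihk he, add_zero]

end Pool.Agent.Lib.MP_7fdaab_ag.KP
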