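import Pool.Agent.Lib.MP_7fdaab_ag.KP.Master
import Pool.Agent.Lib.MP_7fdaab_ag.KP.Alg1
import Pool.Agent.Lib.MP_7fdaab_ag.KP.DivX

/-!
hop_mod row Rel (120-160 lines): relations R1, R2 and Lemmas 1, 2.
PROOFS.
(R1) `master` with `v = X M (ej i) (ej j)` (entire, divergence free by `dv_X`), `a = u`; conjugate
the identity (f is real): `sum_t pd_t f conj((M_t z) . X) u` integrates to 0, and by `cramer_id`
`(M_t z) . X = p_i delta_{j t} - p_j delta_{i t}`, `p_i = P M z (ej i)`.
(R2) `master` with `v = w z` (vector field `z ↦ w(z) • z`): `dv = m w + w'(z) z = (m + d) w`, and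
`(M_j z) . (w z) = w phi_j`; `a = a`.
(R3) is `master` itself.
Lemma 1: `D(u; pd_i f) = sum_j int pd_i f(q) phi_j conj p_j u = sum_j int pd_j f(q) conj p_i (phi_j u)`
(R1 with `u phi_j`, integrals finite by `integrable_nice`) `= (m + d)/I int f(q) u conj p_i = 0` as
`d = - m` (R2 with `w = u`, `a = p_i`).
Lemma 2: put `w_j = (M_j z) . v`, degree `2 - m` (Euler: derivative of `M_j z . v` along `z` is
`M_j z . v + M_j z . (v' z)`).  Master for the field `phi_i v`, `a = p_i`: `dv (phi_i v) = phi_i dv v +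
2 (M_i z) . v` so  `int f phi_i (dv v) conj p_i = I sum_j int pd_j f w_j phi_i conj p_i -
2 int f w_i conj p_i`.  Sum over `i`, exchange by R1 (with `u = w_j phi_i`):
`sum_ij int pd_j f w_j phi_i conj p_i = sum_ij int pd_i f w_j phi_i conj p_j`, and R2 with `w = w_j`,
`a = p_j`: `I sum_i int pd_i f phi_i w_j conj p_j = (m + 2 - m) int f w_j conj p_j`.  Total
`2 sum_j int f w_j conj p_j - 2 sum_i int f w_i conj p_i = 0`.
-/

namespace Pool.Agent.Lib.MP_7fdaab_ag.KP

open Matrix MeasureTheory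

variable {m : ℕ}

private theorem hol_mul {M : Sys m} {l : V m} {u w : E m → ℂ} (hu : Hol M l u)
    (hw : Hol M l w) : Hol M l (fun z => u z * w z) := fun z hz => (hu z hz).mul (hw z hz)

private theorem hol_phi (M : Sys m) (l : V m) (j : Fin (m + 1)) :
    Hol M l (fun z => phi M z j) := fun _ _ => (phi_contDiff M j 1).contDiffAt

private theorem hol_P (M : Sys m) (l : V m) (a : Fin (m + 1) → ℂ) :
    Hol M l (fun z => P M z a) := fun _ _ => (P_contDiff M a 1).contDiffAt

private theorem off {M : Sys m} {l : V m} {f : V m → ℝ} (hf : CTest l f) {z : E m}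
    (hz : z ∉ U M l) : f (q M z) = 0 := by
  by_contra h
  exact hz (hf.supp (subset_tsupport f h))

private theorem conj_cont {M : Sys m} {l : V m} {u : E m → ℂ} (hu : ContinuousOn u (U M l)) :
    ContinuousOn (fun z => (starRingEnd ℂ) (u z)) (U M l) :=
  Complex.continuous_conj.comp_continuousOn hu

theorem R1 (M : Sys m) (hM : Good M) {l : V m} {f : V m → ℝ} (hf : Test l f)
    {u : E m → ℂ} (hu : Hol M l u) (i j : Fin (m + 1)) :
    ∫ z : E m, ((pd j f (q M z) : ℝ) : ℂ) * ((starRingEnd ℂ) (P M z (ej i)) * u z) =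
      ∫ z : E m, ((pd i f (q M z) : ℝ) : ℂ) * ((starRingEnd ℂ) (P M z (ej j)) * u z) := by
  have hc : ∀ t, CTest l (pd t f) := fun t => (hf.pd t).ctest
  have hm := master M hM hf (v := X M (ej i) (ej j))
    (fun z _ => (X_contDiff M _ _ 1).contDiffAt) hu
  have hco : ∀ s, ContinuousOn (fun z => (starRingEnd ℂ) (P M z (ej s)) * u z) (U M l) :=
    fun s => (conj_cont (hol_P M l (ej s)).continuousOn).mul hu.continuousOn
  have hI1 := integrable_nice M hM (hc j) (hco i)
  have hI2 := integrable_nice M hM (hc i) (hco j)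
  rw [← sub_eq_zero, ← integral_sub hI1 hI2]
  have h2 : ∫ z : E m, (starRingEnd ℂ) ((-Complex.I * (∑ t, ((pd t f (q M z) : ℝ) : ℂ) *
      ((M t).mulVec z ⬝ᵥ X M (ej i) (ej j) z))
      + ((f (q M z) : ℝ) : ℂ) * dv (X M (ej i) (ej j)) z) * (starRingEnd ℂ) (u z)) = 0 := by
    rw [integral_conj, hm, map_zero]
  have h3 : ∀ z : E m, (starRingEnd ℂ) ((-Complex.I * (∑ t, ((pd t f (q M z) : ℝ) : ℂ) *
      ((M t).mulVec z ⬝ᵥ X M (ej i) (ej j) z))
      + ((f (q M z) : ℝ) : ℂ) * dv (X M (ej i) (ej j)) z) * (starRingEnd ℂ) (u z)) =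
      Complex.I * (((pd j f (q M z) : ℝ) : ℂ) * ((starRingEnd ℂ) (P M z (ej i)) * u z) -
        ((pd i f (q M z) : ℝ) : ℂ) * ((starRingEnd ℂ) (P M z (ej j)) * u z)) := by
    intro z
    have h4 : ∑ t, ((pd t f (q M z) : ℝ) : ℂ) * ((M t).mulVec z ⬝ᵥ X M (ej i) (ej j) z) =
        ((pd j f (q M z) : ℝ) : ℂ) * P M z (ej i) -
          ((pd i f (q M z) : ℝ) : ℂ) * P M z (ej j) := by
      have h5 : ∀ t, ((pd t f (q M z) : ℝ) : ℂ) * ((M t).mulVec z ⬝ᵥ X M (ej i) (ej j) z) =
          (if t = j then ((pd t f (q M z) : ℝ) : ℂ) * P M z (ej i) else 0) -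
          (if t = i then ((pd t f (q M z) : ℝ) : ℂ) * P M z (ej j) else 0) := by
        intro t
        rw [cramer_id]
        by_cases h1 : t = j <;> by_cases h2 : t = i <;> simp [ej, Pi.single_apply, h1, h2, mul_sub]
      simp only [h5, Finset.sum_sub_distrib, Finset.sum_ite_eq', Finset.mem_univ, if_true]
    rw [h4, dv_X M hM.1]
    simp only [map_mul, map_sub, map_neg, Complex.conj_I, Complex.conj_ofReal,
      Complex.conj_conj, mul_zero, add_zero, neg_neg]
    ring
  simp only [h3] at h2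
  rw [integral_const_mul] at h2
  exact (mul_eq_zero.mp h2).resolve_left Complex.I_ne_zero

private theorem fderiv_sum_single {F : Type} [NormedAddCommGroup F] [NormedSpace ℂ F]
    (L : E m →L[ℂ] F) (z : E m) : ∑ k, z k • L (Pi.single k 1) = L z := by
  conv_rhs => rw [pi_eq_sum_univ' z]
  rw [map_sum]
  refine Finset.sum_congr rfl fun k _ => ?_
  rw [map_smul]

private theorem dv_smul {w : E m → ℂ} {v : E m → E m} {z : E m}
    (hw : DifferentiableAt ℂ w z) (hv : DifferentiableAt ℂ v z) :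
    dv (fun z => w z • v z) z = w z * dv v z + fderiv ℂ w z (v z) := by
  unfold dv
  have h1 : fderiv ℂ (fun z => w z • v z) z = w z • fderiv ℂ v z + (fderiv ℂ w z).smulRight (v z) :=
    (hw.hasFDerivAt.smul hv.hasFDerivAt).fderiv
  simp only [h1, _root_.add_apply, _root_.smul_apply,
    ContinuousLinearMap.smulRight_apply, Pi.add_apply, Pi.smul_apply, smul_eq_mul,
    Finset.sum_add_distrib, Finset.mul_sum]
  congr 1
  rw [← fderiv_sum_single (fderiv ℂ w z) (v z)]
  refine Finset.sum_congr rfl fun k _ => ?_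
  rw [smul_eq_mul, mul_comm]

private theorem dv_id (z : E m) : dv (fun z : E m => z) z = m := by
  unfold dv
  simp

theorem R2 (M : Sys m) (hM : Good M) {l : V m} {f : V m → ℝ} (hf : Test l f) {d : ℤ}
    {w : E m → ℂ} (hw : Hol M l w) (hd : Hom M l d w) {a : E m → ℂ} (ha : Hol M l a) :
    -Complex.I * ∑ j, (∫ z : E m, ((pd j f (q M z) : ℝ) : ℂ) *
        (phi M z j * w z * (starRingEnd ℂ) (a z)))
      + ((m : ℂ) + (d : ℂ)) * ∫ z : E m, ((f (q M z) : ℝ) : ℂ) * (w z * (starRingEnd ℂ) (a z))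
      = 0 := by
  have hc : ∀ t, CTest l (pd t f) := fun t => (hf.pd t).ctest
  have hm := master M hM hf (v := fun z => w z • z)
    (fun z hz => (hw z hz).smul contDiffAt_id) ha
  have hI : ∀ j, Integrable (fun z : E m => ((pd j f (q M z) : ℝ) : ℂ) *
      (phi M z j * w z * (starRingEnd ℂ) (a z))) := fun j =>
    integrable_nice M hM (hc j) (((hol_phi M l j).continuousOn.mul hw.continuousOn).mul
      (conj_cont ha.continuousOn))
  have hI0 : Integrable (fun z : E m => ((f (q M z) : ℝ) : ℂ) * (w z * (starRingEnd ℂ) (a z))) :=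
    integrable_nice M hM hf.ctest (hw.continuousOn.mul (conj_cont ha.continuousOn))
  rw [← integral_finsetSum _ (fun j _ => hI j), ← integral_const_mul, ← integral_const_mul,
    ← integral_add ((integrable_finsetSum _ (fun j _ => hI j)).const_mul _) (hI0.const_mul _),
    ← hm]
  refine integral_congr_ae (Filter.Eventually.of_forall fun z => ?_)
  by_cases hz : z ∈ U M l
  · have h1 : dv (fun z => w z • z) z = ((m : ℂ) + (d : ℂ)) * w z := by
      rw [dv_smul (v := fun z : E m => z) ((hw z hz).differentiableAt (by norm_num))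
        differentiableAt_fun_id, dv_id, hd z hz, smul_eq_mul]
      ring
    have h2 : ∀ j, (M j).mulVec z ⬝ᵥ (w z • z) = phi M z j * w z := by
      intro j
      rw [dotProduct_smul, phi, dotProduct_comm, smul_eq_mul, mul_comm]
    simp only [h1, h2]
    have e : (∑ j, ((pd j f (q M z) : ℝ) : ℂ) * (phi M z j * w z)) * (starRingEnd ℂ) (a z) =
        ∑ j, ((pd j f (q M z) : ℝ) : ℂ) * (phi M z j * w z * (starRingEnd ℂ) (a z)) := by
      rw [Finset.sum_mul]
      exact Finset.sum_congr rfl fun j _ => by ring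
    linear_combination Complex.I * e
  · have h0 : f (q M z) = 0 := off hf.ctest hz
    have h1 : ∀ j, pd j f (q M z) = 0 := fun j => off (hc j) hz
    simp [h0, h1]

theorem lemma1 (M : Sys m) (hM : Good M) {l : V m} {f : V m → ℝ} (hf : Test l f)
    {u : E m → ℂ} (hu : Hol M l u) (hd : Hom M l (-(m : ℤ)) u) (i : Fin (m + 1)) :
    D M u (pd i f) = 0 := by
  have hc : ∀ t, CTest l (pd t f) := fun t => (hf.pd t).ctest
  have hI : ∀ j, Integrable (fun z : E m => ((pd i f (q M z) : ℝ) : ℂ) *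
      ((starRingEnd ℂ) (P M z (ej j)) * (phi M z j * u z))) := fun j =>
    integrable_nice M hM (hc i) ((conj_cont (hol_P M l (ej j)).continuousOn).mul
      ((hol_phi M l j).continuousOn.mul hu.continuousOn))
  have h1 : D M u (pd i f) = ∑ j, ∫ z : E m, ((pd i f (q M z) : ℝ) : ℂ) *
      ((starRingEnd ℂ) (P M z (ej j)) * (phi M z j * u z)) := by
    rw [← integral_finsetSum _ (fun j _ => hI j)]
    unfold D wt
    refine integral_congr_ae (Filter.Eventually.of_forall fun z => ?_)
    simp only [Finset.mul_sum, Finset.sum_mul]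
    exact Finset.sum_congr rfl fun j _ => by ring
  have h2 := R2 M hM hf hu hd (hol_P M l (ej i))
  have h3 : ((m : ℂ) + ((-(m : ℤ) : ℤ) : ℂ)) = 0 := by push_cast; ring
  rw [h3, zero_mul, add_zero] at h2
  have h4 := (mul_eq_zero.mp h2).resolve_left (neg_ne_zero.mpr Complex.I_ne_zero)
  rw [h1, ← h4]
  refine Finset.sum_congr rfl fun j _ => ?_
  rw [← R1 M hM hf (hol_mul (hol_phi M l j) hu) i j]
  refine integral_congr_ae (Filter.Eventually.of_forall fun z => ?_)
  ring

private theorem hol_w (M : Sys m) {l : V m} {v : E m → E m} (hv : Hol M l v)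
    (j : Fin (m + 1)) : Hol M l (fun z => (M j).mulVec z ⬝ᵥ v z) := by
  intro z hz
  have hv' : ∀ k, ContDiffAt ℂ 1 (fun z => v z k) z := fun k => contDiffAt_pi.mp (hv z hz) k
  have hL : ∀ k, ContDiffAt ℂ 1 (fun z : E m => (M j).mulVec z k) z := fun k => by
    simp only [mulVec, dotProduct]
    exact ContDiffAt.sum fun i _ => contDiffAt_const.mul (contDiffAt_pi.mp contDiffAt_id i)
  simp only [dotProduct]
  exact ContDiffAt.sum fun k _ => (hL k).mul (hv' k)

private theorem hom_w (M : Sys m) {l : V m} {v : E m → E m} (hv : Hol M l v)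
    (hd : Hom M l (1 - (m : ℤ)) v) (j : Fin (m + 1)) :
    Hom M l (2 - (m : ℤ)) (fun z => (M j).mulVec z ⬝ᵥ v z) := by
  intro z hz
  have hv0 : DifferentiableAt ℂ v z := (hv z hz).differentiableAt (by norm_num)
  have hv' : ∀ k, HasFDerivAt (fun z => v z k)
      ((ContinuousLinearMap.proj k).comp (fderiv ℂ v z)) z := fun k =>
    hasFDerivAt_pi'.mp hv0.hasFDerivAt k
  let Lm : E m →L[ℂ] E m := LinearMap.toContinuousLinearMap (Matrix.mulVecLin (M j))
  have hLm : ∀ x, Lm x = (M j).mulVec x := fun x => rfl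
  have hL : ∀ k, HasFDerivAt (fun z : E m => (M j).mulVec z k)
      ((ContinuousLinearMap.proj k).comp Lm) z := fun k =>
    hasFDerivAt_pi'.mp Lm.hasFDerivAt k
  have h1 : HasFDerivAt (fun z => (M j).mulVec z ⬝ᵥ v z)
      (∑ k, ((M j).mulVec z k • ((ContinuousLinearMap.proj k).comp (fderiv ℂ v z)) +
        v z k • ((ContinuousLinearMap.proj k).comp Lm))) z := by
    simp only [dotProduct]
    exact HasFDerivAt.fun_sum fun k _ => (hL k).mul (hv' k)
  rw [h1.fderiv]
  have h2 : fderiv ℂ v z z = ((1 - (m : ℤ) : ℤ) : ℂ) • v z := hd z hz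
  simp only [_root_.sum_apply, _root_.add_apply,
    _root_.smul_apply, ContinuousLinearMap.comp_apply,
    ContinuousLinearMap.proj_apply, h2, hLm, Pi.smul_apply, smul_eq_mul, dotProduct,
    Finset.mul_sum]
  refine Finset.sum_congr rfl fun k _ => ?_
  push_cast
  ring

theorem lemma2 (M : Sys m) (hM : Good M) {l : V m} {f : V m → ℝ} (hf : Test l f)
    {v : E m → E m} (hv : Hol M l v) (hd : Hom M l (1 - (m : ℤ)) v) :
    D M (dv v) f = 0 := by
  have hc : ∀ t, CTest l (pd t f) := fun t => (hf.pd t).ctest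
  have hdv : ContinuousOn (dv v) (U M l) := by
    intro z hz
    have h1 : ContinuousAt (fderiv ℂ v) z :=
      ((hv z hz).fderiv_right (m := 0) (by norm_num)).continuousAt
    unfold dv
    refine ContinuousAt.continuousWithinAt ?_
    refine tendsto_finsetSum _ fun k _ => ?_
    have h2 : ContinuousAt (fun z => fderiv ℂ v z (Pi.single k 1)) z :=
      ((ContinuousLinearMap.apply ℂ (E m)
        (Pi.single k (1 : ℂ) : E m)).continuous.continuousAt).comp h1
    exact ((continuous_apply k).continuousAt.comp h2).tendsto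
  have hw := hol_w M hv
  have hwd := hom_w M hv hd
  -- integrability
  have hA : ∀ i, Integrable (fun z : E m => ((f (q M z) : ℝ) : ℂ) *
      (phi M z i * dv v z * (starRingEnd ℂ) (P M z (ej i)))) := fun i =>
    integrable_nice M hM hf.ctest (((hol_phi M l i).continuousOn.mul hdv).mul
      (conj_cont (hol_P M l (ej i)).continuousOn))
  have hB : ∀ i, Integrable (fun z : E m => ((f (q M z) : ℝ) : ℂ) *
      (((M i).mulVec z ⬝ᵥ v z) * (starRingEnd ℂ) (P M z (ej i)))) := fun i =>
    integrable_nice M hM hf.ctest ((hw i).continuousOn.mul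
      (conj_cont (hol_P M l (ej i)).continuousOn))
  have hC : ∀ i j, Integrable (fun z : E m => ((pd j f (q M z) : ℝ) : ℂ) *
      ((starRingEnd ℂ) (P M z (ej i)) * (phi M z i * ((M j).mulVec z ⬝ᵥ v z)))) := fun i j =>
    integrable_nice M hM (hc j) ((conj_cont (hol_P M l (ej i)).continuousOn).mul
      ((hol_phi M l i).continuousOn.mul (hw j).continuousOn))
  -- the master relation for `phi_i v`
  have h3 : ∀ i, -Complex.I * ∑ j, (∫ z : E m, ((pd j f (q M z) : ℝ) : ℂ) *
        ((starRingEnd ℂ) (P M z (ej i)) * (phi M z i * ((M j).mulVec z ⬝ᵥ v z))))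
      + ((∫ z : E m, ((f (q M z) : ℝ) : ℂ) *
          (phi M z i * dv v z * (starRingEnd ℂ) (P M z (ej i))))
      + 2 * ∫ z : E m, ((f (q M z) : ℝ) : ℂ) *
          (((M i).mulVec z ⬝ᵥ v z) * (starRingEnd ℂ) (P M z (ej i)))) = 0 := by
    intro i
    have hm := master M hM hf (v := fun z => phi M z i • v z)
      (fun z hz => (hol_phi M l i z hz).smul (hv z hz)) (hol_P M l (ej i))
    have hAB : Integrable (fun z : E m => ((f (q M z) : ℝ) : ℂ) *
        (phi M z i * dv v z * (starRingEnd ℂ) (P M z (ej i))) + 2 * (((f (q M z) : ℝ) : ℂ) *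
        (((M i).mulVec z ⬝ᵥ v z) * (starRingEnd ℂ) (P M z (ej i))))) :=
      (hA i).add ((hB i).const_mul 2)
    rw [← integral_finsetSum _ (fun j _ => hC i j), ← integral_const_mul, ← integral_const_mul,
      ← integral_add (hA i) ((hB i).const_mul _),
      ← integral_add ((integrable_finsetSum _ (fun j _ => hC i j)).const_mul _) hAB, ← hm]
    refine integral_congr_ae (Filter.Eventually.of_forall fun z => ?_)
    by_cases hz : z ∈ U M l
    · have h1 : dv (fun z => phi M z i • v z) z =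
          phi M z i * dv v z + 2 * ((M i).mulVec z ⬝ᵥ v z) := by
        rw [dv_smul ((hol_phi M l i z hz).differentiableAt (by norm_num))
          ((hv z hz).differentiableAt (by norm_num)), fderiv_phi M i (hM.1 i)]
      have h2 : ∀ j, (M j).mulVec z ⬝ᵥ (phi M z i • v z) =
          phi M z i * ((M j).mulVec z ⬝ᵥ v z) := by
        intro j
        rw [dotProduct_smul, smul_eq_mul]
      simp only [h1, h2]
      have e : (∑ j, ((pd j f (q M z) : ℝ) : ℂ) * (phi M z i * ((M j).mulVec z ⬝ᵥ v z))) *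
          (starRingEnd ℂ) (P M z (ej i)) =
          ∑ j, ((pd j f (q M z) : ℝ) : ℂ) *
          ((starRingEnd ℂ) (P M z (ej i)) * (phi M z i * ((M j).mulVec z ⬝ᵥ v z))) := by
        rw [Finset.sum_mul]
        exact Finset.sum_congr rfl fun j _ => by ring
      linear_combination Complex.I * e
    · have h0 : f (q M z) = 0 := off hf.ctest hz
      have h1 : ∀ j, pd j f (q M z) = 0 := fun j => off (hc j) hz
      simp [h0, h1]
  have h4 : D M (dv v) f = ∑ i, ∫ z : E m, ((f (q M z) : ℝ) : ℂ) *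
      (phi M z i * dv v z * (starRingEnd ℂ) (P M z (ej i))) := by
    rw [← integral_finsetSum _ (fun i _ => hA i)]
    unfold D wt
    refine integral_congr_ae (Filter.Eventually.of_forall fun z => ?_)
    simp only [Finset.mul_sum, Finset.sum_mul]
    exact Finset.sum_congr rfl fun j _ => by ring
  -- R2 for the functions `w_j`
  have h5 : ∀ j, -Complex.I * ∑ i, (∫ z : E m, ((pd i f (q M z) : ℝ) : ℂ) *
        (phi M z i * ((M j).mulVec z ⬝ᵥ v z) * (starRingEnd ℂ) (P M z (ej j))))
      + 2 * ∫ z : E m, ((f (q M z) : ℝ) : ℂ) *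
          (((M j).mulVec z ⬝ᵥ v z) * (starRingEnd ℂ) (P M z (ej j))) = 0 := by
    intro j
    have h := R2 M hM hf (hw j) (hwd j) (hol_P M l (ej j))
    have h' : ((m : ℂ) + ((2 - (m : ℤ) : ℤ) : ℂ)) = 2 := by push_cast; ring
    rw [h'] at h
    exact h
  have h6 : ∀ i j, ∫ z : E m, ((pd j f (q M z) : ℝ) : ℂ) *
        ((starRingEnd ℂ) (P M z (ej i)) * (phi M z i * ((M j).mulVec z ⬝ᵥ v z))) =
      ∫ z : E m, ((pd i f (q M z) : ℝ) : ℂ) *
        (phi M z i * ((M j).mulVec z ⬝ᵥ v z) * (starRingEnd ℂ) (P M z (ej j))) := by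
    intro i j
    rw [R1 M hM hf (hol_mul (hol_phi M l i) (hw j)) i j]
    refine integral_congr_ae (Filter.Eventually.of_forall fun z => ?_)
    ring
  have h7 : ∑ i, (-Complex.I * ∑ j, (∫ z : E m, ((pd j f (q M z) : ℝ) : ℂ) *
        ((starRingEnd ℂ) (P M z (ej i)) * (phi M z i * ((M j).mulVec z ⬝ᵥ v z))))
      + ((∫ z : E m, ((f (q M z) : ℝ) : ℂ) *
          (phi M z i * dv v z * (starRingEnd ℂ) (P M z (ej i))))
      + 2 * ∫ z : E m, ((f (q M z) : ℝ) : ℂ) *
          (((M i).mulVec z ⬝ᵥ v z) * (starRingEnd ℂ) (P M z (ej i))))) = 0 :=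
    Finset.sum_eq_zero fun i _ => h3 i
  have h8 : ∑ j, (-Complex.I * ∑ i, (∫ z : E m, ((pd i f (q M z) : ℝ) : ℂ) *
        (phi M z i * ((M j).mulVec z ⬝ᵥ v z) * (starRingEnd ℂ) (P M z (ej j))))
      + 2 * ∫ z : E m, ((f (q M z) : ℝ) : ℂ) *
          (((M j).mulVec z ⬝ᵥ v z) * (starRingEnd ℂ) (P M z (ej j)))) = 0 :=
    Finset.sum_eq_zero fun j _ => h5 j
  rw [Finset.sum_add_distrib, ← Finset.mul_sum, Finset.sum_add_distrib, ← h4] at h7
  rw [Finset.sum_add_distrib, ← Finset.mul_sum] at h8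
  simp only [h6] at h7
  rw [Finset.sum_comm] at h7
  linear_combination h7 - h8

end Pool.Agent.Lib.MP_7fdaab_ag.KP
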