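import Pool.Agent.Lib.MP_7fdaab_ag.KP.TransB
import Pool.Agent.Lib.MP_7fdaab_ag.KP.Param


/-!
# MP_7fdaab / KP / Trans: if `D(u; pd_i f) = 0` always, then `D(u; f) = c * int f`

`trans_inv`: translation invariance, the derivative of `t ↦ D(u; f(. - t y))` is `- sum_i y_i D(u; pd_i f(. - t y)) = 0`. `conv_symm` (TransB): Fubini.
-/

set_option autoImplicit false

namespace Pool.Agent.Lib.MP_7fdaab_ag.KP

open Matrix MeasureTheory Topology

variable {m : ℕ}

theorem pd_shift {f : V m → ℝ} (hf : ContDiff ℝ (⊤ : ℕ∞) f) (i : Fin (m + 1)) (v x : V m) :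
    pd i (fun x => f (x - v)) x = pd i f (x - v) := by
  unfold pd
  have h1 : HasFDerivAt (fun x : V m => f (x - v)) (fderiv ℝ f (x - v)) x := by
    have h2 : HasFDerivAt f (fderiv ℝ f (x - v)) (x - v) := (hf.differentiable (by simp) _).hasFDerivAt
    have h3 : HasFDerivAt (fun x : V m => x - v) (ContinuousLinearMap.id ℝ (V m)) x := (hasFDerivAt_id x).sub_const v
    have h4 := HasFDerivAt.comp (g := f) (f := fun x : V m => x - v) x h2 h3
    rw [ContinuousLinearMap.comp_id] at h4
    exact h4
  rw [h1.fderiv]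

theorem pd_cont {f : V m → ℝ} (hf : ContDiff ℝ (⊤ : ℕ∞) f) (i : Fin (m + 1)) : Continuous (pd i f) := by
  unfold pd
  exact (hf.continuous_fderiv (by simp)).clm_apply continuous_const

theorem fderiv_sum (f : V m → ℝ) (x y : V m) : fderiv ℝ f x y = ∑ i, y i * pd i f x := by
  unfold pd
  conv_lhs => rw [show y = ∑ i, y i • (Pi.single i (1 : ℝ) : V m) from by
    funext k
    simp [Finset.sum_apply, Pi.single_apply]]
  rw [map_sum]
  exact Finset.sum_congr rfl fun i _ => by rw [map_smul, smul_eq_mul]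

theorem test_shift {l : V m} {f : V m → ℝ} (hf : Test l f) {y : V m} {t : ℝ} (h : ∀ x ∈ tsupport f, x + t • y ∈ H l) :
    Test l (fun x => f (x - t • y)) := by
  have hs : tsupport (fun x => f (x - t • y)) ⊆ (fun x => x - t • y) ⁻¹' tsupport f :=
    tsupport_comp_subset_preimage f (continuous_id.sub continuous_const)
  refine ⟨hf.smooth.comp (contDiff_id.sub contDiff_const), ?_, ?_⟩
  · refine HasCompactSupport.intro (hf.compact.isCompact.image (f := fun x => x + t • y) (continuous_id.add continuous_const)) ?_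
    intro x hx
    refine image_eq_zero_of_notMem_tsupport fun h2 => hx ⟨x - t • y, h2, sub_add_cancel _ _⟩
  · intro x hx
    have h3 := h _ (hs hx)
    rwa [sub_add_cancel] at h3

theorem trans_inv (M : Sys m) (hM : Good M) {l : V m} {u : E m → ℂ} (hu : ContinuousOn u (U M l))
    (h1 : ∀ f : V m → ℝ, Test l f → ∀ i, D M u (pd i f) = 0) {f : V m → ℝ} (hf : Test l f) {y : V m} (hy : y ∈ H l) :
    D M u (fun x => f (x - y)) = D M u f := by
  have hq : Continuous (q M) := (q_contDiff M 0).continuous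
  have hlin : Continuous fun x : V m => ∑ j, l j * x j := by fun_prop
  obtain ⟨ε, hε, hεle⟩ : ∃ ε : ℝ, 0 < ε ∧ ∀ x ∈ tsupport f, ε ≤ ∑ j, l j * x j :=
    hf.compact.isCompact.exists_forall_le' hlin.continuousOn fun x hx => hf.supp hx
  have hy' : 0 < ∑ j, l j * y j := hy
  obtain ⟨δ, hδ, hδ2⟩ : ∃ δ : ℝ, 0 < δ ∧ δ * (∑ j, l j * y j) < ε := by
    refine ⟨ε / (2 * ∑ j, l j * y j), by positivity, ?_⟩
    have : ε / (2 * ∑ j, l j * y j) * (∑ j, l j * y j) = ε / 2 := by field_simp
    rw [this]
    linarith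
  have hin : ∀ t : ℝ, -δ ≤ t → ∀ x ∈ tsupport f, x + t • y ∈ H l := by
    intro t ht x hx
    show 0 < ∑ j, l j * (x + t • y) j
    have h2 : ∑ j, l j * (x + t • y) j = ∑ j, l j * x j + t * ∑ j, l j * y j := by
      rw [Finset.mul_sum, ← Finset.sum_add_distrib]
      refine Finset.sum_congr rfl fun j _ => ?_
      simp only [Pi.add_apply, Pi.smul_apply, smul_eq_mul]
      ring
    rw [h2]
    have h3 := hεle x hx
    nlinarith
  -- the compact set
  obtain ⟨K', hK'⟩ : ∃ K' : Set (V m), K' = (fun p : V m × ℝ => p.1 + p.2 • y) '' (tsupport f ×ˢ Set.Icc (-δ) 2) := ⟨_, rfl⟩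
  have hK'c : IsCompact K' := by
    rw [hK']
    exact (hf.compact.isCompact.prod isCompact_Icc).image (by fun_prop)
  have hK'H : K' ⊆ H l := by
    rw [hK']
    rintro _ ⟨⟨x, t⟩, ⟨hx, ht⟩, rfl⟩
    exact hin t ht.1 x hx
  have hK : IsCompact (q M ⁻¹' K') := isCompact_preimage M hM hK'c
  have hKU : q M ⁻¹' K' ⊆ U M l := fun z hz => hK'H hz
  have hout : ∀ t ∈ Set.Ioo (-δ) 2, ∀ z ∉ q M ⁻¹' K', q M z - t • y ∉ tsupport f := by
    intro t ht z hz h2
    apply hz
    rw [Set.mem_preimage, hK']
    exact ⟨(q M z - t • y, t), ⟨h2, ht.1.le, ht.2.le⟩, sub_add_cancel _ _⟩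
  have hder : ∀ t₀ ∈ Set.Ioo (-δ) 2, HasDerivAt (fun t : ℝ => D M u (fun x => f (x - t • y))) 0 t₀ := by
    intro t₀ ht₀
    have hft : Test l (fun x => f (x - t₀ • y)) := test_shift hf (hin t₀ ht₀.1.le)
    have h2 := param_deriv (N := Set.Ioo (-δ) 2) (Ioo_mem_nhds ht₀.1 ht₀.2) hK
      (G := fun t z => ((f (q M z - t • y) : ℝ) : ℂ) * wt M z * u z)
      (G' := fun t z => ((-∑ i, y i * pd i f (q M z - t • y) : ℝ) : ℂ) * wt M z * u z) ?_ ?_ ?_ ?_ ?_
    · have h3 : ∫ z, ((-∑ i, y i * pd i f (q M z - t₀ • y) : ℝ) : ℂ) * wt M z * u z = 0 := by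
        have h4 : ∀ z, ((-∑ i, y i * pd i f (q M z - t₀ • y) : ℝ) : ℂ) * wt M z * u z =
            ∑ i, (-(y i : ℂ)) * (((pd i (fun x => f (x - t₀ • y)) (q M z) : ℝ) : ℂ) * (wt M z * u z)) := by
          intro z
          push_cast
          rw [neg_mul, neg_mul, Finset.sum_mul, Finset.sum_mul, ← Finset.sum_neg_distrib]
          refine Finset.sum_congr rfl fun i _ => ?_
          rw [pd_shift hf.smooth]
          ring
        simp only [h4]
        rw [integral_finsetSum]
        · refine Finset.sum_eq_zero fun i _ => ?_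
          rw [integral_const_mul]
          have h5 := h1 _ hft i
          unfold D at h5
          have h6 : ∫ z, ((pd i (fun x => f (x - t₀ • y)) (q M z) : ℝ) : ℂ) * (wt M z * u z) = 0 := by
            rw [← h5]
            refine integral_congr_ae (Filter.Eventually.of_forall fun z => ?_)
            show _ * (_ * _) = _ * _ * _
            ring
          rw [h6, mul_zero]
        · intro i _
          exact (integrable_nice M hM (hft.pd i).ctest ((wt_cont M).continuousOn.mul hu)).const_mul _
      have h7 : (fun t : ℝ => D M u (fun x => f (x - t • y))) = fun t : ℝ => ∫ z, ((f (q M z - t • y) : ℝ) : ℂ) * wt M z * u z := rfl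
      rw [h7]
      rw [h3] at h2
      exact h2
    · refine ContinuousOn.mul (ContinuousOn.mul ?_ ?_) ?_
      · exact (Complex.continuous_ofReal.comp (hf.smooth.continuous.comp
          ((hq.comp continuous_snd).sub (continuous_fst.smul continuous_const)))).continuousOn
      · exact ((wt_cont M).comp continuous_snd).continuousOn
      · exact (hu.mono hKU).comp continuous_snd.continuousOn fun p hp => hp.2
    · refine ContinuousOn.mul (ContinuousOn.mul ?_ ?_) ?_
      · refine (Complex.continuous_ofReal.comp (Continuous.neg ?_)).continuousOn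
        refine continuous_finsetSum _ fun i _ => continuous_const.mul ?_
        exact (pd_cont hf.smooth i).comp ((hq.comp continuous_snd).sub (continuous_fst.smul continuous_const))
      · exact ((wt_cont M).comp continuous_snd).continuousOn
      · exact (hu.mono hKU).comp continuous_snd.continuousOn fun p hp => hp.2
    · intro t ht z hz
      show ((f (q M z - t • y) : ℝ) : ℂ) * wt M z * u z = 0
      rw [image_eq_zero_of_notMem_tsupport (hout t ht z hz), Complex.ofReal_zero, zero_mul, zero_mul]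
    · intro t ht z hz
      show ((-∑ i, y i * pd i f (q M z - t • y) : ℝ) : ℂ) * wt M z * u z = 0
      have h8 : ∑ i, y i * pd i f (q M z - t • y) = 0 := by
        refine Finset.sum_eq_zero fun i _ => ?_
        have h9 : q M z - t • y ∉ tsupport (pd i f) := fun h10 => hout t ht z hz
          (tsupport_fderiv_apply_subset ℝ _ h10)
        rw [image_eq_zero_of_notMem_tsupport h9, mul_zero]
      rw [h8, neg_zero, Complex.ofReal_zero, zero_mul, zero_mul]
    · intro t ht z hz
      refine HasDerivAt.mul_const (HasDerivAt.mul_const ?_ _) _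
      have h8 : HasDerivAt (fun s : ℝ => f (q M z - s • y)) (-∑ i, y i * pd i f (q M z - t • y)) t := by
        have h9 : HasDerivAt (fun s : ℝ => q M z - s • y) (-y) t := by
          have := ((hasDerivAt_id t).smul_const y).const_sub (q M z)
          simpa using this
        have h10 : HasFDerivAt f (fderiv ℝ f (q M z - t • y)) (q M z - t • y) := (hf.smooth.differentiable (by simp) _).hasFDerivAt
        have h11 := h10.comp_hasDerivAt t h9
        rw [map_neg, fderiv_sum] at h11
        exact h11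
      exact h8.ofReal_comp
  have h2 := IsOpen.is_const_of_deriv_eq_zero (s := Set.Ioo (-δ) 2) isOpen_Ioo isPreconnected_Ioo
    (f := fun t : ℝ => D M u (fun x => f (x - t • y))) (fun t ht => (hder t ht).differentiableAt.differentiableWithinAt)
    (fun t ht => (hder t ht).deriv) (x := 1) (y := 0) ⟨by linarith, by norm_num⟩ ⟨by linarith, by norm_num⟩
  simpa using h2

theorem exists_const (M : Sys m) (hM : Good M) {l : V m} {u : E m → ℂ}
    (hu : ContinuousOn u (U M l))
    (h1 : ∀ f : V m → ℝ, Test l f → ∀ i, D M u (pd i f) = 0) :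
    ∃ c : ℂ, ∀ f : V m → ℝ, Test l f → D M u f = c * ((∫ y, f y : ℝ) : ℂ) := by
  have key : ∀ b f : V m → ℝ, Test l b → Test l f → ∫ y, ((b y : ℝ) : ℂ) * D M u (fun x => f (x - y)) = ((∫ y, b y : ℝ) : ℂ) * D M u f := by
    intro b f hb hf
    have h2 : ∀ y, ((b y : ℝ) : ℂ) * D M u (fun x => f (x - y)) = ((b y : ℝ) : ℂ) * D M u f := by
      intro y
      by_cases hy : y ∈ tsupport b
      · rw [trans_inv M hM hu h1 hf (hb.supp hy)]
      · rw [image_eq_zero_of_notMem_tsupport hy, Complex.ofReal_zero, zero_mul, zero_mul]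
    simp only [h2]
    rw [integral_mul_const, integral_complex_ofReal]
  rcases (H l).eq_empty_or_nonempty with h0 | ⟨y₀, hy₀⟩
  · refine ⟨0, fun f hf => ?_⟩
    have h2 : tsupport f = ∅ := Set.subset_empty_iff.1 (h0 ▸ hf.supp)
    have h3 : f = 0 := tsupport_eq_empty_iff.1 h2
    rw [zero_mul, D, h3]
    simp
  · obtain ⟨b, hb, -, -, -, hpos⟩ := exists_test hy₀ one_pos
    refine ⟨D M u b / ((∫ y, b y : ℝ) : ℂ), fun f hf => ?_⟩
    have h2 := conv_symm M hM hu hb hf
    rw [key b f hb hf, key f b hf hb] at h2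
    have h3 : ((∫ y, b y : ℝ) : ℂ) ≠ 0 := by
      rw [Complex.ofReal_ne_zero]
      exact hpos.ne'
    field_simp
    linear_combination h2

end Pool.Agent.Lib.MP_7fdaab_ag.KP
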