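import Pool.Agent.Lib.MP_7fdaab_ag.KP.Proper

/-!
# MP_7fdaab / KP / TransB: the Fubini half of the row Trans

`F(y, z) = b(y) f(q z - y) wt(z) u(z)` is continuous with compact support on the product; swap the integrals, substitute `y ↦ q z - y`, swap back.
-/

set_option autoImplicit false

namespace Pool.Agent.Lib.MP_7fdaab_ag.KP

open Matrix MeasureTheory Topology Pointwise

variable {m : ℕ}

theorem wt_cont (M : Sys m) : Continuous (wt M) := by
  unfold wt
  refine continuous_finsetSum _ fun j _ => ?_
  have h1 : Continuous fun z : E m => phi M z j := by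
    unfold phi dotProduct Matrix.mulVec dotProduct
    refine continuous_finsetSum _ fun i _ => (continuous_apply i).mul ?_
    exact continuous_finsetSum _ fun k _ => continuous_const.mul (continuous_apply k)
  have h2 : Continuous fun z : E m => P M z (ej j) := by
    unfold P
    refine Continuous.matrix_det ?_
    refine continuous_matrix fun a c => ?_
    unfold A
    simp only [Matrix.of_apply]
    refine Fin.cases ?_ (fun k => ?_) c
    · simp only [Fin.cons_zero]
      exact continuous_const
    · simp only [Fin.cons_succ]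
      unfold Matrix.mulVec dotProduct
      exact continuous_finsetSum _ fun k _ => continuous_const.mul (continuous_apply k)
  exact h1.mul (Complex.continuous_conj.comp h2)

theorem H_add {l x y : V m} (hx : x ∈ H l) (hy : y ∈ H l) : x + y ∈ H l := by
  unfold H at *
  simp only [Set.mem_ofPred_eq, Pi.add_apply] at *
  have : ∑ j, l j * (x j + y j) = ∑ j, l j * x j + ∑ j, l j * y j := by
    rw [← Finset.sum_add_distrib]
    exact Finset.sum_congr rfl fun j _ => by ring
  rw [this]
  exact add_pos hx hy

/-- the integrand on the product -/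
noncomputable def FF (M : Sys m) (u : E m → ℂ) (b f : V m → ℝ) (y : V m) (z : E m) : ℂ :=
  ((b y : ℝ) : ℂ) * (((f (q M z - y) : ℝ) : ℂ) * wt M z * u z)

theorem FF_cont (M : Sys m) {l : V m} {u : E m → ℂ} (hu : ContinuousOn u (U M l)) {b f : V m → ℝ} (hb : Test l b) (hf : Test l f) :
    Continuous (Function.uncurry (FF M u b f)) := by
  rw [continuous_iff_continuousAt]
  rintro ⟨y, z⟩
  have hq : Continuous (q M) := (q_contDiff M 0).continuous
  by_cases hz : z ∈ U M l
  · have h1 : ContinuousAt (fun p : V m × E m => u p.2) (y, z) :=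
      ContinuousAt.comp (f := fun p : V m × E m => p.2) (hu.continuousAt ((isOpen_U M l).mem_nhds hz)) continuous_snd.continuousAt
    have h2 : ContinuousAt (fun p : V m × E m => ((b p.1 : ℝ) : ℂ)) (y, z) :=
      (Complex.continuous_ofReal.comp (hb.smooth.continuous.comp continuous_fst)).continuousAt
    have h3 : ContinuousAt (fun p : V m × E m => ((f (q M p.2 - p.1) : ℝ) : ℂ)) (y, z) :=
      (Complex.continuous_ofReal.comp (hf.smooth.continuous.comp ((hq.comp continuous_snd).sub continuous_fst))).continuousAt
    have h4 : ContinuousAt (fun p : V m × E m => wt M p.2) (y, z) := ((wt_cont M).comp continuous_snd).continuousAt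
    exact h2.mul ((h3.mul h4).mul h1)
  · have h5 : y ∉ tsupport b ∨ q M z - y ∉ tsupport f := by
      by_contra h
      push Not at h
      apply hz
      have := H_add (hb.supp h.1) (hf.supp h.2)
      rw [add_sub_cancel] at this
      exact this
    have h6 : Function.uncurry (FF M u b f) =ᶠ[𝓝 (y, z)] fun _ => 0 := by
      rcases h5 with h5 | h5
      · have h7 : {p : V m × E m | p.1 ∉ tsupport b} ∈ 𝓝 (y, z) :=
          ((isClosed_tsupport b).isOpen_compl.preimage continuous_fst).mem_nhds h5
        filter_upwards [h7] with p hp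
        simp only [Function.uncurry, FF]
        rw [image_eq_zero_of_notMem_tsupport hp, Complex.ofReal_zero, zero_mul]
      · have h7 : {p : V m × E m | q M p.2 - p.1 ∉ tsupport f} ∈ 𝓝 (y, z) :=
          ((isClosed_tsupport f).isOpen_compl.preimage ((hq.comp continuous_snd).sub continuous_fst)).mem_nhds h5
        filter_upwards [h7] with p hp
        simp only [Function.uncurry, FF]
        rw [image_eq_zero_of_notMem_tsupport hp, Complex.ofReal_zero, zero_mul, zero_mul, mul_zero]
    exact continuousAt_const.congr h6.symm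

theorem FF_supp (M : Sys m) (hM : Good M) (u : E m → ℂ) {l : V m} {b f : V m → ℝ} (hb : Test l b) (hf : Test l f) :
    HasCompactSupport (Function.uncurry (FF M u b f)) := by
  have hK : IsCompact (tsupport b ×ˢ (q M ⁻¹' (tsupport f + tsupport b))) :=
    hb.compact.isCompact.prod (isCompact_preimage M hM (hf.compact.isCompact.add hb.compact.isCompact))
  refine HasCompactSupport.intro hK ?_
  rintro ⟨y, z⟩ hyz
  simp only [Function.uncurry, FF]
  by_cases h1 : y ∈ tsupport b
  · have h2 : q M z - y ∉ tsupport f := by
      intro h2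
      apply hyz
      refine ⟨h1, ?_⟩
      rw [Set.mem_preimage]
      exact ⟨q M z - y, h2, y, h1, sub_add_cancel _ _⟩
    rw [image_eq_zero_of_notMem_tsupport h2, Complex.ofReal_zero, zero_mul, zero_mul, mul_zero]
  · rw [image_eq_zero_of_notMem_tsupport h1, Complex.ofReal_zero, zero_mul]

theorem FF_inner (M : Sys m) (u : E m → ℂ) (b f : V m → ℝ) (z : E m) :
    ∫ y, FF M u b f y z = ((∫ y, b y * f (q M z - y) : ℝ) : ℂ) * (wt M z * u z) := by
  have h1 : ∀ y, FF M u b f y z = (((b y * f (q M z - y) : ℝ)) : ℂ) * (wt M z * u z) := by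
    intro y
    unfold FF
    push_cast
    ring
  simp only [h1]
  rw [integral_mul_const, integral_complex_ofReal]

theorem conv_symm (M : Sys m) (hM : Good M) {l : V m} {u : E m → ℂ} (hu : ContinuousOn u (U M l)) {b f : V m → ℝ} (hb : Test l b)
    (hf : Test l f) :
    ∫ y, ((b y : ℝ) : ℂ) * D M u (fun x => f (x - y)) = ∫ y, ((f y : ℝ) : ℂ) * D M u (fun x => b (x - y)) := by
  have h1 : ∀ (b f : V m → ℝ), Test l b → Test l f → ∫ y, ((b y : ℝ) : ℂ) * D M u (fun x => f (x - y)) =
      ∫ z, ((∫ y, b y * f (q M z - y) : ℝ) : ℂ) * (wt M z * u z) := by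
    intro b f hb hf
    have h2 : ∀ y, ((b y : ℝ) : ℂ) * D M u (fun x => f (x - y)) = ∫ z, FF M u b f y z := by
      intro y
      unfold D FF
      rw [integral_const_mul]
    simp only [h2]
    rw [integral_integral_swap_of_hasCompactSupport (FF_cont M hu hb hf) (FF_supp M hM u hb hf)]
    simp only [FF_inner]
  rw [h1 b f hb hf, h1 f b hf hb]
  refine integral_congr_ae (Filter.Eventually.of_forall fun z => ?_)
  show ((∫ y, b y * f (q M z - y) : ℝ) : ℂ) * (wt M z * u z) = ((∫ y, f y * b (q M z - y) : ℝ) : ℂ) * (wt M z * u z)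
  congr 2
  rw [← integral_sub_left_eq_self (fun y => b y * f (q M z - y)) volume (q M z)]
  refine integral_congr_ae (Filter.Eventually.of_forall fun y => ?_)
  show b (q M z - y) * f (q M z - (q M z - y)) = f y * b (q M z - y)
  rw [sub_sub_cancel, mul_comm]

end Pool.Agent.Lib.MP_7fdaab_ag.KP
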